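import Pool.Agent.Lib.MP_629a14_nt.Ck.Defs
import Pool.Agent.Lib.MP_629a14_nt.Th.Ident

/-! The Fourier coefficients of `‖SS‖²`. -/

set_option autoImplicit false

namespace Pool.Agent.Lib.MP_629a14_nt.Ck

open Finset Pool.Agent.Lib.MP_629a14_nt Pool.Agent.Lib.MP_629a14_nt.Th

private lemma Corr_orth (Q : ℕ) (hQ : 1 ≤ Q) (j : ℤ) (hj : |j| < Q) :
    (1 / (Q : ℂ)) * ∑ h ∈ range Q, ee ((j : ℝ) * ((h : ℝ) / Q)) = if j = 0 then 1 else 0 := by
  have h1 : ∑ h ∈ range Q, ee ((j : ℝ) * ((h : ℝ) / Q)) = ∑ h ∈ range Q, ee ((h : ℝ) * ((j : ℝ) / Q)) := by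
    refine Finset.sum_congr rfl fun h _ => ?_
    congr 1
    ring
  have hQ0 : (Q : ℂ) ≠ 0 := by exact_mod_cast (show Q ≠ 0 by omega)
  rw [h1, sum_ee_range Q hQ j]
  by_cases h0 : j = 0
  · subst h0
    simp [hQ0]
  · have h2 : ¬ ((Q : ℤ) ∣ j) := fun hd => h0 (Int.eq_zero_of_abs_lt_dvd hd hj)
    rw [if_neg h2, if_neg h0, mul_zero]

private lemma Corr_sq (P N : ℕ) (α : ℝ) (d : ℤ) :
    ((‖SS P N α‖ ^ 2 : ℝ) : ℂ) * ee (d * α) =
    ∑ m₁ ∈ Icc 1 (2 * N), ∑ m₂ ∈ Icc 1 (2 * N), ((aP P m₁ : ℂ) * aP P m₂) *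
      ee ((((m₁ : ℤ) - m₂ + d : ℤ) : ℝ) * α) := by
  rw [Complex.ofReal_pow, ← Complex.mul_conj']
  unfold SS
  rw [map_sum, Finset.sum_mul_sum, Finset.sum_mul]
  refine Finset.sum_congr rfl fun m₁ _ => ?_
  rw [Finset.sum_mul]
  refine Finset.sum_congr rfl fun m₂ _ => ?_
  have : (((m₁ : ℤ) - m₂ + d : ℤ) : ℝ) * α = m₁ * α + (-(m₂ * α) + d * α) := by
    push_cast
    ring
  rw [this, ee_add, ee_add, map_mul, conj_ee, Complex.conj_ofReal]
  ring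

private lemma Corr_double (P N : ℕ) (d : ℤ) :
    (∑ m₁ ∈ Icc 1 (2 * N), ∑ m₂ ∈ Icc 1 (2 * N),
      if (m₁ : ℤ) - m₂ + d = 0 then ((aP P m₁ : ℂ) * aP P m₂) else 0) =
      ((rho P N d.natAbs : ℝ) : ℂ) := by
  unfold rho
  rw [Complex.ofReal_sum]
  rcases le_total 0 d with hd | hd
  · refine Finset.sum_congr rfl fun m hm => ?_
    rw [Finset.mem_Icc] at hm
    split_ifs with h1
    · rw [Finset.mem_Icc] at h1
      rw [Finset.sum_eq_single (m + d.natAbs)]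
      · rw [if_pos (by omega)]
        push_cast
        ring
      · intro b _ hb
        rw [if_neg (by omega)]
      · intro hb
        exfalso
        apply hb
        rw [Finset.mem_Icc]
        omega
    · rw [Complex.ofReal_zero]
      refine Finset.sum_eq_zero fun b hb => ?_
      rw [Finset.mem_Icc] at hb h1
      rw [if_neg (by omega)]
  · rw [Finset.sum_comm]
    refine Finset.sum_congr rfl fun m hm => ?_
    rw [Finset.mem_Icc] at hm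
    split_ifs with h1
    · rw [Finset.mem_Icc] at h1
      rw [Finset.sum_eq_single (m + d.natAbs)]
      · rw [if_pos (by omega)]
        push_cast
        ring
      · intro b _ hb
        rw [if_neg (by omega)]
      · intro hb
        exfalso
        apply hb
        rw [Finset.mem_Icc]
        omega
    · rw [Complex.ofReal_zero]
      refine Finset.sum_eq_zero fun b hb => ?_
      rw [Finset.mem_Icc] at hb h1
      rw [if_neg (by omega)]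

/-- Proof. `‖SS(h/M)‖² = ∑_{m,m' ∈ Icc 1 (2N)} aP m aP m' e((m - m') h/M)` with `M = 8N`, so the left side is the sum of
`aP m aP m'` over the pairs with `M ∣ m - m' + d` (`sum_ee_range`); as `|m - m' + d| < 3N < M` this means `m' = m + d`
(compare `Th.ident`). For `d ≥ 0` this is `rho P N d`, for `d < 0` exchange `m` and `m'`. -/
theorem corr (P N : ℕ) (hN : 1 ≤ N) (d : ℤ) (hd : |d| ≤ N) :
    (1 / ((8 * N : ℕ) : ℂ)) * ∑ h ∈ range (8 * N),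
      ((‖SS P N ((h : ℝ) / (8 * N : ℕ))‖ ^ 2 : ℝ) : ℂ) * ee (d * ((h : ℝ) / (8 * N : ℕ))) =
      ((rho P N d.natAbs : ℝ) : ℂ) := by
  set Q := 8 * N with hQ
  have hQ1 : 1 ≤ Q := by omega
  rw [abs_le] at hd
  rw [← Corr_double, Finset.sum_congr rfl fun (h : ℕ) _ => Corr_sq P N ((h : ℝ) / Q) d,
    Finset.sum_comm, Finset.mul_sum]
  refine Finset.sum_congr rfl fun m₁ hm₁ => ?_
  rw [Finset.mem_Icc] at hm₁
  rw [Finset.sum_comm, Finset.mul_sum]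
  refine Finset.sum_congr rfl fun m₂ hm₂ => ?_
  rw [Finset.mem_Icc] at hm₂
  rw [← Finset.mul_sum, mul_left_comm, Corr_orth Q hQ1]
  · split_ifs <;> simp
  · rw [abs_lt]; constructor <;> push_cast [hQ] <;> omega

private lemma Corr_MM {ι : Type} [Fintype ι] (a : ι → ℤ) (β : ℝ) :
    ((‖MM a β‖ ^ 2 : ℝ) : ℂ) =
      (∑ i, ∑ i', ee (((a i - a i' : ℤ) : ℝ) * β)) / (Fintype.card ι : ℂ) ^ 2 := by
  rw [Complex.ofReal_pow, ← Complex.mul_conj']
  unfold MM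
  rw [map_div₀, map_sum, div_mul_div_comm, Finset.sum_mul_sum, Complex.conj_natCast, ← sq]
  congr 1
  refine Finset.sum_congr rfl fun i _ => Finset.sum_congr rfl fun i' _ => ?_
  rw [conj_ee, ← ee_add]
  congr 1
  push_cast
  ring

/-- Proof. `‖MM a β‖² = |ι|⁻² ∑_{i,i'} e((a i - a i') β)`; hence the left side is
`|ι|⁻² ∑_{i,i'} ‖(1/M) ∑_h ‖SS(h/M)‖² e((a i - a i') h/M)‖²`, and use `corr`. -/
theorem energy_id {ι : Type} [Fintype ι] [Nonempty ι] (P N : ℕ) (hN : 1 ≤ N) (a : ι → ℤ)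
    (ha : ∀ i i', |a i - a i'| ≤ N) :
    (1 / ((8 * N : ℕ) : ℝ) ^ 2) * ∑ h ∈ range (8 * N), ∑ h' ∈ range (8 * N),
      ‖SS P N ((h : ℝ) / (8 * N : ℕ))‖ ^ 2 * ‖SS P N ((h' : ℝ) / (8 * N : ℕ))‖ ^ 2 *
        ‖MM a (((h' : ℝ) - h) / (8 * N : ℕ))‖ ^ 2 =
      (∑ i, ∑ i', rho P N (a i - a i').natAbs ^ 2) / (Fintype.card ι : ℝ) ^ 2 := by
  set Q := 8 * N with hQ
  have hr : ∀ i i', (rho P N (a i - a i').natAbs : ℂ) ^ 2 =
      (1 / (Q : ℂ) ^ 2) * ∑ h ∈ range Q, ∑ h' ∈ range Q,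
        (((‖SS P N ((h : ℝ) / Q)‖ ^ 2 : ℝ) : ℂ) * ((‖SS P N ((h' : ℝ) / Q)‖ ^ 2 : ℝ) : ℂ)) *
          ee (((a i - a i' : ℤ) : ℝ) * (((h' : ℝ) - h) / Q)) := by
    intro i i'
    have h1 := corr P N hN (a i - a i') (ha i i')
    have h2 := corr P N hN (a i' - a i) (ha i' i)
    have h3 : (a i' - a i).natAbs = (a i - a i').natAbs := by omega
    rw [h3] at h2
    rw [← hQ] at h1 h2
    rw [sq]
    nth_rewrite 1 [← h2]
    rw [← h1, mul_mul_mul_comm, Finset.sum_mul_sum]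
    congr 1
    · ring
    · refine Finset.sum_congr rfl fun h _ => Finset.sum_congr rfl fun h' _ => ?_
      have h4 : ((a i - a i' : ℤ) : ℝ) * (((h' : ℝ) - h) / Q) =
          ((a i' - a i : ℤ) : ℝ) * ((h : ℝ) / Q) + ((a i - a i' : ℤ) : ℝ) * ((h' : ℝ) / Q) := by
        push_cast
        ring
      rw [h4, ee_add]
      ring
  have hc : (((1 / (Q : ℝ) ^ 2) * ∑ h ∈ range Q, ∑ h' ∈ range Q,
      ‖SS P N ((h : ℝ) / Q)‖ ^ 2 * ‖SS P N ((h' : ℝ) / Q)‖ ^ 2 *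
        ‖MM a (((h' : ℝ) - h) / Q)‖ ^ 2 : ℝ) : ℂ) =
      (((∑ i, ∑ i', rho P N (a i - a i').natAbs ^ 2) / (Fintype.card ι : ℝ) ^ 2 : ℝ) : ℂ) := by
    rw [Complex.ofReal_mul, Complex.ofReal_sum,
      Complex.ofReal_div (∑ i, ∑ i', rho P N (a i - a i').natAbs ^ 2), Complex.ofReal_sum]
    have e1 : ∀ i, ((∑ i', rho P N (a i - a i').natAbs ^ 2 : ℝ) : ℂ) =
        ∑ i', (1 / (Q : ℂ) ^ 2) * ∑ h ∈ range Q, ∑ h' ∈ range Q,
        (((‖SS P N ((h : ℝ) / Q)‖ ^ 2 : ℝ) : ℂ) * ((‖SS P N ((h' : ℝ) / Q)‖ ^ 2 : ℝ) : ℂ)) *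
          ee (((a i - a i' : ℤ) : ℝ) * (((h' : ℝ) - h) / Q)) := by
      intro i
      rw [Complex.ofReal_sum]
      refine Finset.sum_congr rfl fun i' _ => ?_
      rw [Complex.ofReal_pow, hr]
    rw [Finset.sum_congr rfl fun i _ => e1 i]
    have e2 : ∀ h : ℕ, ((∑ h' ∈ range Q,
        ‖SS P N ((h : ℝ) / Q)‖ ^ 2 * ‖SS P N ((h' : ℝ) / Q)‖ ^ 2 *
        ‖MM a (((h' : ℝ) - h) / Q)‖ ^ 2 : ℝ) : ℂ) =
        (∑ h' ∈ range Q, ∑ i, ∑ i',
        (((‖SS P N ((h : ℝ) / Q)‖ ^ 2 : ℝ) : ℂ) * ((‖SS P N ((h' : ℝ) / Q)‖ ^ 2 : ℝ) : ℂ)) *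
          ee (((a i - a i' : ℤ) : ℝ) * (((h' : ℝ) - h) / Q))) / (Fintype.card ι : ℂ) ^ 2 := by
      intro h
      rw [Complex.ofReal_sum, Finset.sum_div]
      refine Finset.sum_congr rfl fun h' _ => ?_
      rw [Complex.ofReal_mul, Complex.ofReal_mul, Corr_MM, mul_div_assoc', Finset.mul_sum]
      congr 1
      refine Finset.sum_congr rfl fun i _ => ?_
      rw [Finset.mul_sum]
    rw [Finset.sum_congr rfl fun h _ => e2 h, ← Finset.sum_div, mul_div_assoc']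
    push_cast
    congr 1
    simp only [← Finset.mul_sum]
    congr 1
    -- exchange the sums
    have e3 : ∀ (F : ℕ → ℕ → ι → ι → ℂ), ∑ h ∈ range Q, ∑ h' ∈ range Q, ∑ i, ∑ i', F h h' i i' =
        ∑ i, ∑ i', ∑ h ∈ range Q, ∑ h' ∈ range Q, F h h' i i' := by
      intro F
      calc ∑ h ∈ range Q, ∑ h' ∈ range Q, ∑ i, ∑ i', F h h' i i'
          = ∑ h ∈ range Q, ∑ i, ∑ h' ∈ range Q, ∑ i', F h h' i i' :=
            Finset.sum_congr rfl fun h _ => Finset.sum_comm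
        _ = ∑ h ∈ range Q, ∑ i, ∑ i', ∑ h' ∈ range Q, F h h' i i' :=
            Finset.sum_congr rfl fun h _ => Finset.sum_congr rfl fun i _ => Finset.sum_comm
        _ = ∑ i, ∑ h ∈ range Q, ∑ i', ∑ h' ∈ range Q, F h h' i i' := Finset.sum_comm
        _ = _ := Finset.sum_congr rfl fun i _ => Finset.sum_comm
    simp only [Finset.mul_sum]
    exact e3 _
  exact_mod_cast hc

end Pool.Agent.Lib.MP_629a14_nt.Ck
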