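import Pool.Agent.Lib.MP_629a14_nt.Th.Defs
import Pool.Agent.Lib.MP_629a14_nt.Ratio

/-! Families `s + a i + a i' + b j`: the Hardy-Littlewood asymptotics for almost all members if the Fourier
transform of `b` is small (by a constant) outside a set of measure `N^{-1+c}`. -/

set_option autoImplicit false

namespace Pool.Agent.Lib.MP_629a14_nt.Ck

open Finset Pool.Agent.Lib.MP_629a14_nt Pool.Agent.Lib.MP_629a14_nt.Th

/-- The normalised exponential sum of a finite family of integers. -/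
noncomputable def MM {ι : Type} [Fintype ι] (a : ι → ℤ) (α : ℝ) : ℂ :=
  (∑ i, ee (a i * α)) / (Fintype.card ι : ℂ)

/-- The members of the family. -/
def nn {ι κ : Type} (a : ι → ℤ) (b : κ → ℤ) (s : ℤ) (t : ι × ι × κ) : ℤ :=
  s + a t.1 + a t.2.1 + b t.2.2

open Classical in
/-- The distribution of the family. -/
noncomputable def ww {ι κ : Type} [Fintype ι] [Fintype κ] (a : ι → ℤ) (b : κ → ℤ) (s : ℤ) (n : ℕ) : ℝ :=
  (((univ : Finset (ι × ι × κ)).filter (fun t => nn a b s t = n)).card : ℝ) /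
    ((Fintype.card ι : ℝ) ^ 2 * (Fintype.card κ : ℝ))

/-- The correlation of the primes larger than `P`. -/
noncomputable def rho (P N k : ℕ) : ℝ :=
  ∑ m ∈ Icc 1 (2 * N), if m + k ∈ Icc 1 (2 * N) then aP P m * aP P (m + k) else 0

/-- The family with two binary digits. -/
def aa (σ : ℤ) (n : ℕ) (x : Fin n × Fin n) : ℤ := σ * (2 ^ ((x.1 : ℕ) + 1) + 2 ^ ((x.2 : ℕ) + 1))

/-- The family with `k` binary digits. -/
def bb (σ : ℤ) (n k : ℕ) (t : Fin k → Fin n) : ℤ := σ * ∑ i, 2 ^ ((t i : ℕ) + 1)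

end Pool.Agent.Lib.MP_629a14_nt.Ck
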