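import Pool.Agent.Lib.MP_629a14_nt.Ck.Quad

/-! Divisibility in the family. -/

set_option autoImplicit false

namespace Pool.Agent.Lib.MP_629a14_nt.Ck

open Finset Pool.Agent.Lib.MP_629a14_nt

/-- Proof. Fix all coordinates but the first: `one_count` and `ord_two` give
`n / ord + 1 ≤ n log 2 / log m + 1 ≤ n (log 2 + (n+n₂) log 2/n)/log m ≤ n · 4 / log m` for `m ≤ 2^(2n)` (`1 ≤ 2n log 2/log m`).
For `m > 2^(2n)` no member of the family is divisible by `m`. -/
theorem div (σ : ℤ) (hσ : σ = 1 ∨ σ = -1) (n k m : ℕ) (s : ℤ) (hn : 1 ≤ n) (hm : Odd m) (h3 : 3 ≤ m)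
    (hs : ∀ t, 1 ≤ nn (aa σ n) (bb σ n k) s t ∧ nn (aa σ n) (bb σ n k) s t ≤ 2 ^ (2 * n)) :
    (((univ : Finset ((Fin n × Fin n) × (Fin n × Fin n) × (Fin k → Fin n))).filter
      (fun t => (m : ℤ) ∣ nn (aa σ n) (bb σ n k) s t)).card : ℝ) ≤
      4 / Real.log m * ((n : ℝ) ^ 4 * (n : ℝ) ^ k) := by
  have hmr : (3 : ℝ) ≤ m := by exact_mod_cast h3
  have hlm : 0 < Real.log m := Real.log_pos (by linarith)
  have hnr : (1 : ℝ) ≤ n := by exact_mod_cast hn
  by_cases hbig : 2 ^ (2 * n) < m
  · have h0 : (univ : Finset ((Fin n × Fin n) × (Fin n × Fin n) × (Fin k → Fin n))).filter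
        (fun t => (m : ℤ) ∣ nn (aa σ n) (bb σ n k) s t) = ∅ := by
      rw [filter_eq_empty_iff]
      intro t _ hd
      obtain ⟨h1, h2⟩ := hs t
      have h4 := Int.le_of_dvd (by omega) hd
      have h5 : (2 : ℤ) ^ (2 * n) < m := by exact_mod_cast hbig
      omega
    rw [h0, card_empty, Nat.cast_zero]
    positivity
  · obtain ⟨ho1, _, ho2⟩ := ord_two m hm h3
    have ho : (1 : ℝ) ≤ (orderOf (2 : ZMod m) : ℝ) := by exact_mod_cast ho1
    have hl2 : 0 < Real.log 2 := Real.log_pos (by norm_num)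
    have hl2' := Real.log_two_lt_d9
    have hlog : Real.log m ≤ 2 * n * Real.log 2 := by
      have h4 : (m : ℝ) ≤ 2 ^ (2 * n) := by
        exact_mod_cast not_lt.1 hbig
      have h5 := Real.log_le_log (by linarith) h4
      rw [Real.log_pow] at h5
      push_cast at h5
      exact h5
    have hfac : (n : ℝ) / (orderOf (2 : ZMod m) : ℝ) + 1 ≤ 4 / Real.log m * n := by
      have h4 : (n : ℝ) / (orderOf (2 : ZMod m) : ℝ) ≤ n * Real.log 2 / Real.log m := by
        rw [div_le_div_iff₀ (by linarith) hlm]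
        have := mul_le_mul_of_nonneg_left ho2 (by linarith : (0 : ℝ) ≤ n)
        linarith
      have h5 : (1 : ℝ) ≤ 2 * n * Real.log 2 / Real.log m := by
        rw [one_le_div hlm]
        exact hlog
      have h6 : n * Real.log 2 / Real.log m + 2 * n * Real.log 2 / Real.log m =
          (3 * Real.log 2) * n / Real.log m := by ring
      have h7 : (3 * Real.log 2) * n / Real.log m ≤ 4 * n / Real.log m := by
        apply div_le_div_of_nonneg_right _ hlm.le
        apply mul_le_mul_of_nonneg_right _ (by linarith)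
        linarith
      have h8 : 4 / Real.log m * n = 4 * n / Real.log m := by ring
      rw [h8]
      linarith
    have hcard : (((univ : Finset ((Fin n × Fin n) × (Fin n × Fin n) × (Fin k → Fin n))).filter
        (fun t => (m : ℤ) ∣ nn (aa σ n) (bb σ n k) s t)).card : ℝ) ≤
        ∑ _y : Fin n, ∑ _q : (Fin n × Fin n) × (Fin k → Fin n),
          ((n : ℝ) / (orderOf (2 : ZMod m) : ℝ) + 1) := by
      rw [card_filter]
      push_cast
      rw [Fintype.sum_prod_type, Fintype.sum_prod_type, sum_comm]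
      refine sum_le_sum fun y _ => ?_
      rw [sum_comm]
      refine sum_le_sum fun q _ => ?_
      have h4 := one_count σ hσ n m hm (s + σ * 2 ^ ((y : ℕ) + 1) + aa σ n q.1 + bb σ n k q.2)
      rw [card_filter] at h4
      push_cast at h4
      refine le_trans (le_of_eq ?_) h4
      refine sum_congr rfl fun x _ => ?_
      have h5 : nn (aa σ n) (bb σ n k) s ((x, y), q) =
          s + σ * 2 ^ ((y : ℕ) + 1) + aa σ n q.1 + bb σ n k q.2 + σ * 2 ^ ((x : ℕ) + 1) := by
        unfold nn
        simp only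
        have : aa σ n (x, y) = σ * (2 ^ ((x : ℕ) + 1) + 2 ^ ((y : ℕ) + 1)) := rfl
        rw [this]
        ring
      rw [h5]
    refine hcard.trans ?_
    rw [sum_const, sum_const, card_univ, card_univ, Fintype.card_fin, Fintype.card_prod,
      Fintype.card_prod, Fintype.card_fin, Fintype.card_fun, Fintype.card_fin, Fintype.card_fin,
      nsmul_eq_mul, nsmul_eq_mul]
    push_cast
    calc (n : ℝ) * ((n : ℝ) * n * (n : ℝ) ^ k * ((n : ℝ) / (orderOf (2 : ZMod m) : ℝ) + 1))
        ≤ (n : ℝ) * ((n : ℝ) * n * (n : ℝ) ^ k * (4 / Real.log m * n)) := by gcongr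
      _ = _ := by ring

end Pool.Agent.Lib.MP_629a14_nt.Ck
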