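import Pool.Agent.Lib.MP_629a14_nt.Ck.Mean
import Pool.Agent.Lib.MP_629a14_nt.Lf.Point
import Pool.Agent.Lib.MP_629a14_nt.Lf.PropZ
import Pool.Agent.Lib.MP_629a14_nt.Th.VSup
import Pool.Agent.Lib.MP_629a14_nt.Th.BadMass
import Pool.Agent.Lib.MP_629a14_nt.Th.R2conv

/-! The theorem for families `s + a i + a i' + b j`. -/

set_option autoImplicit false

namespace Pool.Agent.Lib.MP_629a14_nt.Ck

open Finset Pool.Agent.Lib.MP_629a14_nt Pool.Agent.Lib.MP_629a14_nt.Th MeasureTheory Filter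

/-! ### Growth -/

private theorem gr1 (a : ℝ) (ha : 0 < a) : ∀ᶠ x : ℝ in atTop, x ^ (3 / 4 : ℝ) ≤ a * x := by
  have ht := tendsto_rpow_atTop (show (0 : ℝ) < 1 / 4 by norm_num)
  filter_upwards [ht.eventually_ge_atTop (1 / a), eventually_gt_atTop 1] with x hx h1
  have h0 : (0 : ℝ) < x := by linarith
  rw [div_le_iff₀ ha] at hx
  calc x ^ (3 / 4 : ℝ) = x ^ (3 / 4 : ℝ) * 1 := (mul_one _).symm
    _ ≤ x ^ (3 / 4 : ℝ) * (x ^ (1 / 4 : ℝ) * a) := by gcongr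
    _ = a * (x ^ (3 / 4 : ℝ) * x ^ (1 / 4 : ℝ)) := by ring
    _ = a * x := by rw [← Real.rpow_add h0]; norm_num

private theorem gr2 (B a : ℝ) (ha : 0 < a) : ∀ᶠ x : ℝ in atTop, B * x ≤ Real.exp (a * x) := by
  have h := (Real.isLittleO_pow_exp_atTop (n := 1)).bound (show (0 : ℝ) < a / (|B| + 1) by positivity)
  have ht : Tendsto (fun x : ℝ => a * x) atTop atTop := Tendsto.const_mul_atTop ha tendsto_id
  filter_upwards [ht.eventually h, eventually_gt_atTop 0] with x hx h1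
  rw [pow_one, Real.norm_of_nonneg (by positivity), Real.norm_of_nonneg (Real.exp_pos _).le] at hx
  have h3 : x ≤ Real.exp (a * x) / (|B| + 1) := by
    have : a * x ≤ a * (Real.exp (a * x) / (|B| + 1)) := by
      calc a * x ≤ a / (|B| + 1) * Real.exp (a * x) := hx
        _ = _ := by ring
    exact le_of_mul_le_mul_left this ha
  rw [le_div_iff₀ (by positivity)] at h3
  calc B * x ≤ |B| * x := by gcongr; exact le_abs_self B
    _ ≤ x * (|B| + 1) := by nlinarith [abs_nonneg B]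
    _ ≤ _ := h3

private theorem tlog : Tendsto (fun N : ℕ => Real.log N) atTop atTop :=
  Real.tendsto_log_atTop.comp tendsto_natCast_atTop_atTop

/-- The choice of `P`. -/
private theorem grP (c τ ε' : ℝ) (hc : 0 < c) (hc2 : c ≤ 1 / 200) (hτ : 0 < τ) (hε' : 0 < ε') :
    ∃ N₀ : ℕ, ∀ N : ℕ, N₀ ≤ N → ∃ P : ℕ,
    Real.exp ((Real.log N) ^ (3 / 4 : ℝ)) ≤ P ∧ P ^ 100 ≤ N ∧ (P : ℝ) ≤ (N : ℝ) ^ c ∧ 3 ≤ N ∧ 2 ≤ P ∧
    2 * Real.log N * (8 * N * (N : ℝ) ^ (-1 + c / 4) / τ + 1) / Real.sqrt P ≤ ε' := by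
  have h1 := tlog.eventually (gr1 (c / 4) (by positivity))
  have h2 := tlog.eventually (gr2 (4 * (8 / τ + 1) / ε') (c / 4) (by positivity))
  have h3 := tlog.eventually (eventually_ge_atTop (max 3 (4 / c)))
  obtain ⟨N₀, hN₀⟩ := eventually_atTop.1 (h1.and (h2.and (h3.and (eventually_ge_atTop 3))))
  refine ⟨N₀, fun N hN => ?_⟩
  obtain ⟨g1, g2, g3, g4⟩ := hN₀ N hN
  have hL3 : 3 ≤ Real.log N := le_trans (le_max_left _ _) g3
  have hLc : 4 / c ≤ Real.log N := le_trans (le_max_right _ _) g3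
  have hNpos : (0 : ℝ) < N := by exact_mod_cast (by omega : 0 < N)
  have hN1 : (1 : ℝ) ≤ N := by exact_mod_cast (by omega : 1 ≤ N)
  set L := Real.log N with hL
  have hL0 : 0 < L := by linarith
  set y := Real.exp (c / 4 * L) with hy
  have hy2 : 2 ≤ y := by
    have h5 : 1 ≤ c / 4 * L := by
      rw [div_le_iff₀ hc] at hLc
      linarith
    have := Real.add_one_le_exp (c / 4 * L)
    linarith
  have hypos : 0 < y := by linarith
  have hyN : (N : ℝ) ^ c = y ^ 4 := by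
    rw [Real.rpow_def_of_pos hNpos, hy, ← Real.exp_nat_mul, ← hL]
    congr 1
    push_cast
    ring
  have hf1 : ((⌊y ^ 4⌋₊ : ℕ) : ℝ) ≤ y ^ 4 := Nat.floor_le (by positivity)
  have hf2 : y ^ 4 < ⌊y ^ 4⌋₊ + 1 := Nat.lt_floor_add_one _
  have hy4 : y * 8 ≤ y ^ 4 := by
    have : (8 : ℝ) ≤ y ^ 3 := by
      calc (8 : ℝ) = 2 ^ 3 := by norm_num
        _ ≤ y ^ 3 := by gcongr
    calc y * 8 ≤ y * y ^ 3 := by gcongr
      _ = y ^ 4 := by ring
  have hPy : y ^ 4 / 4 ≤ ((⌊y ^ 4⌋₊ : ℕ) : ℝ) := by linarith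
  have hPy2 : y ≤ ((⌊y ^ 4⌋₊ : ℕ) : ℝ) := by linarith
  refine ⟨⌊y ^ 4⌋₊, ?_, ?_, ?_, g4, ?_, ?_⟩
  · refine le_trans ?_ hPy2
    exact Real.exp_le_exp.2 g1
  · have : ((⌊y ^ 4⌋₊ ^ 100 : ℕ) : ℝ) ≤ (N : ℝ) := by
      push_cast
      calc ((⌊y ^ 4⌋₊ : ℕ) : ℝ) ^ 100 ≤ ((N : ℝ) ^ c) ^ 100 := by rw [hyN]; gcongr
        _ = (N : ℝ) ^ (c * 100) := by rw [← Real.rpow_natCast, ← Real.rpow_mul hNpos.le]; norm_num
        _ ≤ (N : ℝ) ^ (1 : ℝ) := Real.rpow_le_rpow_of_exponent_le hN1 (by linarith)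
        _ = N := Real.rpow_one _
    exact_mod_cast this
  · rw [hyN]; exact hf1
  · have : (2 : ℝ) ≤ ((⌊y ^ 4⌋₊ : ℕ) : ℝ) := by linarith
    exact_mod_cast this
  · have hsq : y ^ 2 / 2 ≤ Real.sqrt ((⌊y ^ 4⌋₊ : ℕ) : ℝ) := by
      apply Real.le_sqrt_of_sq_le
      calc (y ^ 2 / 2) ^ 2 = y ^ 4 / 4 := by ring
        _ ≤ _ := hPy
    have hsq0 : 0 < y ^ 2 / 2 := by positivity
    have e1 : 8 * (N : ℝ) * (N : ℝ) ^ (-1 + c / 4) = 8 * y := by
      rw [mul_assoc]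
      congr 1
      rw [Real.rpow_add hNpos, Real.rpow_neg_one, Real.rpow_def_of_pos hNpos, ← mul_assoc,
        mul_inv_cancel₀ hNpos.ne', one_mul, hy, ← hL, mul_comm]
    rw [e1]
    have e2 : 8 * y / τ + 1 ≤ (8 / τ + 1) * y := by
      have : 8 * y / τ = 8 / τ * y := by ring
      rw [this]
      nlinarith
    rw [div_le_iff₀ (lt_of_lt_of_le hsq0 hsq)]
    have e3 : 4 * (8 / τ + 1) * L ≤ ε' * y := by
      have := mul_le_mul_of_nonneg_left g2 hε'.le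
      calc 4 * (8 / τ + 1) * L = ε' * (4 * (8 / τ + 1) / ε' * L) := by field_simp
        _ ≤ _ := this
    calc 2 * L * (8 * y / τ + 1) ≤ 2 * L * ((8 / τ + 1) * y) := by gcongr
      _ = (4 * (8 / τ + 1) * L) * (y / 2) := by ring
      _ ≤ (ε' * y) * (y / 2) := by gcongr
      _ = ε' * (y ^ 2 / 2) := by ring
      _ ≤ _ := by gcongr

/-- Chebyshev. -/
private theorem cheb (N : ℕ) (w f : ℕ → ℝ) (hw : ∀ n, 0 ≤ w n) (B t : ℝ) (ht : 0 < t)
    (h : ∑ n ∈ Icc 1 N, w n * f n ^ 2 ≤ B * t ^ 2) :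
    ∑ n ∈ (Icc 1 N).filter (fun n => t < f n), w n ≤ B := by
  have h1 : (∑ n ∈ (Icc 1 N).filter (fun n => t < f n), w n) * t ^ 2 ≤ ∑ n ∈ Icc 1 N, w n * f n ^ 2 := by
    rw [sum_mul]
    refine le_trans (sum_le_sum (g := fun n => w n * f n ^ 2) fun n hn => ?_)
      (sum_le_sum_of_subset_of_nonneg (filter_subset _ _) fun n _ _ => mul_nonneg (hw n) (sq_nonneg _))
    rw [mem_filter] at hn
    have := hw n
    have h2 := hn.2
    gcongr
  have ht2 : 0 < t ^ 2 := by positivity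
  exact le_of_mul_le_mul_right (le_trans h1 h) ht2

/-! ### The theorem -/

open Classical in
/-- The Hardy-Littlewood asymptotics hold for almost all even members of the family `s + a i + a i' + b j` if the normalised
exponential sum of `b` is at least `τ` only on a set of measure `N^{-1+c}`. -/
theorem main (K δ ε : ℝ) (hK : 0 ≤ K) (hδ : 0 < δ) (hε : 0 < ε) : ∃ c τ : ℝ, 0 < c ∧ 0 < τ ∧ ∃ N₀ : ℕ,
    ∀ N : ℕ, N₀ ≤ N → ∀ (ι κ : Type) [Fintype ι] [Fintype κ] [Nonempty ι] [Nonempty κ]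
    (a : ι → ℤ) (b : κ → ℤ) (s : ℤ), (∀ t, 1 ≤ nn a b s t ∧ nn a b s t ≤ N) →
    (((univ : Finset (ι × ι)).filter (fun t => a t.1 = a t.2)).card : ℝ) * (Real.log N) ^ 2 ≤
      K * (Fintype.card ι : ℝ) ^ 2 →
    ∑ t ∈ (univ : Finset (ι × ι)).filter (fun t => a t.1 ≠ a t.2), (rt (a t.1 - a t.2).natAbs) ^ 4 ≤
      K * (Fintype.card ι : ℝ) ^ 2 →
    (∀ m : ℕ, Odd m → 3 ≤ m →
      (((univ : Finset (ι × ι × κ)).filter (fun t => (m : ℤ) ∣ nn a b s t)).card : ℝ) ≤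
        K / Real.log m * ((Fintype.card ι : ℝ) ^ 2 * (Fintype.card κ : ℝ))) →
    volume {α : ℝ | α ∈ Set.Icc (0 : ℝ) 1 ∧ τ ≤ ‖MM b α‖} ≤ ENNReal.ofReal ((N : ℝ) ^ (-1 + c)) →
    (((univ : Finset (ι × ι × κ)).filter (fun t => Even (nn a b s t).toNat ∧ δ * N ≤ ((nn a b s t).toNat : ℝ) ∧
      ε * En.HL (nn a b s t).toNat < |(En.r2 (nn a b s t).toNat : ℝ) - En.HL (nn a b s t).toNat|)).card : ℝ) ≤
      ε * ((Fintype.card ι : ℝ) ^ 2 * (Fintype.card κ : ℝ)) := by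
  have htw := En.tw_pos
  obtain ⟨Cm, hCm1, hmean⟩ := meansq
  obtain ⟨ε₁, hε₁⟩ : ∃ ε₁ : ℝ, ε₁ = min ε 1 / 16 := ⟨_, rfl⟩
  have hε₁0 : 0 < ε₁ := by rw [hε₁]; positivity
  obtain ⟨τp, ηp, hτp, hηp, Np, hpoint⟩ := Lf.point ε₁ δ hε₁0 hδ
  obtain ⟨R₁, hR₁⟩ := bad_mass K τp (ε / 2) hτp (by positivity)
  obtain ⟨Nr, hr2⟩ := r2_conv ε δ hε hδ
  obtain ⟨Nv, hvs⟩ := vsup
  obtain ⟨Nu, hvu⟩ := vsum
  obtain ⟨c₁, hc₁, hc₁2, hprop⟩ := Lf.propZ ηp hηp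
  obtain ⟨Nz, hz⟩ := hprop (max R₁ 2)
  obtain ⟨η, hη⟩ : ∃ η : ℝ, η = ε₁ * (2 * En.tw * δ) := ⟨_, rfl⟩
  have hη0 : 0 < η := by rw [hη]; positivity
  obtain ⟨τ, hτ⟩ : ∃ τ : ℝ, τ = min 1 (ε * η ^ 2 / 4 / (Cm * K + 1)) := ⟨_, rfl⟩
  have hCK : 0 ≤ Cm * K := by positivity
  have hτ0 : 0 < τ := by rw [hτ]; positivity
  have hτ1 : τ ≤ 1 := by rw [hτ]; exact min_le_left _ _
  have hτ2 : Cm * K * τ ≤ ε * η ^ 2 / 4 := by
    have h1 : τ ≤ ε * η ^ 2 / 4 / (Cm * K + 1) := by rw [hτ]; exact min_le_right _ _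
    rw [le_div_iff₀ (by positivity)] at h1
    nlinarith
  obtain ⟨Ng, hg⟩ := grP c₁ τ (ε * η ^ 2 / 4) hc₁ hc₁2 hτ0 (by positivity)
  refine ⟨c₁ / 4, τ, by positivity, hτ0, Np + Nr + Nv + Nu + Nz + Ng, ?_⟩
  intro N hN ι κ _ _ _ _ a b s hmem hdiag hrt hdiv hvol
  obtain ⟨P, hP1, hPN, hP2, hN3, hPtwo, hgP⟩ := hg N (by omega)
  have hNpos : (0 : ℝ) < N := by exact_mod_cast (by omega : 0 < N)
  obtain ⟨e, D, he0, he2, hep, heR, hD0, hDx, hD1, hs1, hs2⟩ := hz N P (by omega) hP1 hP2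
  have hw := ww_nonneg a b s
  set w := ww a b s with hwdef
  have hι : (0 : ℝ) < Fintype.card ι := by exact_mod_cast Fintype.card_pos
  have hκ : (0 : ℝ) < Fintype.card κ := by exact_mod_cast Fintype.card_pos
  have hcard : (0 : ℝ) < (Fintype.card ι : ℝ) ^ 2 * (Fintype.card κ : ℝ) := by positivity
  have hms := hmean N P ι κ a b s K τ ((N : ℝ) ^ (-1 + c₁ / 4)) hN3 hPtwo hPN hτ0 hτ1 (by positivity) hmem
    (by convert hdiag) (by convert hrt) hvol (hvs N P (by omega) hP1 hPN) (hvu N P (by omega) hP1 hPN)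
  have hms2 : ∑ n ∈ Icc 1 N, w n * ‖((RR P n : ℝ) : ℂ) - RM P N (N / P ^ 20) n‖ ^ 2 ≤
      (ε / 2) * (η * N) ^ 2 := by
    refine le_trans hms ?_
    have h5 : (Cm * K * τ + 2 * Real.log N * (8 * N * (N : ℝ) ^ (-1 + c₁ / 4) / τ + 1) / Real.sqrt P) ≤
        ε * η ^ 2 / 4 + ε * η ^ 2 / 4 := add_le_add hτ2 hgP
    calc _ ≤ (ε * η ^ 2 / 4 + ε * η ^ 2 / 4) * (N : ℝ) ^ 2 := by gcongr
      _ = _ := by ring
  have hch := cheb N w (fun n => ‖((RR P n : ℝ) : ℂ) - RM P N (N / P ^ 20) n‖) hw (ε / 2) (η * N)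
    (by positivity) hms2
  -- divisibility
  have hdivw : ∀ m : ℕ, Odd m → 3 ≤ m → ∑ n ∈ (Icc 1 N).filter (fun n => m ∣ n), w n ≤ K / Real.log m := by
    intro m hm hm3
    have h1 := ww_filter a b s N hmem (fun n => m ∣ n)
    rw [← hwdef] at h1
    have h2 : ∑ n ∈ (Icc 1 N).filter (fun n => m ∣ n), w n =
        (((univ : Finset (ι × ι × κ)).filter (fun t => m ∣ (nn a b s t).toNat)).card : ℝ) /
        ((Fintype.card ι : ℝ) ^ 2 * (Fintype.card κ : ℝ)) := by convert h1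
    rw [h2, div_le_iff₀ hcard]
    refine le_trans ?_ (hdiv m hm hm3)
    have h3 : (univ : Finset (ι × ι × κ)).filter (fun t => m ∣ (nn a b s t).toNat) =
        (univ : Finset (ι × ι × κ)).filter (fun t => (m : ℤ) ∣ nn a b s t) := by
      apply filter_congr
      intro t _
      have h4 := (hmem t).1
      have h5 : ((nn a b s t).toNat : ℤ) = nn a b s t := Int.toNat_of_nonneg (by linarith)
      rw [← Int.natCast_dvd_natCast, h5]
    rw [h3]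
  have he1 : e = ch1 ∨ (e ∈ prims P ∧ e ≠ ch1) := by
    rcases heR with h | ⟨h1, h2⟩
    · exact Or.inl h
    · refine Or.inr ⟨h1, fun h => ?_⟩
      have : (2 : ℕ) ≤ e.1 := le_trans (le_max_right _ _) h2
      rw [h] at this
      simp [ch1] at this
  -- a good n
  have hgood : ∀ n ∈ Icc 1 N, Even n → δ * N ≤ n →
      (e = ch1 ∨ (e.1 : ℝ) * sgm (Nat.gcd e.1 n) / (e.1.totient : ℝ) ^ 2 ≤ τp) →
      ‖((RR P n : ℝ) : ℂ) - RM P N (N / P ^ 20) n‖ ≤ η * N → |(En.r2 n : ℝ) - En.HL n| ≤ ε * En.HL n := by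
    intro n hn hev hδn hsm hle
    rw [mem_Icc] at hn
    have hpt := hpoint N P (by omega) hP1 hPN e D he2 he1 hD0 hDx hD1 hs1 hs2 n hev hδn hn.2 hsm
    refine hr2 N P n (by omega) hPN hδn hn.2 ?_
    have hsing := En.sing_ge n
    have h1 : η * N ≤ ε₁ * (En.sing n * n) := by
      rw [hη]
      calc ε₁ * (2 * En.tw * δ) * N = ε₁ * (2 * En.tw * (δ * N)) := by ring
        _ ≤ ε₁ * (En.sing n * n) := by
            have h0 : 0 ≤ En.sing n := le_trans (by positivity) hsing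
            have : 2 * En.tw * (δ * N) ≤ En.sing n * n := by gcongr
            gcongr
    have h2 : |RR P n - En.sing n * n| = ‖((RR P n : ℝ) : ℂ) - ((En.sing n * n : ℝ) : ℂ)‖ := by
      rw [← Complex.ofReal_sub, Complex.norm_real, Real.norm_eq_abs]
    rw [h2]
    calc ‖((RR P n : ℝ) : ℂ) - ((En.sing n * n : ℝ) : ℂ)‖
        ≤ ‖((RR P n : ℝ) : ℂ) - RM P N (N / P ^ 20) n‖ + ‖RM P N (N / P ^ 20) n - ((En.sing n * n : ℝ) : ℂ)‖ :=
          norm_sub_le_norm_sub_add_norm_sub _ _ _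
      _ ≤ ε₁ * (En.sing n * n) + ε₁ * (En.sing n * n) := add_le_add (le_trans hle h1) hpt
      _ = (min ε 1 / 8) * (En.sing n * n) := by rw [hε₁]; ring
  have hfin : ∑ n ∈ (Icc 1 N).filter (fun n : ℕ => Even n ∧ δ * N ≤ n ∧ ε * En.HL n < |(En.r2 n : ℝ) - En.HL n|), w n ≤
      ε := by
    rcases he1 with he1 | he1
    · refine le_trans (sum_le_sum_of_subset_of_nonneg ?_ fun n _ _ => hw n) (le_trans hch (by linarith))
      intro n hn
      rw [mem_filter] at hn ⊢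
      refine ⟨hn.1, ?_⟩
      by_contra hcon
      exact absurd (hgood n hn.1 hn.2.1 hn.2.2.1 (Or.inl he1) (not_lt.1 hcon)) (not_le.2 hn.2.2.2)
    · have heR' : R₁ ≤ e.1 := by
        rcases heR with h | ⟨h1, h2⟩
        · exact absurd h he1.2
        · exact le_trans (le_max_left _ _) h2
      have : NeZero e.1 := ⟨he0⟩
      have hbm := hR₁ N w hw hdivw e.1 heR' (not_sixteen_dvd e.1 e.2 hep he2)
      have hsub : (Icc 1 N).filter (fun n : ℕ => Even n ∧ δ * N ≤ n ∧ ε * En.HL n < |(En.r2 n : ℝ) - En.HL n|) ⊆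
          (Icc 1 N).filter (fun n => η * N < ‖((RR P n : ℝ) : ℂ) - RM P N (N / P ^ 20) n‖) ∪
          (Icc 1 N).filter (fun n => τp < (e.1 : ℝ) * sgm (Nat.gcd e.1 n) / (e.1.totient : ℝ) ^ 2) := by
        intro n hn
        rw [mem_filter] at hn
        rw [mem_union, mem_filter, mem_filter]
        by_contra hcon
        rw [not_or] at hcon
        have a1 : ¬ (η * N < ‖((RR P n : ℝ) : ℂ) - RM P N (N / P ^ 20) n‖) := fun h => hcon.1 ⟨hn.1, h⟩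
        have a2 : ¬ (τp < (e.1 : ℝ) * sgm (Nat.gcd e.1 n) / (e.1.totient : ℝ) ^ 2) := fun h => hcon.2 ⟨hn.1, h⟩
        exact absurd (hgood n hn.1 hn.2.1 hn.2.2.1 (Or.inr (not_lt.1 a2)) (not_lt.1 a1)) (not_le.2 hn.2.2.2)
      calc ∑ n ∈ (Icc 1 N).filter (fun n : ℕ => Even n ∧ δ * N ≤ n ∧ ε * En.HL n < |(En.r2 n : ℝ) - En.HL n|), w n
          ≤ ∑ n ∈ (Icc 1 N).filter (fun n => η * N < ‖((RR P n : ℝ) : ℂ) - RM P N (N / P ^ 20) n‖) ∪
              (Icc 1 N).filter (fun n => τp < (e.1 : ℝ) * sgm (Nat.gcd e.1 n) / (e.1.totient : ℝ) ^ 2), w n :=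
            sum_le_sum_of_subset_of_nonneg hsub fun n _ _ => hw n
        _ ≤ ∑ n ∈ (Icc 1 N).filter (fun n => η * N < ‖((RR P n : ℝ) : ℂ) - RM P N (N / P ^ 20) n‖), w n +
              ∑ n ∈ (Icc 1 N).filter (fun n => τp < (e.1 : ℝ) * sgm (Nat.gcd e.1 n) / (e.1.totient : ℝ) ^ 2), w n := by
            rw [← sum_union_inter]
            exact le_add_of_nonneg_right (sum_nonneg fun n _ => hw n)
        _ ≤ ε / 2 + ε / 2 := add_le_add hch hbm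
        _ = ε := by ring
  have h1 := ww_filter a b s N hmem (fun n => Even n ∧ δ * N ≤ (n : ℝ) ∧ ε * En.HL n < |(En.r2 n : ℝ) - En.HL n|)
  have h2 : (((univ : Finset (ι × ι × κ)).filter (fun t => Even (nn a b s t).toNat ∧
      δ * N ≤ ((nn a b s t).toNat : ℝ) ∧
      ε * En.HL (nn a b s t).toNat < |(En.r2 (nn a b s t).toNat : ℝ) - En.HL (nn a b s t).toNat|)).card : ℝ) /
      ((Fintype.card ι : ℝ) ^ 2 * (Fintype.card κ : ℝ)) ≤ ε := by
    refine le_trans (le_of_eq ?_) hfin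
    refine Eq.trans ?_ (Eq.trans h1.symm ?_)
    · congr!
    · rw [hwdef]
      congr!
  rwa [div_le_iff₀ hcard] at h2

end Pool.Agent.Lib.MP_629a14_nt.Ck
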