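import Pool.Agent.Lib.MP_629a14_nt.Th.Fejer

/-! Copy of a private lemma of `Th/VSup.lean`. -/

set_option autoImplicit false

namespace Pool.Agent.Lib.MP_629a14_nt.Ck

open Finset Pool.Agent.Lib.MP_629a14_nt Pool.Agent.Lib.MP_629a14_nt.Th

private theorem PsiLe_H {N P : ℕ} (hP2 : 2 ≤ P) (hPN : P ^ 100 ≤ N) : P ^ 80 ≤ N / P ^ 20 := by
  rw [Nat.le_div_iff_mul_le (by positivity)]
  calc P ^ 80 * P ^ 20 = P ^ 100 := by ring
    _ ≤ N := hPN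

theorem psi_le {N P : ℕ} (hP2 : 2 ≤ P) (hPN : P ^ 100 ≤ N) (α : ℝ) :
    |1 - Psi P (N / P ^ 20) α| ≤ 1 := by
  have h1 := PsiLe_H hP2 hPN
  have hPpos : 0 < P := by omega
  have hH1 : 1 ≤ N / P ^ 20 := le_trans (Nat.one_le_pow _ _ hPpos) h1
  have h4 : 4 * P ^ 6 ≤ (N / P ^ 20) ^ 2 := by
    calc 4 * P ^ 6 ≤ P ^ 2 * P ^ 6 := by
          have : 4 ≤ P ^ 2 := by nlinarith
          exact Nat.mul_le_mul_right _ this
      _ = P ^ 8 := by ring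
      _ ≤ P ^ 160 := Nat.pow_le_pow_right hPpos (by norm_num)
      _ = (P ^ 80) ^ 2 := by ring
      _ ≤ _ := Nat.pow_le_pow_left h1 2
  have h5 := Psi_le P (N / P ^ 20) hH1 h4 (by omega) α
  have h6 := Psi_nonneg P (N / P ^ 20) α
  rw [abs_le]
  constructor <;> linarith

end Pool.Agent.Lib.MP_629a14_nt.Ck
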