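import Pool.Agent.Lib.MP_629a14_nt.Ratio
import Pool.Agent.Lib.MP_60b32f_nt.JBound
import Pool.Agent.Lib.MP_60b32f_nt.Goldbach

/-! Upper bound for the number of prime pairs with a given difference. -/

set_option autoImplicit false

namespace Pool.Agent.Lib.MP_629a14_nt.Ck

open Finset Pool.Agent.Lib.MP_60b32f_nt Pool.Agent.Lib.MP_629a14_nt

open BoundingSieve

private noncomputable def gd (k X z : ℕ) : BoundingSieve where
  support := (range X).image (fun m => m * (m + k))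
  prodPrimes := bigP k z
  prodPrimes_squarefree := bigP_squarefree k z
  weights := fun v => (((range X).filter (fun m => m * (m + k) = v)).card : ℝ)
  weights_nonneg := fun v => by positivity
  totalMass := X
  nu := tauDiv
  nu_mult := tauDiv_mult
  nu_pos_of_prime := (gs k z).nu_pos_of_prime
  nu_lt_one_of_prime := (gs k z).nu_lt_one_of_prime

private theorem gd_multSum (k X z d : ℕ) : (gd k X z).multSum d =
    (((range X).filter (fun m => d ∣ m * (m + k))).card : ℝ) :=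
  fib_sum (range X) (fun m => m * (m + k)) (fun v => d ∣ v)

private theorem gd_siftedSum (k X z : ℕ) : (gd k X z).siftedSum =
    (((range X).filter (fun m => Nat.Coprime (bigP k z) (m * (m + k)))).card : ℝ) :=
  fib_sum (range X) (fun m => m * (m + k)) (fun v => Nat.Coprime (bigP k z) v)

private theorem SD_fiber_eq {k d : ℕ} (hdn : Nat.Coprime d k) (hd0 : 0 < d) {d1 : ℕ} (hd1 : d1 ∣ d)
    (m : ℕ) :
    (d ∣ m * (m + k) ∧ Nat.gcd d m = d1) ↔ (d1 ∣ m ∧ d / d1 ∣ m + k) := by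
  obtain ⟨d2, rfl⟩ := hd1
  have hd10 : 0 < d1 := Nat.pos_of_mul_pos_right hd0
  have hd20 : 0 < d2 := Nat.pos_of_mul_pos_left hd0
  rw [Nat.mul_div_cancel_left _ hd10]
  constructor
  · rintro ⟨h1, h2⟩
    have h3 : d1 ∣ m := by rw [← h2]; exact Nat.gcd_dvd_right _ _
    refine ⟨h3, ?_⟩
    obtain ⟨m', rfl⟩ := h3
    have h4 : Nat.gcd d2 m' = 1 := by
      rw [Nat.gcd_mul_left] at h2
      exact Nat.eq_of_mul_eq_mul_left hd10 (by rw [h2, mul_one])
    have h5 : d2 ∣ m' * (d1 * m' + k) := by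
      have : d1 * d2 ∣ d1 * (m' * (d1 * m' + k)) := by rw [← mul_assoc]; exact h1
      exact (Nat.mul_dvd_mul_iff_left hd10).1 this
    exact Nat.Coprime.dvd_of_dvd_mul_left h4 h5
  · rintro ⟨h1, h2⟩
    refine ⟨Nat.mul_dvd_mul h1 h2, ?_⟩
    have h3 : Nat.Coprime d2 m := by
      rw [Nat.coprime_iff_gcd_eq_one]
      by_contra h
      obtain ⟨p, hp, hpd⟩ := Nat.exists_prime_and_dvd h
      have hp2 : p ∣ d2 := hpd.trans (Nat.gcd_dvd_left _ _)
      have hpm : p ∣ m := hpd.trans (Nat.gcd_dvd_right _ _)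
      have hpn : p ∣ k := (Nat.dvd_add_right hpm).1 (hp2.trans h2)
      have hpd' : p ∣ d1 * d2 := hp2.mul_left _
      exact hp.one_lt.ne' (Nat.dvd_one.1 (by rw [← hdn]; exact Nat.dvd_gcd hpd' hpn))
    rw [Nat.Coprime.gcd_mul_right_cancel _ h3]
    exact Nat.gcd_eq_left h1

private theorem SD_count_pair (X k d1 d2 : ℕ) (hco : Nat.Coprime d1 d2) (h1 : 0 < d1) (h2 : 0 < d2) :
    |(((range X).filter (fun m => d1 ∣ m ∧ d2 ∣ m + k)).card : ℝ) - (X : ℝ) / (d1 * d2 : ℕ)|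
      ≤ 1 := by
  obtain ⟨c, hc1, hc2⟩ := Nat.chineseRemainder hco 0 ((d2 - 1) * k)
  have hk0 : (d2 - 1) * k + k = d2 * k := by
    obtain ⟨e, rfl⟩ : ∃ e, d2 = e + 1 := ⟨d2 - 1, by omega⟩
    rw [Nat.add_sub_cancel]
    ring
  have h3 : (range X).filter (fun m => d1 ∣ m ∧ d2 ∣ m + k)
      = (range X).filter (fun m => m ≡ c [MOD (d1 * d2)]) := by
    apply filter_congr
    intro m _
    rw [← Nat.modEq_and_modEq_iff_modEq_mul hco]
    have e1 : d1 ∣ m ↔ m ≡ c [MOD d1] := by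
      rw [← Nat.modEq_zero_iff_dvd]
      exact ⟨fun h => h.trans hc1.symm, fun h => h.trans hc1⟩
    have e2 : d2 ∣ m + k ↔ m ≡ c [MOD d2] := by
      have hz : (d2 - 1) * k + k ≡ 0 [MOD d2] := by
        rw [hk0]
        exact (Nat.modEq_zero_iff_dvd).2 (Dvd.intro _ rfl)
      rw [← Nat.modEq_zero_iff_dvd]
      constructor
      · intro h
        have h4 : m + k ≡ (d2 - 1) * k + k [MOD d2] := h.trans hz.symm
        exact (Nat.ModEq.add_right_cancel' k h4).trans hc2.symm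
      · intro h
        have h4 : m ≡ (d2 - 1) * k [MOD d2] := h.trans hc2
        exact (Nat.ModEq.add_right k h4).trans hz
    rw [e1, e2]
  rw [h3]
  exact count_class X (d1 * d2) c (Nat.mul_pos h1 h2)

private theorem SD_rem_bound {k X z d : ℕ} (hd : d ∣ bigP k z) :
    |(gd k X z).rem d| ≤ (d.divisors.card : ℝ) := by
  have hsq : Squarefree d := (bigP_squarefree k z).squarefree_of_dvd hd
  have hd0 : 0 < d := Nat.pos_of_ne_zero hsq.ne_zero
  have hdn : Nat.Coprime d k := (coprime_bigP k z).coprime_dvd_left hd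
  have h1 : ((range X).filter (fun m => d ∣ m * (m + k))).card
      = ∑ d1 ∈ d.divisors, ((range X).filter (fun m => d1 ∣ m ∧ d / d1 ∣ m + k)).card := by
    rw [card_eq_sum_card_fiberwise (f := fun m => Nat.gcd d m) (t := d.divisors)]
    · refine sum_congr rfl fun d1 hd1 => ?_
      rw [filter_filter]
      congr 1
      apply filter_congr
      intro m _
      exact SD_fiber_eq hdn hd0 (Nat.dvd_of_mem_divisors hd1) m
    · intro m _
      rw [mem_coe, Nat.mem_divisors]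
      exact ⟨Nat.gcd_dvd_left _ _, hd0.ne'⟩
  have h2 : (gd k X z).rem d = ∑ d1 ∈ d.divisors,
      ((((range X).filter (fun m => d1 ∣ m ∧ d / d1 ∣ m + k)).card : ℝ) - (X : ℝ) / d) := by
    unfold BoundingSieve.rem
    rw [gd_multSum, h1, sum_sub_distrib, sum_const, nsmul_eq_mul]
    push_cast
    have : (gd k X z).nu d * (gd k X z).totalMass = (d.divisors.card : ℝ) * ((X : ℝ) / d) := by
      change tauDiv d * (X : ℝ) = _
      rw [tauDiv_apply]
      ring
    rw [this]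
  rw [h2]
  refine (abs_sum_le_sum_abs _ _).trans ?_
  calc ∑ d1 ∈ d.divisors,
      |(((range X).filter (fun m => d1 ∣ m ∧ d / d1 ∣ m + k)).card : ℝ) - (X : ℝ) / d|
      ≤ ∑ d1 ∈ d.divisors, (1 : ℝ) := by
        apply sum_le_sum
        intro d1 hd1
        obtain ⟨d2, hd2⟩ := Nat.dvd_of_mem_divisors hd1
        have hd10 : 0 < d1 := Nat.pos_of_mem_divisors hd1
        have hd20 : 0 < d2 := by
          rcases Nat.eq_zero_or_pos d2 with h | h
          · rw [h, mul_zero] at hd2; omega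
          · exact h
        have h3 : d / d1 = d2 := by rw [hd2, Nat.mul_div_cancel_left _ hd10]
        have hco : Nat.Coprime d1 d2 := Nat.coprime_of_squarefree_mul (hd2 ▸ hsq)
        have := SD_count_pair X k d1 d2 hco hd10 hd20
        rw [h3]
        rw [← hd2] at this
        exact this
    _ = (d.divisors.card : ℝ) := by simp

private theorem SD_le_sifted (k X z : ℕ) :
    (((range X).filter (fun m => m.Prime ∧ (m + k).Prime)).card : ℝ) ≤
      (gd k X z).siftedSum + z := by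
  rw [gd_siftedSum]
  have hsub : (range X).filter (fun m => m.Prime ∧ (m + k).Prime) ⊆
      (range X).filter (fun m => Nat.Coprime (bigP k z) (m * (m + k))) ∪ Icc 1 z := by
    intro m hm
    rw [mem_filter, mem_range] at hm
    obtain ⟨hmn, hm1, hm2⟩ := hm
    rw [mem_union]
    by_cases h1 : m ≤ z
    · right
      rw [mem_Icc]; exact ⟨hm1.pos, h1⟩
    left
    rw [mem_filter, mem_range]
    refine ⟨hmn, ?_⟩
    rw [Nat.coprime_iff_gcd_eq_one]
    by_contra h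
    obtain ⟨p, hp, hpd⟩ := Nat.exists_prime_and_dvd h
    have hp1 := (prime_dvd_bigP hp).1 (hpd.trans (Nat.gcd_dvd_left _ _))
    have hp2 : p ≤ z := (mem_Icc.1 (mem_filter.1 hp1).1).2
    rcases hp.dvd_mul.1 (hpd.trans (Nat.gcd_dvd_right _ _)) with h3 | h3
    · have := (Nat.prime_dvd_prime_iff_eq hp hm1).1 h3
      omega
    · have := (Nat.prime_dvd_prime_iff_eq hp hm2).1 h3
      omega
  have h1 := card_le_card hsub
  have h2 : ((range X).filter (fun m => Nat.Coprime (bigP k z) (m * (m + k))) ∪ Icc 1 z).card ≤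
      ((range X).filter (fun m => Nat.Coprime (bigP k z) (m * (m + k)))).card + z := by
    refine (card_union_le _ _).trans ?_
    have h3 : (Icc 1 z).card = z := by simp
    omega
  exact_mod_cast h1.trans h2

private theorem SD_err_le (k X z : ℕ) :
    ∑ d1 ∈ lev (gd k X z) z, ∑ d2 ∈ lev (gd k X z) z,
      ((gd k X z).nu d1)⁻¹ * ((gd k X z).nu d2)⁻¹ * |(gd k X z).rem (d1.lcm d2)| ≤ (z : ℝ) ^ 6 := by
  have hlev : lev (gd k X z) z = lev (gs k z) z := rfl
  rw [hlev]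
  have hterm : ∀ d1 ∈ lev (gs k z) z, ∀ d2 ∈ lev (gs k z) z,
      ((gd k X z).nu d1)⁻¹ * ((gd k X z).nu d2)⁻¹ * |(gd k X z).rem (d1.lcm d2)| ≤ (z : ℝ) ^ 4 := by
    intro d1 h1 d2 h2
    have ha : ((gd k X z).nu d1)⁻¹ ≤ (z : ℝ) := inv_nu_le h1
    have hb : ((gd k X z).nu d2)⁻¹ ≤ (z : ℝ) := inv_nu_le h2
    have hlcm : d1.lcm d2 ∣ bigP k z := Nat.lcm_dvd (mem_lev.1 h1).1 (mem_lev.1 h2).1
    have hr := SD_rem_bound (X := X) hlcm
    have hc : (((d1.lcm d2).divisors.card : ℕ) : ℝ) ≤ (z : ℝ) * z := by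
      have h3 : (d1.lcm d2).divisors.card ≤ d1.lcm d2 := Nat.card_divisors_le_self _
      have h4 : d1.lcm d2 ≤ d1 * d2 := Nat.le_of_dvd (Nat.mul_pos (lev_pos h1) (lev_pos h2))
        (Nat.lcm_dvd_mul _ _)
      have h5 : d1 * d2 ≤ z * z := Nat.mul_le_mul (mem_lev.1 h1).2 (mem_lev.1 h2).2
      exact_mod_cast (h3.trans h4).trans h5
    have hn1 : 0 ≤ ((gd k X z).nu d1)⁻¹ :=
      (inv_pos.2 (nu_pos_of_dvd_prodPrimes (s := gd k X z) (mem_lev.1 h1).1)).le
    have hn2 : 0 ≤ ((gd k X z).nu d2)⁻¹ :=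
      (inv_pos.2 (nu_pos_of_dvd_prodPrimes (s := gd k X z) (mem_lev.1 h2).1)).le
    calc ((gd k X z).nu d1)⁻¹ * ((gd k X z).nu d2)⁻¹ * |(gd k X z).rem (d1.lcm d2)|
        ≤ (z : ℝ) * z * ((z : ℝ) * z) := by
          gcongr
          exact hr.trans hc
      _ = (z : ℝ) ^ 4 := by ring
  calc ∑ d1 ∈ lev (gs k z) z, ∑ d2 ∈ lev (gs k z) z,
      ((gd k X z).nu d1)⁻¹ * ((gd k X z).nu d2)⁻¹ * |(gd k X z).rem (d1.lcm d2)|
      ≤ ∑ d1 ∈ lev (gs k z) z, ∑ d2 ∈ lev (gs k z) z, (z : ℝ) ^ 4 :=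
        sum_le_sum fun d1 h1 => sum_le_sum fun d2 h2 => hterm d1 h1 d2 h2
    _ = ((lev (gs k z) z).card : ℝ) * (((lev (gs k z) z).card : ℝ) * (z : ℝ) ^ 4) := by
        simp [sum_const, nsmul_eq_mul]
    _ ≤ (z : ℝ) * ((z : ℝ) * (z : ℝ) ^ 4) := by
        have : ((lev (gs k z) z).card : ℝ) ≤ z := by exact_mod_cast lev_card k z
        gcongr
    _ = (z : ℝ) ^ 6 := by ring

private theorem SD_le (k X z : ℕ) (hz : 1 ≤ z) :
    (((range X).filter (fun m => m.Prime ∧ (m + k).Prime)).card : ℝ) ≤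
      X * (bigJ (gs k z) z)⁻¹ + (z : ℝ) ^ 6 + z := by
  have h1 := SD_le_sifted k X z
  have h2 := selberg_bound (gd k X z) z hz
  have h3 := SD_err_le k X z
  have h4 : (gd k X z).totalMass = (X : ℝ) := rfl
  have h5 : bigJ (gd k X z) z = bigJ (gs k z) z := rfl
  rw [h4, h5] at h2
  linarith

private theorem SD_bound_w (k X w : ℕ) (hk : 0 < k) (hw : 1 ≤ w) :
    (((range X).filter (fun m => m.Prime ∧ (m + k).Prime)).card : ℝ) ≤
      32 * (sdiv k) ^ 2 * X / (Real.log (w + 1)) ^ 2 + (w : ℝ) ^ 12 + (w : ℝ) ^ 2 := by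
  have h1 := SD_le k X (w * w) (Nat.mul_pos hw hw)
  have h2 := bigJ_lower k w hk
  have hw' : (1 : ℝ) ≤ w := by exact_mod_cast hw
  have hlog : 0 < Real.log (w + 1) := Real.log_pos (by linarith)
  have hJ : 0 < bigJ (gs k (w * w)) (w * w) := bigJ_pos (Nat.mul_pos hw hw)
  have hs := sdiv_pos k hk
  generalize bigJ (gs k (w * w)) (w * w) = J at *
  have h3 : (X : ℝ) * J⁻¹ ≤ 32 * (sdiv k) ^ 2 * X / (Real.log (w + 1)) ^ 2 := by
    rw [le_div_iff₀ (by positivity)]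
    calc (X : ℝ) * J⁻¹ * (Real.log (w + 1)) ^ 2 ≤ (X : ℝ) * J⁻¹ * (32 * (sdiv k) ^ 2 * J) := by
          gcongr
      _ = 32 * (sdiv k) ^ 2 * X := by field_simp
  push_cast at h1
  have h4 : ((w : ℝ) * w) ^ 6 = (w : ℝ) ^ 12 := by ring
  rw [h4] at h1
  have h5 : (w : ℝ) * w = (w : ℝ) ^ 2 := by ring
  rw [h5] at h1
  linarith

private theorem SD_log_sq_le (x : ℝ) (hx : 1 ≤ x) : (Real.log x) ^ 2 ≤ 16 * Real.sqrt x := by
  have h1 : Real.log x ≤ x ^ (1 / 4 : ℝ) / (1 / 4 : ℝ) :=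
    Real.log_le_rpow_div (by linarith) (by norm_num)
  have h2 : 0 ≤ Real.log x := Real.log_nonneg hx
  have h3 : (x ^ (1 / 4 : ℝ)) ^ 2 = Real.sqrt x := by
    rw [Real.sqrt_eq_rpow, ← Real.rpow_natCast, ← Real.rpow_mul (by linarith)]
    norm_num
  calc (Real.log x) ^ 2 ≤ (x ^ (1 / 4 : ℝ) / (1 / 4 : ℝ)) ^ 2 := by gcongr
    _ = 16 * (x ^ (1 / 4 : ℝ)) ^ 2 := by ring
    _ = 16 * Real.sqrt x := by rw [h3]

/-- Proof. Copy `MP_60b32f_nt/Goldbach.lean` with the sifting set `m (m + k)`, `m ∈ Icc 1 X`, in place of `m (n - m)`: the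
sieve `gd k X z` has `prodPrimes = bigP k z`, `nu = tauDiv`, `totalMass = X`, so `bigJ (gd k X z) z = bigJ (gs k z) z`
and `bigJ_lower k w` (with `z = w²`) gives `(log (w+1))² ≤ 32 (sdiv k)² bigJ`. The number of `m ≤ X` in a set of `τ(d)`
residue classes modulo `d` is `X τ(d)/d` up to `τ(d)`, hence as in `err_le`, `rep_le`:
`#{m ≤ X : m, m + k prime} ≤ X / bigJ + z^6 + 2z` (`m` prime `> z` and `m + k > z` prime are coprime to `bigP k z`). Take
`w = ⌊X^{1/24}⌋` (for large `X`; for small `X` the left side is at most `X`), `sdiv k ≤ rt k` (`sdiv_le_rt`),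
`1 ≤ rt k`. -/
theorem pairs_diff : ∃ C : ℝ, 1 ≤ C ∧ ∀ X k : ℕ, 2 ≤ X → 0 < k →
    (((Icc 1 X).filter (fun m => m.Prime ∧ (m + k).Prime)).card : ℝ) ≤
      C * (rt k) ^ 2 * (X / (Real.log X) ^ 2) := by
  refine ⟨18480, by norm_num, ?_⟩
  intro X k hX hk
  have hX' : (2 : ℝ) ≤ X := by exact_mod_cast hX
  have hXpos : (0 : ℝ) < X := by linarith
  set x : ℝ := (X : ℝ) ^ (1 / 24 : ℝ) with hx
  have hx1 : 1 ≤ x := Real.one_le_rpow (by linarith) (by norm_num)
  have hx24 : x ^ 24 = X := by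
    rw [hx, ← Real.rpow_natCast, ← Real.rpow_mul hXpos.le]
    norm_num
  set w : ℕ := ⌊x⌋₊ with hw
  have hw1 : 1 ≤ w := by
    rw [hw, Nat.one_le_floor_iff]
    exact hx1
  have hwx : (w : ℝ) ≤ x := Nat.floor_le (by linarith)
  have hxw : x < w + 1 := Nat.lt_floor_add_one x
  have h1 := SD_bound_w k X w hk hw1
  have hlogn : 0 < Real.log X := Real.log_pos (by linarith)
  have hlogx : Real.log x = (1 / 24) * Real.log X := by rw [hx, Real.log_rpow hXpos]
  have hlogw : (1 / 24) * Real.log X ≤ Real.log (w + 1) := by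
    rw [← hlogx]
    exact Real.log_le_log (by linarith) hxw.le
  have hs := sdiv_pos k hk
  have h2 : 32 * (sdiv k) ^ 2 * X / (Real.log (w + 1)) ^ 2 ≤
      32 * (sdiv k) ^ 2 * X / ((1 / 24) * Real.log X) ^ 2 := by
    gcongr
  have h3 : 32 * (sdiv k) ^ 2 * X / ((1 / 24) * Real.log X) ^ 2 =
      18432 * (sdiv k) ^ 2 * X / (Real.log X) ^ 2 := by
    field_simp
    norm_num
  have hsq : Real.sqrt X = x ^ 12 := by
    rw [← hx24]
    rw [show x ^ 24 = (x ^ 12) ^ 2 by ring]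
    exact Real.sqrt_sq (by positivity)
  have h4 : (w : ℝ) ^ 12 ≤ Real.sqrt X := by
    rw [hsq]; gcongr
  have h5 : (w : ℝ) ^ 2 ≤ Real.sqrt X := by
    rw [hsq]
    calc (w : ℝ) ^ 2 ≤ x ^ 2 := by gcongr
      _ ≤ x ^ 12 := pow_le_pow_right₀ hx1 (by norm_num)
  have h5' : (1 : ℝ) ≤ Real.sqrt X := by
    rw [hsq]
    exact one_le_pow₀ hx1
  have h6 := SD_log_sq_le X (by linarith)
  have h7 : 3 * Real.sqrt X ≤ 48 * (sdiv k) ^ 2 * X / (Real.log X) ^ 2 := by
    rw [le_div_iff₀ (by positivity)]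
    have hs2 : 1 ≤ (sdiv k) ^ 2 := one_le_pow₀ hs
    calc 3 * Real.sqrt X * (Real.log X) ^ 2 ≤ 3 * Real.sqrt X * (16 * Real.sqrt X) := by gcongr
      _ = 48 * 1 * (Real.sqrt X * Real.sqrt X) := by ring
      _ = 48 * 1 * X := by rw [Real.mul_self_sqrt hXpos.le]
      _ ≤ 48 * (sdiv k) ^ 2 * X := by gcongr
  have h9 : (((Icc 1 X).filter (fun m => m.Prime ∧ (m + k).Prime)).card : ℝ) ≤
      (((range X).filter (fun m => m.Prime ∧ (m + k).Prime)).card : ℝ) + 1 := by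
    have hsub : (Icc 1 X).filter (fun m => m.Prime ∧ (m + k).Prime) ⊆
        insert X ((range X).filter (fun m => m.Prime ∧ (m + k).Prime)) := by
      intro m hm
      rw [mem_filter, mem_Icc] at hm
      rw [mem_insert, mem_filter, mem_range]
      by_cases hmX : m = X
      · exact Or.inl hmX
      · exact Or.inr ⟨by omega, hm.2⟩
    have := (card_le_card hsub).trans (card_insert_le _ _)
    exact_mod_cast this
  have h10 : (((Icc 1 X).filter (fun m => m.Prime ∧ (m + k).Prime)).card : ℝ) ≤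
      18480 * (sdiv k) ^ 2 * X / (Real.log X) ^ 2 := by
    have h8 : 18480 * (sdiv k) ^ 2 * X / (Real.log X) ^ 2 =
        18432 * (sdiv k) ^ 2 * X / (Real.log X) ^ 2 + 48 * (sdiv k) ^ 2 * X / (Real.log X) ^ 2 := by
      ring
    rw [h8]
    rw [h3] at h2
    linarith
  refine h10.trans ?_
  rw [mul_div_assoc]
  have h11 : (sdiv k) ^ 2 ≤ (rt k) ^ 2 :=
    pow_le_pow_left₀ (by linarith) (sdiv_le_rt k hk.ne') 2
  have h12 : 0 ≤ (X : ℝ) / (Real.log X) ^ 2 := by positivity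
  exact mul_le_mul_of_nonneg_right (mul_le_mul_of_nonneg_left h11 (by norm_num)) h12

end Pool.Agent.Lib.MP_629a14_nt.Ck
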