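import Pool.Agent.Lib.MP_629a14_nt.Ck.Defs
import Pool.Agent.Lib.MP_629a14_nt.Ck.SieveD
import Pool.Agent.Lib.MP_629a14_nt.Th.Vino2

/-! Bounds for the correlations. -/

set_option autoImplicit false

namespace Pool.Agent.Lib.MP_629a14_nt.Ck

open Finset Pool.Agent.Lib.MP_629a14_nt Pool.Agent.Lib.MP_629a14_nt.Th

private theorem Rho_aPn (P m : ℕ) : 0 ≤ aP P m := by
  unfold aP
  split_ifs with h
  · exact Real.log_nonneg (by exact_mod_cast h.1.one_lt.le)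
  · exact le_refl _

private theorem Rho_aP_le (P N m : ℕ) (hm : m ∈ Icc 1 (2 * N)) :
    aP P m ≤ if m.Prime then Real.log (2 * N) else 0 := by
  rw [mem_Icc] at hm
  have hm1 : (1 : ℝ) ≤ m := by exact_mod_cast hm.1
  have hm2 : (m : ℝ) ≤ 2 * N := by exact_mod_cast hm.2
  have h3 : Real.log m ≤ Real.log (2 * N) := Real.log_le_log (by linarith) hm2
  have h4 : 0 ≤ Real.log m := Real.log_nonneg hm1
  unfold aP
  by_cases h : m.Prime
  · rw [if_pos h]
    split_ifs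
    · exact h3
    · exact h4.trans h3
  · rw [if_neg h, if_neg (fun h' => h h'.1)]

theorem rho_nonneg (P N k : ℕ) : 0 ≤ rho P N k := by
  unfold rho
  refine sum_nonneg fun m _ => ?_
  split_ifs
  · exact mul_nonneg (Rho_aPn P m) (Rho_aPn P (m + k))
  · exact le_refl _

/-- `rho P N 0 ≤ log(2N) θ(2N)` and Chebyshev's bound. -/
theorem rho_zero : ∃ C : ℝ, 1 ≤ C ∧ ∀ P N : ℕ, 3 ≤ N → rho P N 0 ≤ C * N * Real.log N := by
  refine ⟨8, by norm_num, fun P N hN => ?_⟩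
  have h1 : rho P N 0 ≤ ∑ m ∈ Icc 1 (2 * N), aP P m ^ 2 := by
    unfold rho
    refine sum_le_sum fun m hm => ?_
    rw [add_zero, if_pos hm, pow_two]
  have h2 := sum_aP_sq_le P N
  have hN3 : (3 : ℝ) ≤ N := by exact_mod_cast hN
  have hN0 : (0 : ℝ) < N := by linarith
  have h3 : Real.log (2 * N) ≤ 2 * Real.log N := by
    rw [Real.log_mul (by norm_num) hN0.ne']
    have : Real.log 2 ≤ Real.log N := Real.log_le_log (by norm_num) (by linarith)
    linarith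
  calc rho P N 0 ≤ 4 * N * Real.log (2 * N) := le_trans h1 h2
    _ ≤ 4 * N * (2 * Real.log N) := by gcongr
    _ = 8 * N * Real.log N := by ring

/-- `rho P N k ≤ (log (2N))² #{m ≤ 2N : m, m + k prime}` and `pairs_diff`. -/
theorem rho_pos : ∃ C : ℝ, 1 ≤ C ∧ ∀ P N k : ℕ, 3 ≤ N → 0 < k → rho P N k ≤ C * (rt k) ^ 2 * N := by
  obtain ⟨C, hC, h⟩ := pairs_diff
  refine ⟨2 * C, by linarith, fun P N k hN hk => ?_⟩
  have hN3 : (3 : ℝ) ≤ N := by exact_mod_cast hN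
  have hl : 0 < Real.log (2 * N) := Real.log_pos (by linarith)
  have h1 : rho P N k ≤ Real.log (2 * N) ^ 2 *
      (((Icc 1 (2 * N)).filter (fun p => p.Prime ∧ (p + k).Prime)).card : ℝ) := by
    unfold rho
    rw [card_filter]
    push_cast
    rw [mul_sum]
    refine sum_le_sum fun q hq => ?_
    have hnn : 0 ≤ Real.log (2 * N) ^ 2 * (if q.Prime ∧ (q + k).Prime then (1 : ℝ) else 0) := by
      split_ifs <;> positivity
    split_ifs with h3 h4 h4
    · have e1 := Rho_aP_le P N q hq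
      have e2 := Rho_aP_le P N (q + k) h3
      rw [if_pos h4.1] at e1
      rw [if_pos h4.2] at e2
      rw [mul_one, pow_two]
      exact mul_le_mul e1 e2 (Rho_aPn _ _) hl.le
    · rw [mul_zero]
      have e1 := Rho_aP_le P N q hq
      have e2 := Rho_aP_le P N (q + k) h3
      rw [not_and_or] at h4
      rcases h4 with h4 | h4
      · rw [if_neg h4] at e1
        have : aP P q = 0 := le_antisymm e1 (Rho_aPn _ _)
        rw [this, zero_mul]
      · rw [if_neg h4] at e2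
        have : aP P (q + k) = 0 := le_antisymm e2 (Rho_aPn _ _)
        rw [this, mul_zero]
    · positivity
    · simp
  have h2 := h (2 * N) k (by omega) hk
  push_cast at h2
  calc rho P N k ≤ Real.log (2 * N) ^ 2 *
      (((Icc 1 (2 * N)).filter (fun p => p.Prime ∧ (p + k).Prime)).card : ℝ) := h1
    _ ≤ Real.log (2 * N) ^ 2 * (C * (rt k) ^ 2 * (2 * N / (Real.log (2 * N)) ^ 2)) := by gcongr
    _ = 2 * C * (rt k) ^ 2 * N := by field_simp

open Classical in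
/-- Proof. `rho_zero` for the pairs with `a i = a i'`, `rho_pos` for the others. -/
theorem rho_sum : ∃ C : ℝ, 1 ≤ C ∧ ∀ P N : ℕ, 3 ≤ N → ∀ (ι : Type) [Fintype ι] (a : ι → ℤ) (K : ℝ),
    (((univ : Finset (ι × ι)).filter (fun t => a t.1 = a t.2)).card : ℝ) * (Real.log N) ^ 2 ≤
      K * (Fintype.card ι : ℝ) ^ 2 →
    ∑ t ∈ (univ : Finset (ι × ι)).filter (fun t => a t.1 ≠ a t.2), (rt (a t.1 - a t.2).natAbs) ^ 4 ≤
      K * (Fintype.card ι : ℝ) ^ 2 →
    ∑ i, ∑ i', rho P N (a i - a i').natAbs ^ 2 ≤ C * K * (N : ℝ) ^ 2 * (Fintype.card ι : ℝ) ^ 2 := by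
  obtain ⟨C1, hC1, h1⟩ := rho_zero
  obtain ⟨C2, hC2, h2⟩ := rho_pos
  refine ⟨C1 ^ 2 + C2 ^ 2, by nlinarith, fun P N hN ι _ a K hK1 hK2 => ?_⟩
  have hsplit : ∑ i, ∑ i', rho P N (a i - a i').natAbs ^ 2 =
      ∑ t ∈ (univ : Finset (ι × ι)).filter (fun t => a t.1 = a t.2), rho P N (a t.1 - a t.2).natAbs ^ 2 +
      ∑ t ∈ (univ : Finset (ι × ι)).filter (fun t => a t.1 ≠ a t.2), rho P N (a t.1 - a t.2).natAbs ^ 2 := by
    rw [sum_filter_add_sum_filter_not, Fintype.sum_prod_type]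
  have hA : ∑ t ∈ (univ : Finset (ι × ι)).filter (fun t => a t.1 = a t.2), rho P N (a t.1 - a t.2).natAbs ^ 2 ≤
      C1 ^ 2 * (N : ℝ) ^ 2 * (K * (Fintype.card ι : ℝ) ^ 2) := by
    calc ∑ t ∈ (univ : Finset (ι × ι)).filter (fun t => a t.1 = a t.2), rho P N (a t.1 - a t.2).natAbs ^ 2
        ≤ ∑ _t ∈ (univ : Finset (ι × ι)).filter (fun t => a t.1 = a t.2), (C1 * N * Real.log N) ^ 2 := by
          refine sum_le_sum fun t ht => ?_
          rw [mem_filter] at ht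
          rw [ht.2, sub_self, Int.natAbs_zero]
          exact pow_le_pow_left₀ (rho_nonneg P N 0) (h1 P N hN) 2
      _ = C1 ^ 2 * (N : ℝ) ^ 2 *
          ((((univ : Finset (ι × ι)).filter (fun t => a t.1 = a t.2)).card : ℝ) * (Real.log N) ^ 2) := by
          rw [sum_const, nsmul_eq_mul]; ring
      _ ≤ _ := by gcongr
  have hB : ∑ t ∈ (univ : Finset (ι × ι)).filter (fun t => a t.1 ≠ a t.2), rho P N (a t.1 - a t.2).natAbs ^ 2 ≤
      C2 ^ 2 * (N : ℝ) ^ 2 * (K * (Fintype.card ι : ℝ) ^ 2) := by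
    calc ∑ t ∈ (univ : Finset (ι × ι)).filter (fun t => a t.1 ≠ a t.2), rho P N (a t.1 - a t.2).natAbs ^ 2
        ≤ ∑ t ∈ (univ : Finset (ι × ι)).filter (fun t => a t.1 ≠ a t.2),
            C2 ^ 2 * (N : ℝ) ^ 2 * (rt (a t.1 - a t.2).natAbs) ^ 4 := by
          refine sum_le_sum fun t ht => ?_
          rw [mem_filter] at ht
          have hpos : 0 < (a t.1 - a t.2).natAbs := Int.natAbs_pos.2 (sub_ne_zero.2 ht.2)
          calc rho P N (a t.1 - a t.2).natAbs ^ 2 ≤ (C2 * (rt (a t.1 - a t.2).natAbs) ^ 2 * N) ^ 2 :=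
                pow_le_pow_left₀ (rho_nonneg P N _) (h2 P N _ hN hpos) 2
            _ = C2 ^ 2 * (N : ℝ) ^ 2 * (rt (a t.1 - a t.2).natAbs) ^ 4 := by ring
      _ = C2 ^ 2 * (N : ℝ) ^ 2 *
          ∑ t ∈ (univ : Finset (ι × ι)).filter (fun t => a t.1 ≠ a t.2), (rt (a t.1 - a t.2).natAbs) ^ 4 := by
          rw [mul_sum]
      _ ≤ _ := by gcongr
  rw [hsplit]
  calc _ ≤ C1 ^ 2 * (N : ℝ) ^ 2 * (K * (Fintype.card ι : ℝ) ^ 2) +
        C2 ^ 2 * (N : ℝ) ^ 2 * (K * (Fintype.card ι : ℝ) ^ 2) := add_le_add hA hB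
    _ = (C1 ^ 2 + C2 ^ 2) * K * (N : ℝ) ^ 2 * (Fintype.card ι : ℝ) ^ 2 := by ring

end Pool.Agent.Lib.MP_629a14_nt.Ck
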