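import Pool.Agent.Lib.MP_629a14_nt.Ck.Defs
import Pool.Agent.Lib.MP_629a14_nt.Th.TT

/-! The mean square over a family whose Fourier transform is at most `A B`: Gallagher's device. -/

set_option autoImplicit false

namespace Pool.Agent.Lib.MP_629a14_nt.Ck

open Finset Pool.Agent.Lib.MP_629a14_nt Pool.Agent.Lib.MP_629a14_nt.Th

private lemma split_conj_ee (t : ℝ) : (starRingEnd ℂ) (ee t) = ee (-t) := by
  unfold ee
  rw [← Complex.exp_conj]
  congr 1
  have h2 : (starRingEnd ℂ) 2 = 2 := map_ofNat _ 2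
  simp [Complex.conj_ofReal, h2]

private lemma split_key (M N : ℕ) (V : ℕ → ℂ) (w : ℕ → ℝ) (n : ℕ) :
    ((w n * ‖(1 / (M : ℂ)) * ∑ h ∈ range M, V h * ee (-(n * (h / M)))‖ ^ 2 : ℝ) : ℂ) =
      (1 / (M : ℂ) ^ 2) * ∑ h ∈ range M, ∑ h' ∈ range M,
        V h * (starRingEnd ℂ) (V h') * ((w n : ℂ) * ee (n * (((h' : ℝ) - h) / M))) := by
  set S := ∑ h ∈ range M, V h * ee (-((n : ℝ) * ((h : ℝ) / M))) with hS
  have h1 : ((‖(1 / (M : ℂ)) * S‖ ^ 2 : ℝ) : ℂ) =
      (1 / (M : ℂ) ^ 2) * (S * (starRingEnd ℂ) S) := by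
    rw [← Complex.normSq_eq_norm_sq, ← Complex.mul_conj]
    simp only [map_mul, map_div₀, map_one, map_natCast]
    ring
  rw [Complex.ofReal_mul, h1]
  have h2 : S * (starRingEnd ℂ) S = ∑ h ∈ range M, ∑ h' ∈ range M,
      V h * (starRingEnd ℂ) (V h') * ee (n * (((h' : ℝ) - h) / M)) := by
    rw [hS, map_sum, Finset.sum_mul_sum]
    refine Finset.sum_congr rfl fun h _ => Finset.sum_congr rfl fun h' _ => ?_
    rw [map_mul, split_conj_ee, neg_neg]
    have : (n : ℝ) * (((h' : ℝ) - h) / M) = -(n * (h / M)) + n * (h' / M) := by ring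
    rw [this, ee_add]
    ring
  rw [h2, ← mul_assoc, mul_comm (w n : ℂ), mul_assoc, Finset.mul_sum]
  congr 1
  refine Finset.sum_congr rfl fun h _ => ?_
  rw [Finset.mul_sum]
  refine Finset.sum_congr rfl fun h' _ => ?_
  ring

/-- Proof (compare `Th.tt`, copy its private lemmas). The left side is
`(1/M²) ∑_{h,h'} V_h conj(V_{h'}) WW((h'-h)/M)`. For the pairs with `B((h'-h)/M) ≤ κ` use
`‖V_h‖ ‖V_{h'}‖ A B ≤ κ U_h U_{h'} A` and extend the sum to all pairs; for the others use `A ≤ 1`, `B ≤ 1`, `‖V_{h'}‖ ≤ b`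
and that for fixed `h` the number of such `h'` is the number of `g ∈ range M` with `κ < B(g/M)` (`g = h' - h mod M`,
periodicity of `B`). -/
theorem tt2 (M N : ℕ) (hM : 1 ≤ M) (V : ℕ → ℂ) (U : ℕ → ℝ) (w : ℕ → ℝ) (hw : ∀ n, 0 ≤ w n) (A B : ℝ → ℝ)
    (hA : ∀ x, 0 ≤ A x ∧ A x ≤ 1) (hB : ∀ x, 0 ≤ B x ∧ B x ≤ 1) (hper : ∀ (x : ℝ) (k : ℤ), B (x + k) = B x)
    (hW : ∀ x, ‖WW w N x‖ ≤ A x * B x) (κ b : ℝ) (hκ : 0 ≤ κ) (hb : ∀ h ∈ range M, ‖V h‖ ≤ b)
    (hU : ∀ h ∈ range M, ‖V h‖ ≤ U h) :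
    ∑ n ∈ Icc 1 N, w n * ‖(1 / (M : ℂ)) * ∑ h ∈ range M, V h * ee (-(n * (h / M)))‖ ^ 2 ≤
      (1 / (M : ℝ) ^ 2) * (κ * ∑ h ∈ range M, ∑ h' ∈ range M, U h * U h' * A (((h' : ℝ) - h) / M) +
        b * (∑ h ∈ range M, ‖V h‖) *
          ((range M).filter (fun h : ℕ => κ < B ((h : ℝ) / M))).card) := by
  have hMp : (0 : ℝ) < M := by exact_mod_cast hM
  have hb0 : 0 ≤ b := (norm_nonneg _).trans (hb 0 (Finset.mem_range.2 hM))
  set C := ((range M).filter (fun h : ℕ => κ < B ((h : ℝ) / M))).card with hC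
  have e1 : ((∑ n ∈ Icc 1 N, w n * ‖(1 / (M : ℂ)) * ∑ h ∈ range M, V h * ee (-(n * (h / M)))‖ ^ 2 : ℝ) : ℂ)
      = (1 / (M : ℂ) ^ 2) * ∑ h ∈ range M, ∑ h' ∈ range M,
        V h * (starRingEnd ℂ) (V h') * WW w N (((h' : ℝ) - h) / M) := by
    rw [Complex.ofReal_sum]
    rw [Finset.sum_congr rfl fun n _ => split_key M N V w n]
    rw [← Finset.mul_sum]
    congr 1
    rw [Finset.sum_comm]
    refine Finset.sum_congr rfl fun h _ => ?_
    rw [Finset.sum_comm]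
    refine Finset.sum_congr rfl fun h' _ => ?_
    rw [← Finset.mul_sum]
    rfl
  have e2 : (∑ n ∈ Icc 1 N, w n * ‖(1 / (M : ℂ)) * ∑ h ∈ range M, V h * ee (-(n * (h / M)))‖ ^ 2 : ℝ)
      ≤ (1 / (M : ℝ) ^ 2) * ∑ h ∈ range M, ∑ h' ∈ range M,
        ‖V h‖ * ‖V h'‖ * ‖WW w N (((h' : ℝ) - h) / M)‖ := by
    have : (∑ n ∈ Icc 1 N, w n * ‖(1 / (M : ℂ)) * ∑ h ∈ range M, V h * ee (-(n * (h / M)))‖ ^ 2 : ℝ)
      ≤ ‖((∑ n ∈ Icc 1 N, w n * ‖(1 / (M : ℂ)) * ∑ h ∈ range M, V h * ee (-(n * (h / M)))‖ ^ 2 : ℝ) : ℂ)‖ := by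
      rw [Complex.norm_real]
      exact Real.le_norm_self _
    refine this.trans ?_
    rw [e1, norm_mul]
    have hn : ‖(1 / (M : ℂ) ^ 2)‖ = 1 / (M : ℝ) ^ 2 := by
      rw [norm_div, norm_one, norm_pow, Complex.norm_natCast]
    rw [hn]
    refine mul_le_mul_of_nonneg_left ?_ (by positivity)
    refine (norm_sum_le _ _).trans (Finset.sum_le_sum fun h _ => ?_)
    refine (norm_sum_le _ _).trans (Finset.sum_le_sum fun h' _ => ?_)
    rw [norm_mul, norm_mul, RCLike.norm_conj]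
  refine e2.trans (mul_le_mul_of_nonneg_left ?_ (by positivity))
  let f : ℕ → ℕ → ℕ := fun h h' => if h ≤ h' then h' - h else h' + M - h
  have hf1 : ∀ h ∈ range M, ∀ h' ∈ range M, f h h' ∈ range M := by
    intro h hh h' hh'
    simp only [Finset.mem_range] at hh hh' ⊢
    simp only [f]
    split_ifs <;> omega
  have hf2 : ∀ h ∈ range M, ∀ a ∈ range M, ∀ b ∈ range M, f h a = f h b → a = b := by
    intro h hh a ha b hb' hab
    simp only [Finset.mem_range] at hh ha hb'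
    simp only [f] at hab
    split_ifs at hab <;> omega
  have hf3 : ∀ h ∈ range M, ∀ h' ∈ range M, B (((h' : ℝ) - h) / M) = B ((f h h' : ℕ) / M) := by
    intro h hh h' hh'
    simp only [Finset.mem_range] at hh hh'
    simp only [f]
    split_ifs with hle
    · rw [Nat.cast_sub hle]
    · have hle' : h ≤ h' + M := by omega
      rw [Nat.cast_sub hle', Nat.cast_add]
      rw [← hper (((h' : ℝ) - h) / M) 1]
      congr 1
      push_cast
      field_simp
      ring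
  have main : ∀ h ∈ range M, ∑ h' ∈ range M, ‖V h‖ * ‖V h'‖ * ‖WW w N (((h' : ℝ) - h) / M)‖ ≤
      κ * (∑ h' ∈ range M, U h * U h' * A (((h' : ℝ) - h) / M)) + ‖V h‖ * (b * C) := by
    intro h hh
    have hp : ∀ h' ∈ range M, ‖V h‖ * ‖V h'‖ * ‖WW w N (((h' : ℝ) - h) / M)‖ ≤
        κ * (U h * U h' * A (((h' : ℝ) - h) / M)) +
          ‖V h‖ * (b * (if κ < B ((f h h' : ℕ) / M) then 1 else 0)) := by
      intro h' hh'
      have hWx := hW (((h' : ℝ) - h) / M)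
      have hAx := hA (((h' : ℝ) - h) / M)
      have hBx := hB (((h' : ℝ) - h) / M)
      have hUh := hU h hh
      have hUh' := hU h' hh'
      have n1 := norm_nonneg (V h)
      have n2 := norm_nonneg (V h')
      have n3 := norm_nonneg (WW w N (((h' : ℝ) - h) / M))
      have hU0 : 0 ≤ U h := n1.trans hUh
      have hU0' : 0 ≤ U h' := n2.trans hUh'
      have hT : 0 ≤ κ * (U h * U h' * A (((h' : ℝ) - h) / M)) :=
        mul_nonneg hκ (mul_nonneg (mul_nonneg hU0 hU0') hAx.1)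
      have hBeq := hf3 h hh h' hh'
      split_ifs with hc
      · have h1 : ‖WW w N (((h' : ℝ) - h) / M)‖ ≤ 1 :=
          hWx.trans (by nlinarith [mul_le_mul hAx.2 hBx.2 hBx.1 zero_le_one])
        have h2 := hb h' hh'
        have h3 : ‖V h'‖ * ‖WW w N (((h' : ℝ) - h) / M)‖ ≤ b * 1 :=
          mul_le_mul h2 h1 n3 hb0
        have h4 := mul_le_mul_of_nonneg_left h3 n1
        rw [mul_assoc]
        linarith
      · push Not at hc
        rw [← hBeq] at hc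
        rw [mul_zero, mul_zero, add_zero]
        have h1 : ‖WW w N (((h' : ℝ) - h) / M)‖ ≤ A (((h' : ℝ) - h) / M) * κ :=
          hWx.trans (mul_le_mul_of_nonneg_left hc hAx.1)
        have h2 : ‖V h‖ * ‖V h'‖ ≤ U h * U h' := mul_le_mul hUh hUh' n2 hU0
        have h3 := mul_le_mul h2 h1 n3 (mul_nonneg hU0 hU0')
        linarith
    refine (Finset.sum_le_sum hp).trans ?_
    rw [Finset.sum_add_distrib, ← Finset.mul_sum, ← Finset.mul_sum, ← Finset.mul_sum]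
    have hcard : (∑ h' ∈ range M, (if κ < B ((f h h' : ℕ) / M) then (1 : ℝ) else 0)) ≤ C := by
      rw [Finset.sum_ite, Finset.sum_const_zero, add_zero, Finset.sum_const, nsmul_eq_mul, mul_one]
      have : ((range M).filter (fun h' : ℕ => κ < B ((f h h' : ℕ) / M))).card ≤ C := by
        rw [hC]
        refine Finset.card_le_card_of_injOn (fun h' => f h h') ?_ ?_
        · intro h' hh'
          simp only [Finset.coe_filter, Set.mem_setOf_eq] at hh' ⊢
          exact ⟨hf1 h hh h' hh'.1, hh'.2⟩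
        · intro a ha b' hb' hab
          simp only [Finset.coe_filter, Set.mem_setOf_eq] at ha hb'
          exact hf2 h hh a ha.1 b' hb'.1 hab
      exact_mod_cast this
    have := mul_le_mul_of_nonneg_left (mul_le_mul_of_nonneg_left hcard hb0) (norm_nonneg (V h))
    linarith
  calc ∑ h ∈ range M, ∑ h' ∈ range M, ‖V h‖ * ‖V h'‖ * ‖WW w N (((h' : ℝ) - h) / M)‖
      ≤ ∑ h ∈ range M, (κ * (∑ h' ∈ range M, U h * U h' * A (((h' : ℝ) - h) / M)) + ‖V h‖ * (b * C)) :=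
        Finset.sum_le_sum main
    _ = κ * ∑ h ∈ range M, ∑ h' ∈ range M, U h * U h' * A (((h' : ℝ) - h) / M) +
        b * (∑ h ∈ range M, ‖V h‖) * C := by
        rw [Finset.sum_add_distrib, ← Finset.mul_sum, ← Finset.sum_mul]
        ring


end Pool.Agent.Lib.MP_629a14_nt.Ck
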