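import Pool.Agent.Lib.MP_629a14_nt.Ck.Weight
import Pool.Agent.Lib.MP_629a14_nt.Ck.Split
import Pool.Agent.Lib.MP_629a14_nt.Ck.Corr
import Pool.Agent.Lib.MP_629a14_nt.Ck.Rho
import Pool.Agent.Lib.MP_629a14_nt.Ck.PsiLe

/-! The mean square of the minor arcs over the family. -/

set_option autoImplicit false

namespace Pool.Agent.Lib.MP_629a14_nt.Ck

open Finset Pool.Agent.Lib.MP_629a14_nt Pool.Agent.Lib.MP_629a14_nt.Th MeasureTheory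

open Classical in
theorem meansq : ∃ C : ℝ, 1 ≤ C ∧ ∀ (N P : ℕ) (ι κ : Type) [Fintype ι] [Fintype κ] [Nonempty ι] [Nonempty κ]
    (a : ι → ℤ) (b : κ → ℤ) (s : ℤ) (K τ μ : ℝ), 3 ≤ N → 2 ≤ P → P ^ 100 ≤ N → 0 < τ → τ ≤ 1 → 0 ≤ μ →
    (∀ t, 1 ≤ nn a b s t ∧ nn a b s t ≤ N) →
    (((univ : Finset (ι × ι)).filter (fun t => a t.1 = a t.2)).card : ℝ) * (Real.log N) ^ 2 ≤
      K * (Fintype.card ι : ℝ) ^ 2 →
    ∑ t ∈ (univ : Finset (ι × ι)).filter (fun t => a t.1 ≠ a t.2), (rt (a t.1 - a t.2).natAbs) ^ 4 ≤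
      K * (Fintype.card ι : ℝ) ^ 2 →
    volume {α : ℝ | α ∈ Set.Icc (0 : ℝ) 1 ∧ τ ≤ ‖MM b α‖} ≤ ENNReal.ofReal μ →
    (∀ α : ℝ, ‖SS P N α‖ ^ 2 * |1 - Psi P (N / P ^ 20) α| ≤ (N : ℝ) ^ 2 / Real.sqrt P) →
    ∑ h ∈ range (8 * N), ‖SS P N ((h : ℝ) / (8 * N : ℕ))‖ ^ 2 *
      |1 - Psi P (N / P ^ 20) ((h : ℝ) / (8 * N : ℕ))| ≤ 128 * (N : ℝ) ^ 2 * Real.log N →
    ∑ n ∈ Icc 1 N, ww a b s n * ‖((RR P n : ℝ) : ℂ) - RM P N (N / P ^ 20) n‖ ^ 2 ≤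
      (C * K * τ + 2 * Real.log N * (8 * N * μ / τ + 1) / Real.sqrt P) * (N : ℝ) ^ 2 := by
  obtain ⟨C, hC1, hC⟩ := rho_sum
  refine ⟨2 * C, by linarith, ?_⟩
  intro N P ι κ _ _ _ _ a b s K τ μ hN hP hPN hτ hτ1 hμ hmem hdiag hrt hvol hV hS
  have hN1 : 1 ≤ N := by omega
  have hNpos : (0 : ℝ) < N := by exact_mod_cast (by omega : 0 < N)
  have hPpow : 0 < P ^ 20 := by positivity
  have hP1 : 1 ≤ P := by omega
  have hP20 : P ^ 20 ≤ N := le_trans (Nat.pow_le_pow_right hP1 (by norm_num)) hPN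
  have hH1 : 1 ≤ N / P ^ 20 := (Nat.one_le_div_iff hPpow).2 hP20
  have hHN : N / P ^ 20 ≤ N := Nat.div_le_self _ _
  obtain ⟨i₀⟩ := ‹Nonempty ι›
  obtain ⟨j₀⟩ := ‹Nonempty κ›
  haveI : Nonempty ι := ⟨i₀⟩
  haveI : Nonempty κ := ⟨j₀⟩
  have hι : (0 : ℝ) < Fintype.card ι := by exact_mod_cast Fintype.card_pos
  -- differences
  have hdiff : ∀ i i', |a i - a i'| ≤ (N : ℤ) := by
    intro i i'
    have h1 := hmem (i, i', j₀)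
    have h2 := hmem (i', i', j₀)
    unfold nn at h1 h2
    simp only at h1 h2
    rw [abs_le]
    constructor <;> linarith [h1.1, h1.2, h2.1, h2.2]
  set V : ℕ → ℂ := fun h => SS P N ((h : ℝ) / (8 * N : ℕ)) ^ 2 *
    (1 - (Psi P (N / P ^ 20) ((h : ℝ) / (8 * N : ℕ)) : ℂ)) with hVdef
  have hVn : ∀ h : ℕ, ‖V h‖ = ‖SS P N ((h : ℝ) / (8 * N : ℕ))‖ ^ 2 *
      |1 - Psi P (N / P ^ 20) ((h : ℝ) / (8 * N : ℕ))| := by
    intro h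
    rw [hVdef]
    simp only
    rw [norm_mul, norm_pow]
    congr 1
    rw [← Complex.ofReal_one, ← Complex.ofReal_sub, Complex.norm_real, Real.norm_eq_abs]
  have hVU : ∀ h ∈ range (8 * N), ‖V h‖ ≤ ‖SS P N ((h : ℝ) / (8 * N : ℕ))‖ ^ 2 := by
    intro h _
    rw [hVn]
    exact mul_le_of_le_one_right (by positivity) (psi_le hP hPN _)
  have key := tt2 (8 * N) N (by omega) V (fun h => ‖SS P N ((h : ℝ) / (8 * N : ℕ))‖ ^ 2) (ww a b s)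
    (ww_nonneg a b s) (fun x => ‖MM a x‖ ^ 2) (fun x => ‖MM b x‖)
    (fun x => ⟨by positivity, pow_le_one₀ (norm_nonneg _) (MM_le_one a x)⟩)
    (fun x => ⟨norm_nonneg _, MM_le_one b x⟩) (fun x k => by rw [MM_add_int])
    (fun x => (WW_ww a b s N hmem x).le) (2 * τ) ((N : ℝ) ^ 2 / Real.sqrt P) (by positivity)
    (fun h _ => by rw [hVn]; exact hV _) hVU
  have hlhs : ∑ n ∈ Icc 1 N, ww a b s n * ‖((RR P n : ℝ) : ℂ) - RM P N (N / P ^ 20) n‖ ^ 2 =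
      ∑ n ∈ Icc 1 N, ww a b s n * ‖(1 / ((8 * N : ℕ) : ℂ)) *
        ∑ h ∈ range (8 * N), V h * ee (-(n * ((h : ℝ) / (8 * N : ℕ))))‖ ^ 2 := by
    refine sum_congr rfl fun n hn => ?_
    rw [mem_Icc] at hn
    rw [ident P N (N / P ^ 20) n hH1 hHN hn.1 hn.2]
  rw [hlhs]
  refine le_trans key ?_
  have hSS : ∑ h ∈ range (8 * N), ‖V h‖ ≤ 128 * (N : ℝ) ^ 2 * Real.log N := by
    refine le_trans (le_of_eq ?_) hS
    exact sum_congr rfl fun h _ => hVn h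
  have hSS0 : 0 ≤ ∑ h ∈ range (8 * N), ‖V h‖ := sum_nonneg fun _ _ => norm_nonneg _
  have hcnt := spec_count_MM b (s + a i₀ + a i₀) N hN1 (fun j => hmem (i₀, i₀, j)) τ μ hτ hτ1 hμ hvol
  set cnt : ℝ := (((range (8 * N)).filter (fun h : ℕ => 2 * τ < ‖MM b ((h : ℝ) / (8 * N : ℕ))‖)).card : ℝ)
    with hcntd
  have hcnt0 : 0 ≤ cnt := Nat.cast_nonneg _
  have hen := energy_id P N hN1 a hdiff
  have hrho := hC P N hN ι a K hdiag hrt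
  set E : ℝ := ∑ h ∈ range (8 * N), ∑ h' ∈ range (8 * N),
      ‖SS P N ((h : ℝ) / (8 * N : ℕ))‖ ^ 2 * ‖SS P N ((h' : ℝ) / (8 * N : ℕ))‖ ^ 2 *
        ‖MM a (((h' : ℝ) - h) / (8 * N : ℕ))‖ ^ 2 with hE
  have hE1 : (1 / ((8 * N : ℕ) : ℝ) ^ 2) * E ≤ C * K * (N : ℝ) ^ 2 := by
    rw [hen, div_le_iff₀ (by positivity)]
    exact hrho
  have hsP : 0 < Real.sqrt P := Real.sqrt_pos.2 (by exact_mod_cast (by omega : 0 < P))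
  have hlog : 0 ≤ Real.log N := Real.log_natCast_nonneg N
  have hcb : 0 ≤ 8 * N * μ / τ + 1 := by positivity
  have t2 : (N : ℝ) ^ 2 / Real.sqrt P * (∑ h ∈ range (8 * N), ‖V h‖) * cnt ≤
      (N : ℝ) ^ 2 / Real.sqrt P * (128 * (N : ℝ) ^ 2 * Real.log N) * (8 * N * μ / τ + 1) := by gcongr
  have t4 : (1 / ((8 * N : ℕ) : ℝ) ^ 2) * ((N : ℝ) ^ 2 / Real.sqrt P * (128 * (N : ℝ) ^ 2 * Real.log N) *
      (8 * N * μ / τ + 1)) = (2 * Real.log N * (8 * N * μ / τ + 1) / Real.sqrt P) * (N : ℝ) ^ 2 := by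
    push_cast
    field_simp
    ring
  calc (1 / ((8 * N : ℕ) : ℝ) ^ 2) * (2 * τ * E + (N : ℝ) ^ 2 / Real.sqrt P * (∑ h ∈ range (8 * N), ‖V h‖) * cnt)
      = 2 * τ * ((1 / ((8 * N : ℕ) : ℝ) ^ 2) * E) +
        (1 / ((8 * N : ℕ) : ℝ) ^ 2) * ((N : ℝ) ^ 2 / Real.sqrt P * (∑ h ∈ range (8 * N), ‖V h‖) * cnt) := by ring
    _ ≤ 2 * τ * (C * K * (N : ℝ) ^ 2) + (1 / ((8 * N : ℕ) : ℝ) ^ 2) * ((N : ℝ) ^ 2 / Real.sqrt P *
        (128 * (N : ℝ) ^ 2 * Real.log N) * (8 * N * μ / τ + 1)) := by gcongr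
    _ = _ := by rw [t4]; ring

end Pool.Agent.Lib.MP_629a14_nt.Ck
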