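import Pool.Agent.Lib.MP_629a14_nt.Ratio
import Pool.Agent.Lib.MP_629a14_nt.PrimeRecip

/-! Romanoff: the reciprocals of the primes for which `2` has small order. -/

set_option autoImplicit false

namespace Pool.Agent.Lib.MP_629a14_nt.Ck

open Finset Pool.Agent.Lib.MP_629a14_nt

private theorem OrdSum_mert (x : ℕ) (hx : 2 ≤ x) :
    ∑ p ∈ (Icc 1 x).filter (fun p => p.Prime), (1 : ℝ) / p ≤ Real.log (Real.log x) + 4 := by
  refine le_trans ?_ (Pool.Agent.Lib.MP_695920_nt.sum_inv_primes_le x hx)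
  refine sum_le_sum_of_subset_of_nonneg (fun p hp => ?_) (fun _ _ _ => by positivity)
  rw [mem_filter, mem_Icc] at hp ⊢
  exact ⟨⟨Nat.zero_le _, hp.1.2⟩, hp.2⟩

/-- Mertens' upper bound (look for it in `PrimeRecip.lean`, `MP_60b32f_nt/Moments.lean`, `MP_695920_nt/Analytic.lean` or
`MP_629a14_nt/Rob`, `MP_629a14_nt/Th`). -/
theorem mertens : ∃ C : ℝ, ∀ x : ℕ, 2 ≤ x →
    ∑ p ∈ (Icc 1 x).filter (fun p => p.Prime), (1 : ℝ) / p ≤ Real.log (Real.log x) + C :=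
  ⟨4, OrdSum_mert⟩

private theorem OrdSum_prod (n : ℕ) : 0 < ∏ i ∈ Icc 1 n, (2 ^ i - 1) ∧
    ∏ i ∈ Icc 1 n, (2 ^ i - 1) ≤ 2 ^ (n * (n + 1) / 2) := by
  constructor
  · refine prod_pos fun i hi => ?_
    rw [mem_Icc] at hi
    have : 2 ^ 1 ≤ 2 ^ i := Nat.pow_le_pow_right (by norm_num) hi.1
    omega
  · calc ∏ i ∈ Icc 1 n, (2 ^ i - 1) ≤ ∏ i ∈ Icc 1 n, 2 ^ i :=
          prod_le_prod' fun i _ => Nat.sub_le _ _
      _ = 2 ^ (∑ i ∈ Icc 1 n, i) := by rw [prod_pow_eq_pow_sum]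
      _ = 2 ^ (n * (n + 1) / 2) := by
          congr 1
          have h := Finset.sum_range_id_mul_two (n + 1)
          have h2 : ∑ i ∈ Icc 1 n, i = ∑ i ∈ range (n + 1), i := by
            rw [Finset.range_eq_Ico, Finset.sum_eq_sum_Ico_succ_bot (by omega)]
            rw [zero_add]
            rfl
          rw [h2]
          have h3 : (n + 1) * (n + 1 - 1) = n * (n + 1) := by
            rw [Nat.add_sub_cancel, mul_comm]
          rw [h3] at h
          omega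

/-- Proof. All `p ∈ S` divide `D = ∏_{1 ≤ i ≤ 2^j} (2^i - 1)`, `log D ≤ 4^j`, hence at most `4^j / log (4^j)` of them are
larger than `4^j` (their product divides `D`): these contribute at most `1/log(4^j) ≤ 1`; the others contribute at
most `log log 4^j + C` by `mertens`. -/
theorem ord_sum : ∃ C : ℝ, 0 ≤ C ∧ ∀ j : ℕ, 1 ≤ j → ∀ S : Finset ℕ,
    (∀ p ∈ S, p.Prime ∧ ∃ i : ℕ, 1 ≤ i ∧ i ≤ 2 ^ j ∧ p ∣ 2 ^ i - 1) →
    ∑ p ∈ S, (1 : ℝ) / p ≤ Real.log j + C := by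
  classical
  refine ⟨7, by norm_num, fun j hj S hS => ?_⟩
  have h4 : 2 ≤ 4 ^ j := le_trans (by norm_num) (Nat.pow_le_pow_right (by norm_num : 0 < 4) hj)
  have hj0 : (0 : ℝ) < j := by exact_mod_cast hj
  have h4r : (0 : ℝ) < (4 : ℝ) ^ j := by positivity
  have hsplit : ∑ p ∈ S, (1 : ℝ) / p = ∑ p ∈ S.filter (fun p => p ≤ 4 ^ j), (1 : ℝ) / p +
      ∑ p ∈ S.filter (fun p => ¬ p ≤ 4 ^ j), (1 : ℝ) / p :=
    (sum_filter_add_sum_filter_not S (fun p => p ≤ 4 ^ j) _).symm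
  have h1 : ∑ p ∈ S.filter (fun p => p ≤ 4 ^ j), (1 : ℝ) / p ≤ Real.log j + 6 := by
    have e1 := OrdSum_mert (4 ^ j) h4
    have e2 : Real.log (Real.log ((4 ^ j : ℕ) : ℝ)) ≤ Real.log j + 2 := by
      have hl4 : 0 < Real.log 4 := Real.log_pos (by norm_num)
      push_cast
      rw [Real.log_pow, Real.log_mul hj0.ne' hl4.ne']
      have e3 : Real.log (Real.log 4) ≤ Real.log 4 := by
        have := Real.log_le_sub_one_of_pos hl4
        linarith
      have e4 : Real.log 4 ≤ 2 := by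
        have : Real.log 4 = 2 * Real.log 2 := by
          rw [show (4 : ℝ) = 2 ^ 2 by norm_num, Real.log_pow]
          norm_num
        rw [this]
        linarith [Real.log_two_lt_d9]
      linarith
    refine le_trans (sum_le_sum_of_subset_of_nonneg (fun p hp => ?_) (fun _ _ _ => by positivity))
      (e1.trans (by linarith))
    rw [mem_filter] at hp
    rw [mem_filter, mem_Icc]
    exact ⟨⟨(hS p hp.1).1.one_lt.le, hp.2⟩, (hS p hp.1).1⟩
  have h2 : ∑ p ∈ S.filter (fun p => ¬ p ≤ 4 ^ j), (1 : ℝ) / p ≤ 1 := by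
    obtain ⟨T, hT⟩ : ∃ T : Finset ℕ, T = S.filter (fun p => ¬ p ≤ 4 ^ j) := ⟨_, rfl⟩
    rw [← hT]
    have hTp : ∀ p ∈ T, p ∈ S ∧ 4 ^ j < p := by
      intro p hp
      rw [hT, mem_filter] at hp
      exact ⟨hp.1, not_le.1 hp.2⟩
    obtain ⟨hD0, hD1⟩ := OrdSum_prod (2 ^ j)
    have hdvd : ∏ p ∈ T, p ∣ ∏ i ∈ Icc 1 (2 ^ j), (2 ^ i - 1) := by
      refine Finset.prod_primes_dvd _ (fun p hp => (hS p (hTp p hp).1).1.prime) fun p hp => ?_
      obtain ⟨-, i, hi1, hi2, hd⟩ := hS p (hTp p hp).1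
      exact hd.trans (dvd_prod_of_mem (fun i => 2 ^ i - 1) (mem_Icc.2 ⟨hi1, hi2⟩))
    have hle := Nat.le_of_dvd hD0 hdvd
    have hcard : (4 ^ j) ^ T.card ≤ ∏ p ∈ T, p := by
      rw [← prod_const]
      exact prod_le_prod' fun p hp => (hTp p hp).2.le
    have hexp : 2 ^ j * (2 ^ j + 1) / 2 ≤ 4 ^ j := by
      have e1 : (4 : ℕ) ^ j = 2 ^ j * 2 ^ j := by
        rw [← mul_pow]
        norm_num
      have e2 : 1 ≤ 2 ^ j := Nat.one_le_two_pow
      rw [e1]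
      apply Nat.div_le_of_le_mul
      nlinarith
    have hfin : T.card ≤ 4 ^ j := by
      have e1 : (2 : ℕ) ^ (2 * j * T.card) ≤ 2 ^ (4 ^ j) := by
        calc (2 : ℕ) ^ (2 * j * T.card) = (4 ^ j) ^ T.card := by
              rw [pow_mul, pow_mul]
              norm_num
          _ ≤ ∏ p ∈ T, p := hcard
          _ ≤ ∏ i ∈ Icc 1 (2 ^ j), (2 ^ i - 1) := hle
          _ ≤ 2 ^ (2 ^ j * (2 ^ j + 1) / 2) := hD1
          _ ≤ 2 ^ (4 ^ j) := Nat.pow_le_pow_right (by norm_num) hexp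
      have e2 := (Nat.pow_le_pow_iff_right (by norm_num : 1 < 2)).1 e1
      have e3 : T.card ≤ 2 * j * T.card := Nat.le_mul_of_pos_left _ (by omega)
      omega
    calc ∑ p ∈ T, (1 : ℝ) / p ≤ ∑ p ∈ T, (1 : ℝ) / 4 ^ j := by
          refine sum_le_sum fun p hp => ?_
          refine one_div_le_one_div_of_le h4r ?_
          exact_mod_cast (hTp p hp).2.le
      _ = T.card * (1 / 4 ^ j) := by rw [sum_const, nsmul_eq_mul]
      _ ≤ 1 := by
          rw [mul_one_div, div_le_one h4r]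
          exact_mod_cast hfin
  rw [hsplit]
  linarith

end Pool.Agent.Lib.MP_629a14_nt.Ck
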