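import Pool.Agent.Lib.MP_629a14_nt.Ck.Defs

/-! Divisibility of sums of powers of two. -/

set_option autoImplicit false

namespace Pool.Agent.Lib.MP_629a14_nt.Ck

open Finset Pool.Agent.Lib.MP_629a14_nt

private theorem quad_unit (m : ℕ) (hm : Odd m) : IsUnit (2 : ZMod m) := by
  have h : Nat.Coprime 2 m := (Nat.coprime_two_left).2 hm
  have := (ZMod.isUnit_iff_coprime 2 m).2 h
  simpa using this

private theorem quad_ord_pos (m : ℕ) (hm : Odd m) : 0 < orderOf (2 : ZMod m) := by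
  have hm0 : m ≠ 0 := by
    rintro rfl
    simp at hm
  have : NeZero m := ⟨hm0⟩
  obtain ⟨u, hu⟩ := quad_unit m hm
  rw [← hu, orderOf_units]
  exact orderOf_pos u

private theorem quad_modEq (m : ℕ) (hm : Odd m) (x y : ℕ) (h : (2 : ZMod m) ^ x = 2 ^ y) :
    x ≡ y [MOD orderOf (2 : ZMod m)] := by
  obtain ⟨u, hu⟩ := quad_unit m hm
  rw [← hu, orderOf_units]
  rw [← hu] at h
  apply pow_eq_pow_iff_modEq.1
  apply Units.ext
  push_cast
  exact h

/-- The `x < n` with `m ∣ c + σ 2^(x+1)` lie in one residue class modulo the order `o` of `2` modulo `m`. -/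
theorem one_count (σ : ℤ) (hσ : σ = 1 ∨ σ = -1) (n m : ℕ) (hm : Odd m) (c : ℤ) :
    (((univ : Finset (Fin n)).filter (fun x : Fin n => (m : ℤ) ∣ c + σ * 2 ^ ((x : ℕ) + 1))).card : ℝ) ≤
      n / (orderOf (2 : ZMod m) : ℝ) + 1 := by
  set o := orderOf (2 : ZMod m) with ho
  have ho0 : 0 < o := quad_ord_pos m hm
  set S := (univ : Finset (Fin n)).filter (fun x : Fin n => (m : ℤ) ∣ c + σ * 2 ^ ((x : ℕ) + 1)) with hS
  have hcl : ∀ x ∈ S, ∀ y ∈ S, (x : ℕ) ≡ y [MOD o] := by
    intro x hx y hy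
    rw [hS, mem_filter] at hx hy
    have h1 : (m : ℤ) ∣ σ * 2 ^ ((x : ℕ) + 1) - σ * 2 ^ ((y : ℕ) + 1) := by
      have := dvd_sub hx.2 hy.2
      have e : c + σ * 2 ^ ((x : ℕ) + 1) - (c + σ * 2 ^ ((y : ℕ) + 1)) =
          σ * 2 ^ ((x : ℕ) + 1) - σ * 2 ^ ((y : ℕ) + 1) := by ring
      rwa [e] at this
    have h2 : (m : ℤ) ∣ 2 ^ ((x : ℕ) + 1) - 2 ^ ((y : ℕ) + 1) := by
      rcases hσ with h | h
      · rw [h] at h1; simpa using h1
      · rw [h] at h1
        have := (dvd_neg).2 h1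
        have e : -(-1 * (2 : ℤ) ^ ((x : ℕ) + 1) - -1 * 2 ^ ((y : ℕ) + 1)) =
          2 ^ ((x : ℕ) + 1) - 2 ^ ((y : ℕ) + 1) := by ring
        rwa [e] at this
    have h3 : ((2 : ZMod m)) ^ ((x : ℕ) + 1) = 2 ^ ((y : ℕ) + 1) := by
      have h4 := (ZMod.intCast_zmod_eq_zero_iff_dvd _ m).2 h2
      push_cast at h4
      exact sub_eq_zero.1 h4
    have h4 := quad_modEq m hm _ _ h3
    exact Nat.ModEq.add_right_cancel' 1 h4
  have hinj : Set.InjOn (fun x : Fin n => (x : ℕ) / o) S := by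
    intro x hx y hy hxy
    simp only at hxy
    have h1 : (x : ℕ) % o = (y : ℕ) % o := hcl x hx y hy
    apply Fin.ext
    rw [← Nat.div_add_mod (x : ℕ) o, ← Nat.div_add_mod (y : ℕ) o, h1, hxy]
  have hmaps : ∀ x ∈ S, (x : ℕ) / o ∈ Finset.range (n / o + 1) := by
    intro x _
    rw [Finset.mem_range]
    exact Nat.lt_succ_of_le (Nat.div_le_div_right x.2.le)
  have hcard : S.card ≤ n / o + 1 := by
    have := Finset.card_le_card_of_injOn _ hmaps hinj
    simpa using this
  calc (S.card : ℝ) ≤ ((n / o + 1 : ℕ) : ℝ) := by exact_mod_cast hcard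
    _ ≤ n / (o : ℝ) + 1 := by
      push_cast
      have := @Nat.cast_div_le ℝ _ _ _ n o
      linarith

/-- Sum `one_count` over the other three coordinates. -/
theorem quad_count (σ : ℤ) (hσ : σ = 1 ∨ σ = -1) (n m : ℕ) (hm : Odd m) :
    (((univ : Finset ((Fin n × Fin n) × (Fin n × Fin n))).filter
      (fun t => (m : ℤ) ∣ aa σ n t.1 - aa σ n t.2)).card : ℝ) ≤
      (n : ℝ) ^ 3 * (n / (orderOf (2 : ZMod m) : ℝ) + 1) := by
  classical
  set S := (univ : Finset ((Fin n × Fin n) × (Fin n × Fin n))).filter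
      (fun t => (m : ℤ) ∣ aa σ n t.1 - aa σ n t.2) with hS
  have h1 : S.card = ∑ b ∈ (univ : Finset (Fin n × (Fin n × Fin n))),
      (S.filter (fun t => (t.1.2, t.2) = b)).card :=
    Finset.card_eq_sum_card_fiberwise (fun t _ => by simp)
  have h2 : ∀ b : Fin n × (Fin n × Fin n), (((S.filter (fun t => (t.1.2, t.2) = b)).card : ℕ) : ℝ) ≤
      n / (orderOf (2 : ZMod m) : ℝ) + 1 := by
    rintro ⟨x, y⟩
    set c : ℤ := σ * 2 ^ ((x : ℕ) + 1) - aa σ n y with hc
    refine le_trans ?_ (one_count σ hσ n m hm c)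
    have h3 : (S.filter (fun t => (t.1.2, t.2) = (x, y))).card ≤
        ((univ : Finset (Fin n)).filter (fun x : Fin n => (m : ℤ) ∣ c + σ * 2 ^ ((x : ℕ) + 1))).card := by
      apply Finset.card_le_card_of_injOn (fun t => t.1.1)
      · intro t ht
        rw [Finset.mem_coe, Finset.mem_filter, hS, Finset.mem_filter, Prod.mk.injEq] at ht
        rw [Finset.mem_coe, Finset.mem_filter]
        refine ⟨Finset.mem_univ _, ?_⟩
        obtain ⟨⟨-, ht1⟩, ht2, ht3⟩ := ht
        rw [ht3] at ht1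
        have e : c + σ * 2 ^ ((t.1.1 : ℕ) + 1) = aa σ n t.1 - aa σ n y := by
          rw [hc, ← ht2]
          unfold aa
          ring
        rw [e]
        exact ht1
      · intro t ht t' ht' htt
        rw [Finset.mem_coe, Finset.mem_filter, Prod.mk.injEq] at ht ht'
        obtain ⟨-, ht2, ht3⟩ := ht
        obtain ⟨-, ht2', ht3'⟩ := ht'
        apply Prod.ext
        · apply Prod.ext
          · exact htt
          · rw [ht2, ht2']
        · rw [ht3, ht3']
    exact_mod_cast h3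
  rw [h1]
  push_cast
  refine (Finset.sum_le_sum fun b _ => h2 b).trans ?_
  rw [Finset.sum_const, nsmul_eq_mul]
  apply le_of_eq
  congr 1
  rw [Finset.card_univ, Fintype.card_prod, Fintype.card_prod, Fintype.card_fin]
  push_cast
  ring

private theorem quad_aux {a b c d : ℕ} (hab : a ≤ b) (hcd : c ≤ d) (hac : a ≤ c)
    (h : 2 ^ a + 2 ^ b = 2 ^ c + 2 ^ d) : a = c ∧ b = d := by
  obtain ⟨b', rfl⟩ := Nat.exists_eq_add_of_le hab
  obtain ⟨c', rfl⟩ := Nat.exists_eq_add_of_le hac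
  obtain ⟨d', rfl⟩ := Nat.exists_eq_add_of_le (hac.trans hcd)
  have hcd' : c' ≤ d' := by omega
  have h1 : 1 + 2 ^ b' = 2 ^ c' + 2 ^ d' := by
    have h2 : 2 ^ a * (1 + 2 ^ b') = 2 ^ a * (2 ^ c' + 2 ^ d') := by
      rw [mul_add, mul_one, mul_add, ← pow_add, ← pow_add, ← pow_add]
      exact h
    exact Nat.eq_of_mul_eq_mul_left (by positivity) h2
  rcases Nat.eq_zero_or_pos c' with hc | hc
  · subst hc
    rw [pow_zero] at h1
    have h3 : 2 ^ b' = 2 ^ d' := by omega
    have h4 := Nat.pow_right_injective (le_refl 2) h3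
    omega
  · exfalso
    have hd : 1 ≤ d' := by omega
    rcases Nat.eq_zero_or_pos b' with hb | hb
    · subst hb
      have h5 : 2 ≤ 2 ^ c' := by
        calc 2 = 2 ^ 1 := by norm_num
          _ ≤ 2 ^ c' := Nat.pow_le_pow_right (by norm_num) hc
      have h6 : 2 ≤ 2 ^ d' := by
        calc 2 = 2 ^ 1 := by norm_num
          _ ≤ 2 ^ d' := Nat.pow_le_pow_right (by norm_num) hd
      omega
    · have e1 : 2 ^ b' % 2 = 0 := Nat.mod_eq_zero_of_dvd (dvd_pow_self 2 (by omega))
      have e2 : 2 ^ c' % 2 = 0 := Nat.mod_eq_zero_of_dvd (dvd_pow_self 2 (by omega))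
      have e3 : 2 ^ d' % 2 = 0 := Nat.mod_eq_zero_of_dvd (dvd_pow_self 2 (by omega))
      omega

private theorem quad_pow {a b c d : ℕ} (h : 2 ^ a + 2 ^ b = 2 ^ c + 2 ^ d) :
    (a = c ∧ b = d) ∨ (a = d ∧ b = c) := by
  rcases le_total a b with hab | hab <;> rcases le_total c d with hcd | hcd
  · rcases le_total a c with hac | hac
    · exact Or.inl (quad_aux hab hcd hac h)
    · have := quad_aux hcd hab hac h.symm
      left; omega
  · rcases le_total a d with hac | hac
    · have := quad_aux hab hcd hac (by rw [h, add_comm])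
      right; exact this
    · have := quad_aux hcd hab hac (by rw [add_comm, ← h])
      right; omega
  · rcases le_total b c with hac | hac
    · have := quad_aux hab hcd hac (by rw [← h, add_comm])
      right; omega
    · have := quad_aux hcd hab hac (by rw [← h, add_comm])
      right; omega
  · rcases le_total b d with hac | hac
    · have := quad_aux hab hcd hac (by rw [add_comm, h, add_comm])
      left; omega
    · have := quad_aux hcd hab hac (by rw [add_comm, ← h, add_comm])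
      left; omega

/-- Only the pairs with `{x, y} = {x', y'}` (binary digits; `2^x + 2^x = 2^(x+1)`). -/
theorem quad_diag (σ : ℤ) (hσ : σ = 1 ∨ σ = -1) (n : ℕ) :
    (((univ : Finset ((Fin n × Fin n) × (Fin n × Fin n))).filter
      (fun t => aa σ n t.1 = aa σ n t.2)).card : ℝ) ≤ 2 * (n : ℝ) ^ 2 := by
  classical
  have hσ0 : σ ≠ 0 := by
    rcases hσ with h | h <;> rw [h] <;> norm_num
  have hsub : (univ : Finset ((Fin n × Fin n) × (Fin n × Fin n))).filter
      (fun t => aa σ n t.1 = aa σ n t.2) ⊆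
      (univ : Finset (Fin n × Fin n)).image (fun p => (p, p)) ∪
      (univ : Finset (Fin n × Fin n)).image (fun p => (p, (p.2, p.1))) := by
    rintro ⟨⟨x1, x2⟩, ⟨y1, y2⟩⟩ ht
    rw [Finset.mem_filter] at ht
    have h1 := ht.2
    unfold aa at h1
    have h2 := mul_left_cancel₀ hσ0 h1
    simp only at h2
    have h3 : 2 ^ ((x1 : ℕ) + 1) + 2 ^ ((x2 : ℕ) + 1) = 2 ^ ((y1 : ℕ) + 1) + 2 ^ ((y2 : ℕ) + 1) := by
      exact_mod_cast h2
    rw [Finset.mem_union, Finset.mem_image, Finset.mem_image]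
    rcases quad_pow h3 with ⟨h4, h5⟩ | ⟨h4, h5⟩
    · left
      refine ⟨(x1, x2), Finset.mem_univ _, ?_⟩
      have e1 : x1 = y1 := Fin.ext (by omega)
      have e2 : x2 = y2 := Fin.ext (by omega)
      rw [e1, e2]
    · right
      refine ⟨(x1, x2), Finset.mem_univ _, ?_⟩
      have e1 : x1 = y2 := Fin.ext (by omega)
      have e2 : x2 = y1 := Fin.ext (by omega)
      rw [e1, e2]
  have hc := (Finset.card_le_card hsub).trans ((Finset.card_union_le _ _).trans
    (add_le_add Finset.card_image_le Finset.card_image_le))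
  have e : (univ : Finset (Fin n × Fin n)).card = n ^ 2 := by
    rw [Finset.card_univ, Fintype.card_prod, Fintype.card_fin, sq]
  rw [e] at hc
  have hc' : (((univ : Finset ((Fin n × Fin n) × (Fin n × Fin n))).filter
      (fun t => aa σ n t.1 = aa σ n t.2)).card : ℝ) ≤ ((n ^ 2 + n ^ 2 : ℕ) : ℝ) := by
    exact_mod_cast hc
  push_cast at hc'
  linarith

/-- `m ∣ 2^o - 1` for the order `o ≤ m` of `2` modulo an odd `m ≥ 3`, and `2^o > m`. -/
theorem ord_two (m : ℕ) (hm : Odd m) (h3 : 3 ≤ m) : 1 ≤ orderOf (2 : ZMod m) ∧ m ∣ 2 ^ orderOf (2 : ZMod m) - 1 ∧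
    Real.log m ≤ orderOf (2 : ZMod m) * Real.log 2 := by
  set o := orderOf (2 : ZMod m) with ho
  have ho0 : 0 < o := quad_ord_pos m hm
  have h1 : ((2 : ZMod m)) ^ o = 1 := pow_orderOf_eq_one _
  have h2 : m ∣ 2 ^ o - 1 := by
    have h4 : (((2 ^ o - 1 : ℕ)) : ZMod m) = 0 := by
      rw [Nat.cast_sub (Nat.one_le_two_pow)]
      push_cast
      rw [h1, sub_self]
    exact (ZMod.natCast_eq_zero_iff _ _).1 h4
  refine ⟨ho0, h2, ?_⟩
  have h5 : 2 ≤ 2 ^ o := by
    calc 2 = 2 ^ 1 := by norm_num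
      _ ≤ 2 ^ o := Nat.pow_le_pow_right (by norm_num) ho0
  have h6 : m ≤ 2 ^ o - 1 := Nat.le_of_dvd (by omega) h2
  have h7 : (m : ℝ) ≤ 2 ^ o := by
    have : m ≤ 2 ^ o := by omega
    exact_mod_cast this
  rw [← Real.log_pow]
  exact Real.log_le_log (by have : 0 < m := by omega
                            exact_mod_cast this) h7

/-- The order modulo a divisor divides the order. -/
theorem ord_dvd (m d : ℕ) (h : d ∣ m) : orderOf (2 : ZMod d) ∣ orderOf (2 : ZMod m) := by
  have h1 := orderOf_map_dvd (ZMod.castHom h (ZMod d) : ZMod m →* ZMod d) (2 : ZMod m)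
  have h2 : ((ZMod.castHom h (ZMod d) : ZMod m →* ZMod d)) (2 : ZMod m) = 2 := by
    change (ZMod.castHom h (ZMod d)) (2 : ZMod m) = 2
    exact map_ofNat _ 2
  rwa [h2] at h1

end Pool.Agent.Lib.MP_629a14_nt.Ck
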