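import Pool.Agent.Lib.MP_629a14_nt.Ck.RomT

/-! The fourth moment of `d / φ(d)` over the differences of sums of two powers of two. -/

set_option autoImplicit false

namespace Pool.Agent.Lib.MP_629a14_nt.Ck

open Finset Pool.Agent.Lib.MP_629a14_nt

private lemma Rom_gw_nonneg (p : ℕ) : 0 ≤ gw p := by
  have : (1 : ℝ) ≤ Real.exp (4 / (p : ℝ)) := Real.one_le_exp (by positivity)
  unfold gw
  linarith

/-- the odd primes up to `Y` -/
private def RomP (Y : ℕ) : Finset ℕ := (Icc 1 Y).filter (fun p => p.Prime ∧ p ≠ 2)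

/-- pointwise bound -/
private lemma Rom_pt (Y d : ℕ) (hY : 1 ≤ Y) (hd : d ≠ 0) (hlog : Real.log d ≤ Y) :
    (rt d) ^ 4 ≤ Real.exp 14 *
      ∑ T ∈ (RomP Y).powerset, if (∏ p ∈ T, p) ∣ d then ∏ p ∈ T, gw p else 0 := by
  have h1 := rt_le_exp d hd Y hY hlog
  have h0 := rt_nonneg d
  have h2 : ∑ p ∈ (Icc 0 Y).filter (fun p => p.Prime ∧ p ∣ d), (1 : ℝ) / p ≤
      1 / 2 + ∑ p ∈ (RomP Y).filter (fun p => p ∣ d), (1 : ℝ) / p := by
    have hsub : (Icc 0 Y).filter (fun p => p.Prime ∧ p ∣ d) ⊆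
        insert 2 ((RomP Y).filter (fun p => p ∣ d)) := by
      intro p hp
      rw [mem_filter, mem_Icc] at hp
      rw [mem_insert, RomP, mem_filter, mem_filter, mem_Icc]
      by_cases h : p = 2
      · exact Or.inl h
      · exact Or.inr ⟨⟨⟨hp.2.1.pos, hp.1.2⟩, hp.2.1, h⟩, hp.2.2⟩
    refine (sum_le_sum_of_subset_of_nonneg hsub fun p _ _ => by positivity).trans ?_
    rw [sum_insert]
    · norm_num
    · rw [RomP, mem_filter, mem_filter]
      tauto
  calc (rt d) ^ 4 ≤ (Real.exp (3 + (1 / 2 + ∑ p ∈ (RomP Y).filter (fun p => p ∣ d), (1 : ℝ) / p))) ^ 4 := by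
        apply pow_le_pow_left₀ h0
        exact h1.trans (Real.exp_le_exp.2 (by linarith))
    _ = Real.exp 14 * ∏ p ∈ (RomP Y).filter (fun p => p ∣ d), (1 + gw p) := by
        have h3 : ∀ p ∈ (RomP Y).filter (fun p => p ∣ d), 1 + gw p = Real.exp (4 * (1 / (p : ℝ))) := by
          intro p _
          simp only [gw]
          rw [mul_one_div]
          ring
        rw [prod_congr rfl h3, ← Real.exp_sum, ← Real.exp_add, ← Real.exp_nat_mul]
        congr 1
        rw [← mul_sum]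
        push_cast
        ring
    _ = Real.exp 14 * ∑ T ∈ ((RomP Y).filter (fun p => p ∣ d)).powerset, ∏ p ∈ T, gw p := by
        rw [prod_one_add]
    _ ≤ _ := by
        gcongr
        rw [← sum_filter]
        apply sum_le_sum_of_subset_of_nonneg
        · intro T hT
          rw [mem_powerset] at hT
          rw [mem_filter, mem_powerset]
          refine ⟨fun p hp => (mem_filter.1 (hT hp)).1, ?_⟩
          apply Finset.prod_primes_dvd
          · intro p hp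
            have h4 := (mem_filter.1 (hT hp)).1
            rw [RomP, mem_filter] at h4
            exact h4.2.1.prime
          · intro p hp
            exact (mem_filter.1 (hT hp)).2
        · intro T _ _
          exact prod_nonneg (fun p _ => Rom_gw_nonneg p)

private lemma Rom_aa (σ : ℤ) (hσ : σ = 1 ∨ σ = -1) (n : ℕ) (x y : Fin n × Fin n) :
    (aa σ n x - aa σ n y).natAbs ≤ 2 ^ (n + 2) := by
  have hb : ∀ z : Fin n × Fin n, |aa σ n z| ≤ 2 ^ (n + 1) := by
    intro z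
    have h1 : (2 : ℤ) ^ ((z.1 : ℕ) + 1) ≤ 2 ^ n := pow_le_pow_right₀ (by norm_num) z.1.2
    have h2 : (2 : ℤ) ^ ((z.2 : ℕ) + 1) ≤ 2 ^ n := pow_le_pow_right₀ (by norm_num) z.2.2
    have h3 : (0 : ℤ) < 2 ^ ((z.1 : ℕ) + 1) := by positivity
    have h4 : (0 : ℤ) < 2 ^ ((z.2 : ℕ) + 1) := by positivity
    unfold aa
    rw [abs_mul]
    have h5 : |σ| = 1 := by rcases hσ with rfl | rfl <;> norm_num
    rw [h5, one_mul, abs_of_pos (by linarith), pow_succ 2 n]
    linarith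
  have h1 : |aa σ n x - aa σ n y| ≤ 2 ^ (n + 2) := by
    have h2 := abs_sub (aa σ n x) (aa σ n y)
    have h3 := hb x
    have h4 := hb y
    have h5 : (2 : ℤ) ^ (n + 2) = 2 ^ (n + 1) + 2 ^ (n + 1) := by ring
    rw [h5]
    linarith
  have h6 : (((aa σ n x - aa σ n y).natAbs : ℕ) : ℤ) ≤ ((2 ^ (n + 2) : ℕ) : ℤ) := by
    rw [Int.natCast_natAbs]
    push_cast
    exact h1
  exact_mod_cast h6

/-- Proof (compare `RatioMoment.lean: sum_rt_pow_le`). For `d = |aa t.1 - aa t.2| ≠ 0`, `d < 2^(n+2)`, so `log d ≤ Y = n+2`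
and by `rt_le_exp` `rt d ^ 4 ≤ exp(12) exp(2) ∏ (1 + gw p)` over the odd primes `p ≤ Y`, `p ∣ d`, which is
`e^14 ∑_T ∏_{p ∈ T} gw p` over the sets `T` of such primes, `∏ T ∣ d`. Sum over `t`, exchange the sums, `quad_count`:
`≤ e^14 n^3 ∑_T (∏ gw) (n/o(T) + 1) ≤ e^14 (C n^4 + n^3 C (log (n+2))^4) ≤ K n^4`. -/
theorem rom : ∃ K : ℝ, 1 ≤ K ∧ ∀ (σ : ℤ), (σ = 1 ∨ σ = -1) → ∀ n : ℕ, 1 ≤ n →
    ∑ t ∈ (univ : Finset ((Fin n × Fin n) × (Fin n × Fin n))).filter (fun t => aa σ n t.1 ≠ aa σ n t.2),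
      (rt (aa σ n t.1 - aa σ n t.2).natAbs) ^ 4 ≤ K * (n : ℝ) ^ 4 := by
  obtain ⟨C₁, hC₁, h₁⟩ := rom_series
  obtain ⟨C₂, hC₂, h₂⟩ := rom_total
  refine ⟨Real.exp 14 * (C₁ + 768 * C₂), ?_, ?_⟩
  · have h3 : (1 : ℝ) ≤ Real.exp 14 := Real.one_le_exp (by norm_num)
    nlinarith
  intro σ hσ n hn
  have hnR : (1 : ℝ) ≤ n := by exact_mod_cast hn
  set Y : ℕ := n + 2 with hY
  have hpt : ∀ t ∈ (univ : Finset ((Fin n × Fin n) × (Fin n × Fin n))).filter
      (fun t => aa σ n t.1 ≠ aa σ n t.2), (rt (aa σ n t.1 - aa σ n t.2).natAbs) ^ 4 ≤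
        Real.exp 14 * ∑ T ∈ (RomP Y).powerset,
          if (∏ p ∈ T, p) ∣ (aa σ n t.1 - aa σ n t.2).natAbs then ∏ p ∈ T, gw p else 0 := by
    intro t ht
    have hd : (aa σ n t.1 - aa σ n t.2).natAbs ≠ 0 := by
      rw [Int.natAbs_ne_zero]
      exact sub_ne_zero.2 (mem_filter.1 ht).2
    apply Rom_pt Y _ (by omega) hd
    have h3 := Rom_aa σ hσ n t.1 t.2
    have h4 : (((aa σ n t.1 - aa σ n t.2).natAbs : ℕ) : ℝ) ≤ (2 : ℝ) ^ (n + 2) := by
      exact_mod_cast h3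
    have h5 : Real.log (((aa σ n t.1 - aa σ n t.2).natAbs : ℕ) : ℝ) ≤
        Real.log ((2 : ℝ) ^ (n + 2)) := by
      apply Real.log_le_log _ h4
      exact_mod_cast Nat.pos_of_ne_zero hd
    rw [Real.log_pow] at h5
    have h6 : Real.log 2 ≤ 1 := by
      have := Real.log_two_lt_d9
      linarith
    rw [hY]
    calc _ ≤ _ := h5
      _ ≤ ((n + 2 : ℕ) : ℝ) * 1 := by gcongr
      _ = _ := mul_one _
  have hodd : ∀ T ∈ (RomP Y).powerset, Odd (∏ p ∈ T, p) := by
    intro T hT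
    rw [mem_powerset] at hT
    apply Finset.prod_induction _ Odd (fun a b ha hb => ha.mul hb) odd_one
    intro p hp
    have h3 := hT hp
    rw [RomP, mem_filter] at h3
    exact h3.2.1.odd_of_ne_two h3.2.2
  have hlogY : (Real.log Y) ^ 4 ≤ 768 * n := by
    have hY0 : (0 : ℝ) ≤ Y := Nat.cast_nonneg Y
    have h3 := Real.log_le_rpow_div hY0 (show (0 : ℝ) < 1 / 4 by norm_num)
    have h4 : 0 ≤ Real.log Y := Real.log_natCast_nonneg Y
    have h5 : ((Y : ℝ) ^ ((1 : ℝ) / 4) / (1 / 4)) ^ 4 = 256 * Y := by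
      rw [div_pow, ← Real.rpow_natCast ((Y : ℝ) ^ ((1 : ℝ) / 4)) 4, ← Real.rpow_mul hY0]
      norm_num
      ring
    calc (Real.log Y) ^ 4 ≤ ((Y : ℝ) ^ ((1 : ℝ) / 4) / (1 / 4)) ^ 4 := pow_le_pow_left₀ h4 h3 4
      _ = 256 * Y := h5
      _ ≤ 768 * n := by
        rw [hY]
        push_cast
        linarith
  calc ∑ t ∈ (univ : Finset ((Fin n × Fin n) × (Fin n × Fin n))).filter
        (fun t => aa σ n t.1 ≠ aa σ n t.2), (rt (aa σ n t.1 - aa σ n t.2).natAbs) ^ 4
      ≤ ∑ t ∈ (univ : Finset ((Fin n × Fin n) × (Fin n × Fin n))).filter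
        (fun t => aa σ n t.1 ≠ aa σ n t.2), Real.exp 14 * ∑ T ∈ (RomP Y).powerset,
          (if (∏ p ∈ T, p) ∣ (aa σ n t.1 - aa σ n t.2).natAbs then ∏ p ∈ T, gw p else 0) :=
        sum_le_sum hpt
    _ ≤ ∑ t ∈ (univ : Finset ((Fin n × Fin n) × (Fin n × Fin n))),
        Real.exp 14 * ∑ T ∈ (RomP Y).powerset,
          (if (∏ p ∈ T, p) ∣ (aa σ n t.1 - aa σ n t.2).natAbs then ∏ p ∈ T, gw p else 0) := by
        apply sum_le_sum_of_subset_of_nonneg (filter_subset _ _)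
        intro t _ _
        apply mul_nonneg (Real.exp_pos _).le
        apply sum_nonneg
        intro T _
        split_ifs
        · exact prod_nonneg (fun p _ => Rom_gw_nonneg p)
        · exact le_rfl
    _ = Real.exp 14 * ∑ T ∈ (RomP Y).powerset,
        ((((univ : Finset ((Fin n × Fin n) × (Fin n × Fin n))).filter
          (fun t => (∏ p ∈ T, p) ∣ (aa σ n t.1 - aa σ n t.2).natAbs)).card : ℝ) *
            ∏ p ∈ T, gw p) := by
        rw [← mul_sum, sum_comm]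
        congr 1
        refine sum_congr rfl fun T _ => ?_
        rw [← sum_filter, sum_const, nsmul_eq_mul]
    _ ≤ Real.exp 14 * ∑ T ∈ (RomP Y).powerset,
        ((n : ℝ) ^ 3 * (n / (orderOf (2 : ZMod (∏ p ∈ T, p)) : ℝ) + 1)) * ∏ p ∈ T, gw p := by
        apply mul_le_mul_of_nonneg_left _ (Real.exp_pos _).le
        apply sum_le_sum
        intro T hT
        apply mul_le_mul_of_nonneg_right _ (prod_nonneg (fun p _ => Rom_gw_nonneg p))
        have h3 := quad_count σ hσ n (∏ p ∈ T, p) (hodd T hT)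
        refine le_trans (le_of_eq ?_) h3
        congr 2
        apply filter_congr
        intro t _
        exact Int.natCast_dvd.symm
    _ = Real.exp 14 * (n : ℝ) ^ 3 * (n * (∑ T ∈ (RomP Y).powerset, (∏ p ∈ T, gw p) *
          (1 / (orderOf (2 : ZMod (∏ p ∈ T, p)) : ℝ))) +
          ∑ T ∈ (RomP Y).powerset, ∏ p ∈ T, gw p) := by
        rw [mul_assoc]
        congr 1
        rw [mul_sum, ← sum_add_distrib, mul_sum]
        refine sum_congr rfl fun T _ => ?_
        ring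
    _ ≤ Real.exp 14 * (n : ℝ) ^ 3 * (n * C₁ + C₂ * (768 * n)) := by
        have h3 := h₁ Y
        have h4 := h₂ Y (by omega)
        have h5 : C₂ * (Real.log Y) ^ 4 ≤ C₂ * (768 * n) :=
          mul_le_mul_of_nonneg_left hlogY (by linarith)
        apply mul_le_mul_of_nonneg_left _ (by positivity)
        apply add_le_add
        · exact mul_le_mul_of_nonneg_left h3 (by linarith)
        · exact h4.trans h5
    _ = Real.exp 14 * (C₁ + 768 * C₂) * (n : ℝ) ^ 4 := by ring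

end Pool.Agent.Lib.MP_629a14_nt.Ck
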