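import Pool.Agent.Lib.MP_629a14_nt.Ck.OrdSum
import Pool.Agent.Lib.MP_629a14_nt.Ck.Quad

/-! Romanoff's series with multiplicative weights. -/

set_option autoImplicit false

namespace Pool.Agent.Lib.MP_629a14_nt.Ck

open Finset Pool.Agent.Lib.MP_629a14_nt

/-- The weight of a prime. -/
noncomputable def gw (p : ℕ) : ℝ := Real.exp (4 / (p : ℝ)) - 1

private theorem rt_gw_nonneg (p : ℕ) : 0 ≤ gw p := by
  unfold gw
  have : 0 ≤ 4 / (p : ℝ) := by positivity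
  have := Real.one_le_exp this
  linarith

private theorem rt_prod (A : Finset ℕ) :
    ∑ T ∈ A.powerset, ∏ p ∈ T, gw p = Real.exp (4 * ∑ p ∈ A, (1 : ℝ) / p) := by
  rw [← Finset.prod_one_add, Finset.mul_sum, Real.exp_sum]
  refine Finset.prod_congr rfl fun p _ => ?_
  unfold gw
  rw [show (4 : ℝ) / p = 4 * (1 / p) by ring]
  ring

private theorem rt_facts (Y : ℕ) (T : Finset ℕ)
    (hT : T ⊆ (Icc 1 Y).filter (fun p => p.Prime ∧ p ≠ 2)) (hne : T.Nonempty) :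
    2 ≤ orderOf (2 : ZMod (∏ p ∈ T, p)) ∧
    ∀ p ∈ T, ∃ i : ℕ, 1 ≤ i ∧ i ≤ orderOf (2 : ZMod (∏ p ∈ T, p)) ∧ p ∣ 2 ^ i - 1 := by
  have hp : ∀ p ∈ T, p.Prime ∧ p ≠ 2 := fun p hp => (mem_filter.1 (hT hp)).2
  have hodd : ∀ p ∈ T, Odd p := fun p h => (hp p h).1.odd_of_ne_two (hp p h).2
  have h3 : ∀ p ∈ T, 3 ≤ p := by
    intro p h
    have h1 := (hp p h).1.two_le
    have h2 := (hp p h).2
    omega
  have hmo : Odd (∏ p ∈ T, p) := Finset.prod_induction _ Odd (fun a b ha hb => ha.mul hb) odd_one hodd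
  have hpos : 0 < ∏ p ∈ T, p := Finset.prod_pos fun p h => (hp p h).1.pos
  obtain ⟨p0, hp0⟩ := hne
  have hm3 : 3 ≤ ∏ p ∈ T, p :=
    (h3 p0 hp0).trans (Nat.le_of_dvd hpos (Finset.dvd_prod_of_mem _ hp0))
  obtain ⟨a1, -, a3⟩ := ord_two _ hmo hm3
  refine ⟨?_, ?_⟩
  · by_contra hcon
    have h1 : orderOf (2 : ZMod (∏ p ∈ T, p)) = 1 := by omega
    rw [h1, Nat.cast_one, one_mul] at a3
    have h2 : Real.log 3 ≤ Real.log ((∏ p ∈ T, p : ℕ) : ℝ) :=
      Real.log_le_log (by norm_num) (by exact_mod_cast hm3)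
    have h4 : Real.log 2 < Real.log 3 := Real.log_lt_log (by norm_num) (by norm_num)
    linarith
  · intro p h
    obtain ⟨b1, b2, -⟩ := ord_two p (hodd p h) (h3 p h)
    refine ⟨orderOf (2 : ZMod p), b1, ?_, b2⟩
    exact Nat.le_of_dvd (by omega) (ord_dvd _ _ (Finset.dvd_prod_of_mem _ h))

/-- Proof. If `T` is a set of odd primes `≤ Y` and `o = orderOf 2 (mod ∏ T)`, `2^(j-1) ≤ o ≤ 2^j`, then `2` has order
at most `2^j` modulo every `p ∈ T` (`ord_dvd`, `ord_two`), so these `T` contribute at most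
`2^(1-j) ∏_{p ∈ S_j} (1 + gw p) = 2^(1-j) exp(4 ∑_{p ∈ S_j} 1/p) ≤ 2^(1-j) exp(4C) j^4` by `ord_sum`, where `S_j` is the
set of odd primes `p ≤ Y` for which `2` has order at most `2^j` (`prod_one_add`); sum over `j ≥ 1` (`o = 1` only for
`T = ∅`). -/
theorem rom_series : ∃ C : ℝ, 1 ≤ C ∧ ∀ Y : ℕ,
    ∑ T ∈ ((Icc 1 Y).filter (fun p => p.Prime ∧ p ≠ 2)).powerset,
      (∏ p ∈ T, gw p) * (1 / (orderOf (2 : ZMod (∏ p ∈ T, p)) : ℝ)) ≤ C := by
  classical
  obtain ⟨C, hC, hord⟩ := ord_sum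
  have hsum : Summable (fun n : ℕ => (n : ℝ) ^ 4 * (1 / 2 : ℝ) ^ n) :=
    summable_pow_mul_geometric_of_norm_lt_one 4 (by rw [Real.norm_eq_abs, abs_of_pos] <;> norm_num)
  set Z : ℝ := ∑' n : ℕ, (n : ℝ) ^ 4 * (1 / 2 : ℝ) ^ n with hZ
  have hZ0 : 0 ≤ Z := tsum_nonneg fun n => by positivity
  refine ⟨1 + 2 * Real.exp (4 * C) * Z, ?_, ?_⟩
  · have : 0 ≤ 2 * Real.exp (4 * C) * Z := by positivity
    linarith
  intro Y
  set A : Finset ℕ := (Icc 1 Y).filter (fun p => p.Prime ∧ p ≠ 2) with hA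
  set o : Finset ℕ → ℕ := fun T => orderOf (2 : ZMod (∏ p ∈ T, p)) with ho
  set J : ℕ := A.powerset.sup (fun T => Nat.clog 2 (o T)) with hJ
  set S : ℕ → Finset ℕ := fun j => A.filter (fun p => ∃ i : ℕ, 1 ≤ i ∧ i ≤ 2 ^ j ∧ p ∣ 2 ^ i - 1) with hS
  have hprodnn : ∀ T : Finset ℕ, 0 ≤ ∏ p ∈ T, gw p := fun T => Finset.prod_nonneg fun p _ => rt_gw_nonneg p
  -- the pointwise bound
  have hpt : ∀ T ∈ A.powerset, (∏ p ∈ T, gw p) * (1 / (o T : ℝ)) ≤
      (if T = ∅ then 1 else 0) +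
        ∑ j ∈ Icc 1 J, (if T ⊆ S j then (2 / 2 ^ j : ℝ) * ∏ p ∈ T, gw p else 0) := by
    intro T hT
    have hT' : T ⊆ A := Finset.mem_powerset.1 hT
    have hnn : ∀ j ∈ Icc 1 J, (0 : ℝ) ≤ (if T ⊆ S j then (2 / 2 ^ j : ℝ) * ∏ p ∈ T, gw p else 0) := by
      intro j _
      split_ifs
      · exact mul_nonneg (by positivity) (hprodnn T)
      · exact le_rfl
    by_cases hT0 : T = ∅
    · have h1 := Finset.sum_nonneg hnn
      rw [if_pos hT0]
      have h2 : (∏ p ∈ T, gw p) = 1 := by rw [hT0, Finset.prod_empty]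
      have h3 : (1 : ℝ) / (o T : ℝ) ≤ 1 := by
        rcases Nat.eq_zero_or_pos (o T) with h | h
        · rw [h]; norm_num
        · rw [div_le_one (by exact_mod_cast h)]
          exact_mod_cast h
      have h4 : (∏ p ∈ T, gw p) * (1 / (o T : ℝ)) ≤ 1 := by
        rw [h2, one_mul]; exact h3
      linarith [h1, h4]
    · rw [if_neg hT0, zero_add]
      obtain ⟨h2, hi⟩ := rt_facts Y T hT' (Finset.nonempty_iff_ne_empty.2 hT0)
      change 2 ≤ o T at h2
      change ∀ p ∈ T, ∃ i : ℕ, 1 ≤ i ∧ i ≤ o T ∧ p ∣ 2 ^ i - 1 at hi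
      set j : ℕ := Nat.clog 2 (o T) with hj
      have hj1 : 1 ≤ j := Nat.clog_pos (by norm_num) h2
      have hjJ : j ≤ J := Finset.le_sup (f := fun T => Nat.clog 2 (o T)) hT
      have hle : o T ≤ 2 ^ j := Nat.le_pow_clog (by norm_num) _
      have hlt : 2 ^ (j - 1) < o T := by
        have := Nat.pow_pred_clog_lt_self (b := 2) (by norm_num) (x := o T) (by omega)
        rwa [← hj, Nat.pred_eq_sub_one] at this
      have hTS : T ⊆ S j := by
        intro p hp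
        rw [hS]
        refine Finset.mem_filter.2 ⟨hT' hp, ?_⟩
        obtain ⟨i, h3, h4, h5⟩ := hi p hp
        exact ⟨i, h3, h4.trans hle, h5⟩
      have h3 : (1 : ℝ) / (o T : ℝ) ≤ 2 / 2 ^ j := by
        have ho0 : (0 : ℝ) < o T := by exact_mod_cast (by omega : 0 < o T)
        rw [div_le_div_iff₀ ho0 (by positivity), one_mul]
        have h4 : 2 ^ j = 2 * 2 ^ (j - 1) := by
          rw [← pow_succ']
          congr 1
          omega
        have h5 : (2 : ℕ) ^ j ≤ 2 * o T := by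
          rw [h4]
          omega
        exact_mod_cast h5
      calc (∏ p ∈ T, gw p) * (1 / (o T : ℝ)) ≤ (∏ p ∈ T, gw p) * (2 / 2 ^ j) :=
            mul_le_mul_of_nonneg_left h3 (hprodnn T)
        _ = (if T ⊆ S j then (2 / 2 ^ j : ℝ) * ∏ p ∈ T, gw p else 0) := by
            rw [if_pos hTS, mul_comm]
        _ ≤ _ := Finset.single_le_sum (f := fun j => (if T ⊆ S j then (2 / 2 ^ j : ℝ) *
            ∏ p ∈ T, gw p else 0)) hnn (Finset.mem_Icc.2 ⟨hj1, hjJ⟩)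
  refine (Finset.sum_le_sum hpt).trans ?_
  rw [Finset.sum_add_distrib]
  refine add_le_add ?_ ?_
  · rw [Finset.sum_ite_eq' A.powerset ∅ (fun _ => (1 : ℝ))]
    split_ifs <;> norm_num
  · rw [Finset.sum_comm]
    have hj : ∀ j ∈ Icc 1 J, ∑ T ∈ A.powerset,
        (if T ⊆ S j then (2 / 2 ^ j : ℝ) * ∏ p ∈ T, gw p else 0) ≤
        2 * Real.exp (4 * C) * ((j : ℝ) ^ 4 * (1 / 2 : ℝ) ^ j) := by
      intro j hj
      have hj1 : 1 ≤ j := (Finset.mem_Icc.1 hj).1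
      have hjR : (0 : ℝ) < j := by exact_mod_cast hj1
      rw [← Finset.sum_filter]
      have h1 : A.powerset.filter (fun T => T ⊆ S j) = (S j).powerset := by
        ext T
        rw [Finset.mem_filter, Finset.mem_powerset, Finset.mem_powerset]
        exact ⟨fun h => h.2, fun h => ⟨h.trans (Finset.filter_subset _ _), h⟩⟩
      rw [h1, ← Finset.mul_sum, rt_prod]
      have h2 := hord j hj1 (S j) (by
        intro p hp
        obtain ⟨h3, h4⟩ := Finset.mem_filter.1 hp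
        exact ⟨(Finset.mem_filter.1 h3).2.1, h4⟩)
      have h3 : Real.exp (4 * ∑ p ∈ S j, (1 : ℝ) / p) ≤ (j : ℝ) ^ 4 * Real.exp (4 * C) := by
        have h4 : (j : ℝ) ^ 4 * Real.exp (4 * C) = Real.exp (4 * (Real.log j + C)) := by
          rw [mul_add, Real.exp_add]
          congr 1
          rw [show (4 : ℝ) * Real.log j = Real.log j * 4 by ring, ← Real.rpow_def_of_pos hjR]
          norm_num
        rw [h4]
        exact Real.exp_le_exp.2 (by linarith)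
      calc (2 / 2 ^ j : ℝ) * Real.exp (4 * ∑ p ∈ S j, (1 : ℝ) / p)
          ≤ (2 / 2 ^ j : ℝ) * ((j : ℝ) ^ 4 * Real.exp (4 * C)) :=
            mul_le_mul_of_nonneg_left h3 (by positivity)
        _ = _ := by
            rw [one_div, inv_pow]
            ring
    refine (Finset.sum_le_sum hj).trans ?_
    rw [← Finset.mul_sum]
    refine mul_le_mul_of_nonneg_left ?_ (by positivity)
    exact hsum.sum_le_tsum _ fun n _ => by positivity

/-- `∏ (1 + gw p) = exp(4 ∑ 1/p) ≤ C (log Y)^4`. -/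
theorem rom_total : ∃ C : ℝ, 1 ≤ C ∧ ∀ Y : ℕ, 2 ≤ Y →
    ∑ T ∈ ((Icc 1 Y).filter (fun p => p.Prime ∧ p ≠ 2)).powerset, ∏ p ∈ T, gw p ≤ C * (Real.log Y) ^ 4 := by
  obtain ⟨C, hC⟩ := mertens
  refine ⟨Real.exp (4 * |C|), Real.one_le_exp (by positivity), ?_⟩
  intro Y hY
  have hYR : (2 : ℝ) ≤ Y := by exact_mod_cast hY
  have hlog : 0 < Real.log Y := Real.log_pos (by linarith)
  rw [rt_prod]
  have h1 : ∑ p ∈ (Icc 1 Y).filter (fun p => p.Prime ∧ p ≠ 2), (1 : ℝ) / p ≤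
      ∑ p ∈ (Icc 1 Y).filter (fun p => p.Prime), (1 : ℝ) / p := by
    refine Finset.sum_le_sum_of_subset_of_nonneg ?_ fun p _ _ => by positivity
    intro p hp
    rw [Finset.mem_filter] at hp ⊢
    exact ⟨hp.1, hp.2.1⟩
  have h2 := h1.trans (hC Y hY)
  have h3 : Real.exp (4 * |C|) * (Real.log Y) ^ 4 = Real.exp (4 * (Real.log (Real.log Y) + |C|)) := by
    rw [mul_add, Real.exp_add, mul_comm]
    congr 1
    rw [show (4 : ℝ) * Real.log (Real.log Y) = Real.log (Real.log Y) * 4 by ring,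
      ← Real.rpow_def_of_pos hlog]
    norm_num
  rw [h3]
  refine Real.exp_le_exp.2 ?_
  have := le_abs_self C
  linarith

end Pool.Agent.Lib.MP_629a14_nt.Ck
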