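import Pool.Agent.Lib.MP_629a14_nt.Ck.Defs

/-! From tuples to sets of binary digits. -/

set_option autoImplicit false

namespace Pool.Agent.Lib.MP_629a14_nt.Ck

open Finset Pool.Agent.Lib.MP_629a14_nt

/-- The fibre over one set. -/
private theorem Tup_fibre (n m : ℕ) (A : Finset ℕ) (hA : A ∈ powersetCard m (Icc 1 n)) :
    m.factorial ≤ ((univ : Finset (Fin m → Fin n)).filter
      (fun t => univ.image (fun i => (t i : ℕ) + 1) = A)).card := by
  rw [mem_powersetCard] at hA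
  obtain ⟨hsub, hcard⟩ := hA
  have hmem : ∀ i : Fin m, (A.orderEmbOfFin hcard i) ∈ Icc 1 n := fun i =>
    hsub (A.orderEmbOfFin_mem hcard i)
  have hlt : ∀ i : Fin m, (A.orderEmbOfFin hcard i) - 1 < n := by
    intro i
    have := mem_Icc.1 (hmem i)
    omega
  have hpos : ∀ i : Fin m, 1 ≤ (A.orderEmbOfFin hcard i) := fun i => (mem_Icc.1 (hmem i)).1
  have h1 : m.factorial = (univ : Finset (Equiv.Perm (Fin m))).card := by
    rw [card_univ, Fintype.card_perm, Fintype.card_fin]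
  rw [h1]
  refine card_le_card_of_injOn
    (fun σ i => (⟨A.orderEmbOfFin hcard (σ i) - 1, hlt (σ i)⟩ : Fin n)) ?_ ?_
  · intro σ _
    rw [mem_coe, mem_filter]
    refine ⟨mem_univ _, ?_⟩
    have h2 : (fun i : Fin m => ((⟨A.orderEmbOfFin hcard (σ i) - 1, hlt (σ i)⟩ : Fin n) : ℕ) + 1) =
        (A.orderEmbOfFin hcard) ∘ σ := by
      funext i
      have := hpos (σ i)
      simp only [Function.comp_apply]
      omega
    rw [h2]
    have h3 : (univ : Finset (Fin m)).image ((A.orderEmbOfFin hcard) ∘ σ) =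
        univ.image (A.orderEmbOfFin hcard) := by
      rw [← image_image, image_univ_equiv]
    rw [h3, ← coe_inj, coe_image, coe_univ, Set.image_univ, range_orderEmbOfFin]
  · intro σ _ τ _ h
    ext i
    have h4 := congrFun h i
    simp only [Fin.mk.injEq] at h4
    have h5 := hpos (σ i)
    have h6 := hpos (τ i)
    have h7 : A.orderEmbOfFin hcard (σ i) = A.orderEmbOfFin hcard (τ i) := by omega
    rw [(A.orderEmbOfFin hcard).injective h7]

/-- Proof. For every `m`-element set `A ⊆ Icc 1 n` there are `m!` injective maps `t : Fin m → Fin n` with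
`A = {t i + 1}` (compose the increasing enumeration of `A` with the permutations of `Fin m`), and then
`∑_{a ∈ A} 2^a = ∑_i 2^(t i + 1)`; different `A` have different `t`. -/
theorem tup_fin (n m : ℕ) (Q : ℕ → Prop) [DecidablePred Q] :
    m.factorial * ((powersetCard m (Icc 1 n)).filter (fun A => Q (∑ a ∈ A, 2 ^ a))).card ≤
      ((univ : Finset (Fin m → Fin n)).filter (fun t => Q (∑ i, 2 ^ ((t i : ℕ) + 1)))).card := by
  set S := (powersetCard m (Icc 1 n)).filter (fun A => Q (∑ a ∈ A, 2 ^ a)) with hS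
  set im : (Fin m → Fin n) → Finset ℕ := fun t => univ.image (fun i => (t i : ℕ) + 1) with him
  have hsum : ∀ t : Fin m → Fin n, (im t).card = m →
      ∑ a ∈ im t, 2 ^ a = ∑ i, 2 ^ ((t i : ℕ) + 1) := by
    intro t ht
    have hinj : Set.InjOn (fun i => (t i : ℕ) + 1) ((univ : Finset (Fin m)) : Set (Fin m)) := by
      apply card_image_iff.1
      rw [card_univ, Fintype.card_fin]
      exact ht
    simp only [him]
    rw [sum_image (fun x hx y hy h => hinj hx hy h)]
  have h1 : (univ.filter (fun t : Fin m → Fin n => im t ∈ S)).card ≤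
      ((univ : Finset (Fin m → Fin n)).filter (fun t => Q (∑ i, 2 ^ ((t i : ℕ) + 1)))).card := by
    refine card_le_card fun t ht => ?_
    rw [mem_filter] at ht ⊢
    refine ⟨mem_univ _, ?_⟩
    have h2 := ht.2
    rw [hS, mem_filter, mem_powersetCard] at h2
    rw [← hsum t h2.1.2]
    exact h2.2
  refine le_trans ?_ h1
  rw [card_eq_sum_card_fiberwise (f := im) (t := S) (fun t ht => by
    rw [mem_coe, mem_filter] at ht
    exact ht.2)]
  rw [mul_comm, ← smul_eq_mul]
  refine card_nsmul_le_sum _ _ _ fun A hA => ?_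
  refine (Tup_fibre n m A ((mem_filter.1 (hS ▸ hA)).1)).trans (card_le_card fun t ht => ?_)
  rw [mem_filter] at ht
  rw [mem_filter, mem_filter]
  have h3 : im t = A := ht.2
  exact ⟨⟨mem_univ _, h3 ▸ hA⟩, h3⟩

/-- The equivalence `(Fin (k+4) → Fin n) ≃ (Fin n × Fin n) × (Fin n × Fin n) × (Fin k → Fin n)`. -/
theorem tup_four (n k : ℕ) (Q : ℕ → Prop) [DecidablePred Q] :
    ((univ : Finset (Fin (k + 4) → Fin n)).filter (fun t => Q (∑ i, 2 ^ ((t i : ℕ) + 1)))).card =
    ((univ : Finset ((Fin n × Fin n) × (Fin n × Fin n) × (Fin k → Fin n))).filter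
      (fun t => Q (2 ^ ((t.1.1 : ℕ) + 1) + 2 ^ ((t.1.2 : ℕ) + 1) +
        (2 ^ ((t.2.1.1 : ℕ) + 1) + 2 ^ ((t.2.1.2 : ℕ) + 1)) + ∑ i, 2 ^ ((t.2.2 i : ℕ) + 1)))).card := by
  refine card_nbij'
    (fun t : Fin (k + 1 + 1 + 1 + 1) → Fin n => ((t 0, t (Fin.succ 0)),
      (t (Fin.succ (Fin.succ 0)), t (Fin.succ (Fin.succ (Fin.succ 0)))),
      fun i : Fin k => t i.succ.succ.succ.succ))
    (fun t => (Fin.cons t.1.1 (Fin.cons t.1.2 (Fin.cons t.2.1.1 (Fin.cons t.2.1.2 t.2.2)))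
      : Fin (k + 1 + 1 + 1 + 1) → Fin n)) ?_ ?_ ?_ ?_
  · intro t ht
    simp only [coe_filter, mem_univ, true_and, Set.mem_ofPred_eq] at ht ⊢
    convert ht using 1
    rw [Fin.sum_univ_succ, Fin.sum_univ_succ, Fin.sum_univ_succ, Fin.sum_univ_succ]
    ring
  · intro t ht
    simp only [coe_filter, mem_univ, true_and, Set.mem_ofPred_eq] at ht ⊢
    convert ht using 1
    rw [Fin.sum_univ_succ, Fin.sum_univ_succ, Fin.sum_univ_succ, Fin.sum_univ_succ]
    simp only [Fin.cons_zero, Fin.cons_succ]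
    ring
  · intro t _
    funext i
    refine Fin.cases ?_ (fun i => ?_) i
    · rfl
    refine Fin.cases ?_ (fun i => ?_) i
    · rfl
    refine Fin.cases ?_ (fun i => ?_) i
    · rfl
    refine Fin.cases ?_ (fun i => ?_) i
    · rfl
    · rfl
  · intro t _
    rfl

/-- `n (n-1) ... (n-m+1) ≥ n^m (1 - m²/(2n)) ≥ n^m / 2` if `m² ≤ n`. -/
theorem choose_low (n m : ℕ) (h : m ^ 2 ≤ n) : (n : ℝ) ^ m ≤ 2 * ((m.factorial : ℝ) * (n.choose m : ℝ)) := by
  rcases Nat.eq_zero_or_pos n with hn | hn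
  · subst hn
    have : m = 0 := by
      by_contra hm
      have : 0 < m ^ 2 := by positivity
      omega
    subst this
    norm_num
  have hn' : (0 : ℝ) < n := by exact_mod_cast hn
  have h1 : ∀ j : ℕ, j ≤ n → (n : ℝ) ^ j * (1 - (j : ℝ) * ((j : ℝ) - 1) / (2 * n)) ≤
      (n.descFactorial j : ℝ) := by
    intro j
    induction j with
    | zero => intro _; simp
    | succ j ih =>
      intro hj
      have ih' := ih (by omega)
      rw [Nat.descFactorial_succ, Nat.cast_mul, Nat.cast_sub (by omega)]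
      have hjn : (j : ℝ) ≤ n := by exact_mod_cast (by omega : j ≤ n)
      have h2 : ((n : ℝ) - j) * ((n : ℝ) ^ j * (1 - (j : ℝ) * ((j : ℝ) - 1) / (2 * n))) ≤
          ((n : ℝ) - j) * (n.descFactorial j : ℝ) :=
        mul_le_mul_of_nonneg_left ih' (by linarith)
      refine le_trans ?_ h2
      have h3 : (0 : ℝ) ≤ (j : ℝ) * ((j : ℝ) * ((j : ℝ) - 1) / (2 * n)) := by
        rcases Nat.eq_zero_or_pos j with h0 | h0
        · subst h0; simp
        · have : (1 : ℝ) ≤ j := by exact_mod_cast h0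
          have h4 : (0 : ℝ) ≤ (j : ℝ) - 1 := by linarith
          positivity
      have h5 : ((n : ℝ) - j) * ((n : ℝ) ^ j * (1 - (j : ℝ) * ((j : ℝ) - 1) / (2 * n))) -
          (n : ℝ) ^ (j + 1) * (1 - ((j + 1 : ℕ) : ℝ) * (((j + 1 : ℕ) : ℝ) - 1) / (2 * n)) =
          (n : ℝ) ^ j * ((j : ℝ) * ((j : ℝ) * ((j : ℝ) - 1) / (2 * n))) := by
        push_cast
        field_simp
        ring
      have h6 : 0 ≤ (n : ℝ) ^ j * ((j : ℝ) * ((j : ℝ) * ((j : ℝ) - 1) / (2 * n))) :=
        mul_nonneg (by positivity) h3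
      linarith
  have hmn : m ≤ n := le_trans (Nat.le_self_pow (by norm_num) m) h
  have h2 := h1 m hmn
  have h3 : (1 : ℝ) / 2 ≤ 1 - (m : ℝ) * ((m : ℝ) - 1) / (2 * n) := by
    have h4 : (m : ℝ) ^ 2 ≤ n := by exact_mod_cast h
    have h5 : (m : ℝ) * ((m : ℝ) - 1) / (2 * n) ≤ 1 / 2 := by
      rw [div_le_div_iff₀ (by positivity) (by norm_num)]
      have : (0 : ℝ) ≤ m := by positivity
      nlinarith
    linarith
  have h4 : (n.descFactorial m : ℝ) = (m.factorial : ℝ) * (n.choose m : ℝ) := by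
    rw [Nat.descFactorial_eq_factorial_mul_choose]
    push_cast
    rfl
  rw [h4] at h2
  have h5 : (n : ℝ) ^ m * (1 / 2) ≤ (n : ℝ) ^ m * (1 - (m : ℝ) * ((m : ℝ) - 1) / (2 * n)) :=
    mul_le_mul_of_nonneg_left h3 (by positivity)
  linarith

/-- Proof. `C(n - r, m)/C(n, m) = ∏_{i < m} (1 - r/(n - i)) ≥ 1 - m r/(n - m)`. -/
theorem choose_top (n m r : ℕ) (hr : r ≤ n) (h : 2 * m ≤ n) :
    (n.choose m : ℝ) - ((n - r).choose m : ℝ) ≤ 2 * m * r / n * (n.choose m : ℝ) := by
  rcases Nat.eq_zero_or_pos m with hm | hm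
  · subst hm
    simp
  obtain ⟨m, rfl⟩ : ∃ m', m = m' + 1 := ⟨m - 1, by omega⟩
  obtain ⟨n, rfl⟩ : ∃ n', n = n' + 1 := ⟨n - 1, by omega⟩
  have h1 : ∀ r : ℕ, r ≤ n + 1 → ((n + 1).choose (m + 1) : ℝ) -
      ((n + 1 - r).choose (m + 1) : ℝ) ≤ r * (n.choose m : ℝ) := by
    intro r
    induction r with
    | zero => intro _; simp
    | succ r ih =>
      intro hr
      have ih' := ih (by omega)
      have h2 : n + 1 - r = (n - r) + 1 := by omega
      have h3 : n + 1 - (r + 1) = n - r := by omega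
      have h5 : ((n - r + 1).choose (m + 1) : ℝ) = ((n - r).choose m : ℝ) +
          ((n - r).choose (m + 1) : ℝ) := by
        exact_mod_cast Nat.choose_succ_succ' (n - r) m
      rw [h2, h5] at ih'
      rw [h3]
      have h4 : ((n - r).choose m : ℝ) ≤ (n.choose m : ℝ) := by
        exact_mod_cast Nat.choose_le_choose m (Nat.sub_le n r)
      push_cast at ih' ⊢
      linarith
  have h2 := h1 r hr
  have h3 : ((n : ℝ) + 1) * (n.choose m : ℝ) = ((n + 1).choose (m + 1) : ℝ) * ((m : ℝ) + 1) := by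
    exact_mod_cast Nat.add_one_mul_choose_eq n m
  have hn : (0 : ℝ) < (n : ℝ) + 1 := by positivity
  have h4 : (n.choose m : ℝ) = ((m : ℝ) + 1) / ((n : ℝ) + 1) * ((n + 1).choose (m + 1) : ℝ) := by
    field_simp
    linarith
  refine h2.trans ?_
  rw [h4]
  push_cast
  have h5 : (0 : ℝ) ≤ r * (((m : ℝ) + 1) / ((n : ℝ) + 1) * ((n + 1).choose (m + 1) : ℝ)) := by
    positivity
  have h6 : 2 * ((m : ℝ) + 1) * r / ((n : ℝ) + 1) * ((n + 1).choose (m + 1) : ℝ) =
      2 * (r * (((m : ℝ) + 1) / ((n : ℝ) + 1) * ((n + 1).choose (m + 1) : ℝ))) := by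
    ring
  rw [h6]
  linarith

end Pool.Agent.Lib.MP_629a14_nt.Ck
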