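import Pool.Agent.Lib.MP_629a14_nt.Ck.Weight
import Pool.Agent.Lib.MP_629a14_nt.Th.BinM

/-! The large spectrum of the sums of `k` powers of two. -/

set_option autoImplicit false

namespace Pool.Agent.Lib.MP_629a14_nt.Ck

open Finset Pool.Agent.Lib.MP_629a14_nt Pool.Agent.Lib.MP_629a14_nt.Th MeasureTheory

/-- Expand the product. -/
theorem MM_bb (σ : ℤ) (n k : ℕ) (hn : 1 ≤ n) (α : ℝ) :
    MM (bb σ n k) α = (MM (fun x : Fin n => σ * 2 ^ ((x : ℕ) + 1)) α) ^ k := by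
  unfold MM
  rw [div_pow, Fintype.sum_pow]
  congr 1
  · refine Finset.sum_congr rfl fun t _ => ?_
    have h : ∀ s : Finset (Fin k), ∏ i ∈ s, ee (((σ * 2 ^ ((t i : ℕ) + 1) : ℤ) : ℝ) * α) =
        ee (((σ * ∑ i ∈ s, 2 ^ ((t i : ℕ) + 1) : ℤ) : ℝ) * α) := by
      intro s
      induction s using Finset.induction_on with
      | empty => simp [ee_zero]
      | insert a s ha ih =>
        rw [Finset.prod_insert ha, Finset.sum_insert ha, ih, ← ee_add]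
        congr 1
        push_cast
        ring
    exact (h Finset.univ).symm
  · rw [Fintype.card_fun, Fintype.card_fin, Fintype.card_fin]
    push_cast
    rfl

private theorem Vol_unit (S : ℂ) : ∃ u : ℂ, ‖u‖ = 1 ∧ (u * S).re = ‖S‖ := by
  by_cases h : S = 0
  · exact ⟨1, by simp, by simp [h]⟩
  · refine ⟨(starRingEnd ℂ) S / (‖S‖ : ℂ), ?_, ?_⟩
    · rw [norm_div, Complex.norm_conj, Complex.norm_real, norm_norm,
        div_self (norm_ne_zero_iff.2 h)]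
    · have h1 : (starRingEnd ℂ) S / (‖S‖ : ℂ) * S = ((‖S‖ : ℝ) : ℂ) := by
        have h2 : (starRingEnd ℂ) S * S = ((‖S‖ : ℝ) : ℂ) ^ 2 := by
          rw [mul_comm, Complex.mul_conj']
        have h3 : ((‖S‖ : ℝ) : ℂ) ≠ 0 := by
          exact_mod_cast norm_ne_zero_iff.2 h
        rw [div_mul_eq_mul_div, h2, sq, mul_div_assoc, div_self h3, mul_one]
      rw [h1, Complex.ofReal_re]

private theorem Vol_sum (n : ℕ) (f : ℕ → ℝ) : ∑ a ∈ Icc 1 n, f a = ∑ x : Fin n, f ((x : ℕ) + 1) := by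
  rw [Fin.sum_univ_eq_sum_range (fun i => f (i + 1)) n]
  have : Icc 1 n = Ico 1 (n + 1) := by
    ext a
    simp only [mem_Icc, mem_Ico]
    omega
  rw [this, Finset.sum_Ico_eq_sum_range]
  refine Finset.sum_congr (by simp) fun i _ => ?_
  rw [add_comm]

private theorem Vol_one (n : ℕ) (hn : 1 ≤ n) (α κ : ℝ)
    (h : 1 - κ ≤ ‖MM (fun x : Fin n => (1 : ℤ) * 2 ^ ((x : ℕ) + 1)) α‖) :
    ∃ u : ℂ, ‖u‖ = 1 ∧ ∑ a ∈ Icc 1 n, (1 - (u * ee (2 ^ a * α)).re) ≤ κ * n := by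
  have hn0 : (0 : ℝ) < n := by exact_mod_cast hn
  set S : ℂ := ∑ x : Fin n, ee (2 ^ ((x : ℕ) + 1) * α) with hS
  have hM : MM (fun x : Fin n => (1 : ℤ) * 2 ^ ((x : ℕ) + 1)) α = S / (n : ℂ) := by
    unfold MM
    rw [Fintype.card_fin, hS]
    congr 1
    refine Finset.sum_congr rfl fun x _ => ?_
    congr 1
    push_cast
    ring
  rw [hM, norm_div, Complex.norm_natCast, le_div_iff₀ hn0] at h
  obtain ⟨u, hu, hre⟩ := Vol_unit S
  refine ⟨u, hu, ?_⟩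
  rw [Vol_sum n (fun a => 1 - (u * ee (2 ^ a * α)).re), Finset.sum_sub_distrib]
  have h1 : ∑ x : Fin n, (u * ee (2 ^ ((x : ℕ) + 1) * α)).re = (u * S).re := by
    rw [hS, Finset.mul_sum, Complex.re_sum]
  rw [h1, hre]
  simp only [sum_const, card_univ, Fintype.card_fin, nsmul_eq_mul, mul_one]
  linarith

/-- If the mean of the `e(σ 2^a α)` has absolute value at least `1 - κ` then `∑_a (1 - Re(u e(2^a α))) ≤ κ n` for some
`‖u‖ = 1` (for `σ = -1` take conjugates). -/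
theorem MM_one (σ : ℤ) (hσ : σ = 1 ∨ σ = -1) (n : ℕ) (hn : 1 ≤ n) (α κ : ℝ)
    (h : 1 - κ ≤ ‖MM (fun x : Fin n => σ * 2 ^ ((x : ℕ) + 1)) α‖) :
    ∃ u : ℂ, ‖u‖ = 1 ∧ ∑ a ∈ Icc 1 n, (1 - (u * ee (2 ^ a * α)).re) ≤ κ * n := by
  rcases hσ with rfl | rfl
  · exact Vol_one n hn α κ h
  · apply Vol_one n hn α κ
    have h1 : MM (fun x : Fin n => (-1 : ℤ) * 2 ^ ((x : ℕ) + 1)) α =
        (starRingEnd ℂ) (MM (fun x : Fin n => (1 : ℤ) * 2 ^ ((x : ℕ) + 1)) α) := by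
      unfold MM
      rw [map_div₀, map_sum, Complex.conj_natCast]
      congr 1
      refine Finset.sum_congr rfl fun x _ => ?_
      rw [conj_ee]
      congr 1
      push_cast
      ring
    rw [h1, Complex.norm_conj] at h
    exact h

/-- The choice of the parameter. -/
private theorem Vol_param (c : ℝ) (hc : 0 < c) : ∃ K n₁ : ℕ, 1 ≤ K ∧ 1 ≤ n₁ ∧ ∀ n : ℕ, n₁ ≤ n →
    4 * ∑ i ∈ range (⌊(n : ℝ) / K⌋₊ + 1), (n.choose i : ℝ) ≤ (2 : ℝ) ^ (c * n) := by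
  have hl2 : 0 < Real.log 2 := Real.log_pos (by norm_num)
  have hlim : Filter.Tendsto (fun K : ℕ => Real.log (2 * Real.exp 1 * K) / K) Filter.atTop (nhds 0) := by
    have h1 : Filter.Tendsto (fun x : ℝ => Real.log x / x) Filter.atTop (nhds 0) :=
      Real.isLittleO_log_id_atTop.tendsto_div_nhds_zero
    have h2 : Filter.Tendsto (fun K : ℕ => 2 * Real.exp 1 * (K : ℝ)) Filter.atTop Filter.atTop :=
      Filter.Tendsto.const_mul_atTop (by positivity) tendsto_natCast_atTop_atTop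
    have h3 := (h1.comp h2).const_mul (2 * Real.exp 1)
    rw [mul_zero] at h3
    refine h3.congr fun K => ?_
    simp only [Function.comp_apply]
    rcases eq_or_ne (K : ℝ) 0 with h4 | h4
    · simp [h4]
    · have := Real.exp_pos 1
      field_simp
  have hev : ∀ᶠ K : ℕ in Filter.atTop, Real.log (2 * Real.exp 1 * K) / K < c / 2 * Real.log 2 :=
    hlim.eventually_lt_const (by positivity)
  obtain ⟨K, hK, hK1⟩ := (hev.and (Filter.eventually_ge_atTop 1)).exists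
  have hKr : (1 : ℝ) ≤ K := by exact_mod_cast hK1
  have hK0 : (0 : ℝ) < K := by linarith
  obtain ⟨n₂, hn₂⟩ := exists_nat_ge (4 / c)
  refine ⟨K, max (2 * K) n₂, hK1, by omega, ?_⟩
  intro n hn
  have hn2K : 2 * K ≤ n := le_of_max_le_left hn
  have hnn2 : n₂ ≤ n := le_of_max_le_right hn
  have hnr : (2 : ℝ) * K ≤ n := by exact_mod_cast hn2K
  have hn0 : (0 : ℝ) < n := by linarith
  set m : ℕ := ⌊(n : ℝ) / K⌋₊ with hm
  have hm1 : (m : ℝ) ≤ (n : ℝ) / K := Nat.floor_le (by positivity)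
  have hm2 : (n : ℝ) / K < m + 1 := Nat.lt_floor_add_one _
  have hnK : (2 : ℝ) ≤ (n : ℝ) / K := by rw [le_div_iff₀ hK0]; exact hnr
  have hm3 : 1 ≤ m := by
    rw [hm]
    apply Nat.le_floor
    push_cast
    linarith
  have hm4 : m ≤ n := by
    have : (m : ℝ) ≤ n := hm1.trans (div_le_self hn0.le hKr)
    exact_mod_cast this
  have hm0 : (0 : ℝ) < m := by exact_mod_cast hm3
  have h1 := choose_sum n m hm3 hm4
  have hbase : Real.exp 1 * n / m ≤ 2 * Real.exp 1 * K := by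
    rw [div_le_iff₀ hm0]
    have h2 : (n : ℝ) / K ≤ 2 * m := by linarith
    have h3 : (n : ℝ) ≤ 2 * m * K := by rwa [div_le_iff₀ hK0] at h2
    have h4 := Real.exp_pos 1
    nlinarith
  have hb0 : 0 ≤ Real.exp 1 * n / m := by positivity
  have hbig : 1 ≤ 2 * Real.exp 1 * K := by
    have h4 : (1 : ℝ) ≤ Real.exp 1 := Real.one_le_exp (by norm_num)
    nlinarith
  have hlog : 0 ≤ Real.log (2 * Real.exp 1 * K) := Real.log_nonneg hbig
  have h2 : (Real.exp 1 * n / m) ^ m ≤ (2 : ℝ) ^ (c / 2 * n) := by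
    calc (Real.exp 1 * n / m) ^ m ≤ (2 * Real.exp 1 * K) ^ m := pow_le_pow_left₀ hb0 hbase m
      _ = Real.exp (m * Real.log (2 * Real.exp 1 * K)) := by
          rw [Real.exp_nat_mul, Real.exp_log (by linarith)]
      _ ≤ Real.exp (c / 2 * Real.log 2 * n) := by
          apply Real.exp_le_exp.2
          have h5 : (m : ℝ) * Real.log (2 * Real.exp 1 * K) ≤
              (n : ℝ) / K * Real.log (2 * Real.exp 1 * K) := mul_le_mul_of_nonneg_right hm1 hlog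
          have h6 : (n : ℝ) / K * Real.log (2 * Real.exp 1 * K) =
              n * (Real.log (2 * Real.exp 1 * K) / K) := by ring
          have h7 : (n : ℝ) * (Real.log (2 * Real.exp 1 * K) / K) ≤ n * (c / 2 * Real.log 2) :=
            mul_le_mul_of_nonneg_left hK.le hn0.le
          linarith
      _ = (2 : ℝ) ^ (c / 2 * n) := by
          rw [Real.rpow_def_of_pos (by norm_num)]
          congr 1
          ring
  have h3 : (4 : ℝ) ≤ (2 : ℝ) ^ (c / 2 * n) := by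
    have h4 : (4 : ℝ) = (2 : ℝ) ^ (2 : ℝ) := by
      rw [show (2 : ℝ) = ((2 : ℕ) : ℝ) by norm_num, Real.rpow_natCast]; norm_num
    rw [h4]
    apply Real.rpow_le_rpow_of_exponent_le (by norm_num)
    have h5 : 4 / c ≤ n := hn₂.trans (by exact_mod_cast hnn2)
    rw [div_le_iff₀ hc] at h5
    linarith
  have h0 : (0 : ℝ) ≤ ∑ i ∈ range (m + 1), (n.choose i : ℝ) := Finset.sum_nonneg fun i _ => Nat.cast_nonneg _
  calc 4 * ∑ i ∈ range (m + 1), (n.choose i : ℝ)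
      ≤ (2 : ℝ) ^ (c / 2 * n) * (2 : ℝ) ^ (c / 2 * n) := mul_le_mul h3 (h1.trans h2) h0 (by positivity)
    _ = (2 : ℝ) ^ (c * n) := by
        rw [← Real.rpow_add (by norm_num)]
        congr 1
        ring

/-- Proof. Choose `κ > 0` small in terms of `c` such that (`digit_measure`, `choose_sum`)
`4 · 2^(-n) ∑_{i ≤ 16 κ n} C(n,i) ≤ (2^n)^(-1+c)` for `n ≥ n₁`, and `k₁` with `(1-κ)^{k₁} ≤ τ/2`; use `MM_bb`, `MM_one`. -/
theorem vol (c τ : ℝ) (hc : 0 < c) (hτ : 0 < τ) : ∃ k₁ n₁ : ℕ, ∀ k n : ℕ, k₁ ≤ k → n₁ ≤ n →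
    ∀ σ : ℤ, (σ = 1 ∨ σ = -1) →
    volume {α : ℝ | α ∈ Set.Icc (0 : ℝ) 1 ∧ τ ≤ ‖MM (bb σ n k) α‖} ≤
      ENNReal.ofReal (((2 : ℝ) ^ n) ^ (-1 + c)) := by
  obtain ⟨K, n₁, hK1, hn₁, hmain⟩ := Vol_param c hc
  have hKr : (1 : ℝ) ≤ K := by exact_mod_cast hK1
  have hK0 : (0 : ℝ) < K := by linarith
  set κ : ℝ := 1 / (16 * K) with hκ
  have hκ0 : 0 < κ := by positivity
  have hκ1 : κ < 1 := by
    rw [hκ, div_lt_one (by positivity)]
    linarith
  obtain ⟨k₁, hk₁⟩ := exists_pow_lt_of_lt_one hτ (show 1 - κ < 1 by linarith)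
  refine ⟨k₁, n₁, ?_⟩
  intro k n hk hn σ hσ
  have hn1 : 1 ≤ n := hn₁.trans hn
  have hsub : {α : ℝ | α ∈ Set.Icc (0 : ℝ) 1 ∧ τ ≤ ‖MM (bb σ n k) α‖} ⊆
      {α : ℝ | α ∈ Set.Icc (0 : ℝ) 1 ∧ ∃ u : ℂ, ‖u‖ = 1 ∧
        ∑ a ∈ Icc 1 n, (1 - (u * ee (2 ^ a * α)).re) ≤ κ * n} := by
    rintro α ⟨hα, h⟩
    refine ⟨hα, MM_one σ hσ n hn1 α κ ?_⟩
    by_contra hcon
    push Not at hcon
    rw [MM_bb σ n k hn1, norm_pow] at h
    have h1 : ‖MM (fun x : Fin n => σ * 2 ^ ((x : ℕ) + 1)) α‖ ^ k ≤ (1 - κ) ^ k :=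
      pow_le_pow_left₀ (norm_nonneg _) hcon.le k
    have h2 : (1 - κ) ^ k ≤ (1 - κ) ^ k₁ := pow_le_pow_of_le_one (by linarith) (by linarith) hk
    linarith
  refine (measure_mono hsub).trans ((digit_measure n hn1 κ hκ0.le).trans ?_)
  apply ENNReal.ofReal_le_ofReal
  have hfl : (16 * κ * n : ℝ) = (n : ℝ) / K := by
    rw [hκ]
    field_simp
  rw [hfl]
  have h1 := hmain n hn
  have h2 : ((2 : ℝ) ^ n) ^ (-1 + c) = (1 / 2 : ℝ) ^ n * (2 : ℝ) ^ (c * n) := by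
    rw [← Real.rpow_natCast 2 n, ← Real.rpow_mul (by norm_num), one_div, inv_pow,
      ← Real.rpow_natCast 2 n, ← Real.rpow_neg (by norm_num), ← Real.rpow_add (by norm_num)]
    congr 1
    ring
  rw [h2]
  calc 4 * (1 / 2 : ℝ) ^ n * ∑ i ∈ range (⌊(n : ℝ) / K⌋₊ + 1), (n.choose i : ℝ)
      = (1 / 2 : ℝ) ^ n * (4 * ∑ i ∈ range (⌊(n : ℝ) / K⌋₊ + 1), (n.choose i : ℝ)) := by ring
    _ ≤ (1 / 2 : ℝ) ^ n * (2 : ℝ) ^ (c * n) := mul_le_mul_of_nonneg_left h1 (by positivity)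

end Pool.Agent.Lib.MP_629a14_nt.Ck
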