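import Pool.Agent.Lib.MP_629a14_nt.Ck.Defs
import Pool.Agent.Lib.MP_629a14_nt.Th.Spec

/-! The distribution of the family and its Fourier transform. -/

set_option autoImplicit false

namespace Pool.Agent.Lib.MP_629a14_nt.Ck

open Finset Pool.Agent.Lib.MP_629a14_nt Pool.Agent.Lib.MP_629a14_nt.Th

theorem MM_le_one {ι : Type} [Fintype ι] (a : ι → ℤ) (α : ℝ) : ‖MM a α‖ ≤ 1 := by
  unfold MM
  rw [norm_div, Complex.norm_natCast]
  have h1 : ‖∑ i, ee (a i * α)‖ ≤ (Fintype.card ι : ℝ) := by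
    refine (norm_sum_le _ _).trans (le_of_eq ?_)
    simp [norm_ee]
  exact div_le_one_of_le₀ h1 (Nat.cast_nonneg _)

theorem MM_add_int {ι : Type} [Fintype ι] (a : ι → ℤ) (α : ℝ) (k : ℤ) : MM a (α + k) = MM a α := by
  unfold MM
  congr 1
  refine sum_congr rfl fun i _ => ?_
  have h1 : (a i : ℝ) * (α + k) = a i * α + ((a i * k : ℤ) : ℝ) := by
    push_cast
    ring
  rw [h1, ee_add, ee_int, mul_one]

private theorem MM_shift_eq {ι : Type} [Fintype ι] (a : ι → ℤ) (c : ℤ) (α : ℝ) :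
    MM (fun i => c + a i) α = ee (c * α) * MM a α := by
  unfold MM
  rw [← mul_div_assoc, mul_sum]
  congr 1
  refine sum_congr rfl fun i _ => ?_
  rw [← ee_add]
  congr 1
  push_cast
  ring

/-- Translates have the same absolute value. -/
theorem MM_shift {ι : Type} [Fintype ι] (a : ι → ℤ) (c : ℤ) (α : ℝ) : ‖MM (fun i => c + a i) α‖ = ‖MM a α‖ := by
  rw [MM_shift_eq, norm_mul, norm_ee, one_mul]

theorem ww_nonneg {ι κ : Type} [Fintype ι] [Fintype κ] (a : ι → ℤ) (b : κ → ℤ) (s : ℤ) (n : ℕ) :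
    0 ≤ ww a b s n := by
  unfold ww
  positivity

open Classical in
private theorem Weight_fib {T : Type} [Fintype T] (x : T → ℤ) (N : ℕ) (h : ∀ t, 1 ≤ x t ∧ x t ≤ N) (F : ℕ → ℂ) :
    ∑ n ∈ Icc 1 N, (((univ : Finset T).filter (fun t => x t = n)).card : ℂ) * F n = ∑ t, F (x t).toNat := by
  have hm : ∀ t ∈ (univ : Finset T), (x t).toNat ∈ Icc 1 N := by
    intro t _
    have := h t
    rw [mem_Icc]
    omega
  rw [← sum_fiberwise_of_maps_to hm]
  refine sum_congr rfl fun n hn => ?_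
  have h1 : (univ.filter fun t => (x t).toNat = n) = univ.filter (fun t => x t = n) := by
    refine filter_congr fun t _ => ?_
    have := h t
    constructor <;> intro h2 <;> omega
  rw [h1, sum_congr rfl (g := fun _ => F n), sum_const, nsmul_eq_mul]
  intro t ht
  have h2 : x t = n := (mem_filter.1 ht).2
  rw [h2, Int.toNat_natCast]

open Classical in
/-- Each `t` has exactly one `n ∈ Icc 1 N` with `nn t = n`, namely `(nn t).toNat`. -/
theorem ww_filter {ι κ : Type} [Fintype ι] [Fintype κ] (a : ι → ℤ) (b : κ → ℤ) (s : ℤ) (N : ℕ)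
    (h : ∀ t, 1 ≤ nn a b s t ∧ nn a b s t ≤ N) (Q : ℕ → Prop) :
    ∑ n ∈ (Icc 1 N).filter (fun n => Q n), ww a b s n =
      (((univ : Finset (ι × ι × κ)).filter (fun t => Q (nn a b s t).toNat)).card : ℝ) /
        ((Fintype.card ι : ℝ) ^ 2 * (Fintype.card κ : ℝ)) := by
  unfold ww
  rw [← sum_div]
  congr 1
  have hm : ∀ t ∈ (univ : Finset (ι × ι × κ)).filter (fun t => Q (nn a b s t).toNat),
      (nn a b s t).toNat ∈ (Icc 1 N).filter (fun n => Q n) := by
    intro t ht
    have h1 := h t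
    rw [mem_filter, mem_Icc]
    refine ⟨?_, (mem_filter.1 ht).2⟩
    omega
  rw [card_eq_sum_card_fiberwise hm]
  push_cast
  refine sum_congr rfl fun n hn => ?_
  congr 2
  rw [mem_filter] at hn
  ext t
  have h1 := h t
  simp only [mem_filter, mem_univ, true_and]
  constructor
  · intro h2
    have h3 : (nn a b s t).toNat = n := by omega
    exact ⟨by rw [h3]; exact hn.2, h3⟩
  · rintro ⟨-, h3⟩
    omega

theorem ww_sum {ι κ : Type} [Fintype ι] [Fintype κ] (a : ι → ℤ) (b : κ → ℤ) (s : ℤ) (N : ℕ)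
    (h : ∀ t, 1 ≤ nn a b s t ∧ nn a b s t ≤ N) : ∑ n ∈ Icc 1 N, ww a b s n ≤ 1 := by
  classical
  have h1 := ww_filter a b s N h (fun _ => True)
  simp only [filter_true] at h1
  rw [h1, card_univ, Fintype.card_prod, Fintype.card_prod]
  refine div_le_one_of_le₀ (le_of_eq ?_) (by positivity)
  push_cast
  ring

/-- `WW (ww a b s) N α = e(s α) (MM a α)² MM b α`. -/
theorem WW_ww {ι κ : Type} [Fintype ι] [Fintype κ] (a : ι → ℤ) (b : κ → ℤ) (s : ℤ) (N : ℕ)
    (h : ∀ t, 1 ≤ nn a b s t ∧ nn a b s t ≤ N) (α : ℝ) :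
    ‖WW (ww a b s) N α‖ = ‖MM a α‖ ^ 2 * ‖MM b α‖ := by
  classical
  have h1 : WW (ww a b s) N α = ee (s * α) * (MM a α ^ 2 * MM b α) := by
    have h2 := Weight_fib (nn a b s) N h (fun n => ee (n * α))
    have h3 : WW (ww a b s) N α =
        (∑ t, ee (((nn a b s t).toNat : ℝ) * α)) / ((Fintype.card ι : ℂ) ^ 2 * (Fintype.card κ : ℂ)) := by
      rw [← h2, sum_div]
      unfold WW ww
      refine sum_congr rfl fun n _ => ?_
      push_cast
      ring
    have h4 : ∀ t : ι × ι × κ, ee (((nn a b s t).toNat : ℝ) * α) =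
        ee (s * α) * (ee (a t.1 * α) * (ee (a t.2.1 * α) * ee (b t.2.2 * α))) := by
      intro t
      have h5 : ((nn a b s t).toNat : ℤ) = nn a b s t := Int.toNat_of_nonneg (by have := (h t).1; omega)
      have h6 : ((nn a b s t).toNat : ℝ) = ((nn a b s t : ℤ) : ℝ) := by exact_mod_cast congrArg (Int.cast (R := ℝ)) h5
      rw [h6, ← ee_add, ← ee_add, ← ee_add]
      congr 1
      unfold nn
      push_cast
      ring
    rw [h3, sum_congr rfl (fun t _ => h4 t), ← mul_sum]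
    have h7 : ∑ t : ι × ι × κ, ee (a t.1 * α) * (ee (a t.2.1 * α) * ee (b t.2.2 * α)) =
        (∑ i, ee (a i * α)) * ((∑ i, ee (a i * α)) * ∑ j, ee (b j * α)) := by
      rw [Fintype.sum_prod_type, sum_mul_sum (s := univ) (t := univ), sum_mul]
      refine sum_congr rfl fun i _ => ?_
      rw [Fintype.sum_prod_type, mul_sum]
      refine sum_congr rfl fun i' _ => ?_
      rw [mul_sum]
    rw [h7]
    unfold MM
    rw [div_pow, div_mul_div_comm, mul_div_assoc]
    congr 1
    ring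
  rw [h1, norm_mul, norm_ee, one_mul, norm_mul, norm_pow]

/-- `Th.spec_count` for `MM b`. Proof: apply `Th.spec_count` to the weights `w n = #{j : c + b j = n}/|κ|` on `Icc 1 N`
(`WW w N α = MM (fun j => c + b j) α`, whose absolute value is `‖MM b α‖` by `MM_shift`). -/
theorem spec_count_MM {κ : Type} [Fintype κ] [Nonempty κ] (b : κ → ℤ) (c : ℤ) (N : ℕ) (hN : 1 ≤ N)
    (hb : ∀ j, 1 ≤ c + b j ∧ c + b j ≤ N) (τ μ : ℝ) (hτ : 0 < τ) (hτ1 : τ ≤ 1) (hμ : 0 ≤ μ)
    (h : MeasureTheory.volume {α : ℝ | α ∈ Set.Icc (0 : ℝ) 1 ∧ τ ≤ ‖MM b α‖} ≤ ENNReal.ofReal μ) :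
    (((range (8 * N)).filter (fun h : ℕ => 2 * τ < ‖MM b ((h : ℝ) / (8 * N : ℕ))‖)).card : ℝ) ≤
      8 * N * μ / τ + 1 := by
  classical
  set w : ℕ → ℝ := fun n => (((univ : Finset κ).filter (fun j => c + b j = n)).card : ℝ) / (Fintype.card κ : ℝ)
    with hw
  have hWW : ∀ α, WW w N α = MM (fun j => c + b j) α := by
    intro α
    have h2 := Weight_fib (fun j => c + b j) N hb (fun n => ee (n * α))
    unfold WW MM
    have h3 : ∀ j : κ, ee (((c + b j).toNat : ℝ) * α) = ee (((c + b j : ℤ) : ℝ) * α) := by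
      intro j
      have h5 : ((c + b j).toNat : ℤ) = c + b j := Int.toNat_of_nonneg (by have := (hb j).1; omega)
      have h6 : ((c + b j).toNat : ℝ) = ((c + b j : ℤ) : ℝ) := by exact_mod_cast congrArg (Int.cast (R := ℝ)) h5
      rw [h6]
    rw [sum_congr rfl (fun j _ => h3 j)] at h2
    rw [← h2, sum_div]
    refine sum_congr rfl fun n _ => ?_
    simp only [hw]
    push_cast
    ring
  have hnorm : ∀ α, ‖WW w N α‖ = ‖MM b α‖ := fun α => by rw [hWW, MM_shift]
  have hw1 : ∑ n ∈ Icc 1 N, w n ≤ 1 := by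
    have h2 := Weight_fib (fun j => c + b j) N hb (fun _ => 1)
    simp only [mul_one, sum_const, card_univ, nsmul_eq_mul] at h2
    have h3 : ∑ n ∈ Icc 1 N, (((univ : Finset κ).filter (fun j => c + b j = n)).card : ℝ) =
        (Fintype.card κ : ℝ) := by
      exact_mod_cast h2
    simp only [hw]
    rw [← sum_div, h3]
    exact div_self_le_one _
  have key := spec_count N hN w (fun n => by simp only [hw]; positivity) hw1 τ μ hτ hτ1 hμ (by
    simp only [hnorm]
    exact h)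
  simp only [hnorm] at key
  exact key

end Pool.Agent.Lib.MP_629a14_nt.Ck
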